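import Mathlib
import Pool.Agent.helper85.AR.Final

/-!
# Definitions for project rg (MP_2e0e07_nt)

Geometric origin of `ρ` from one algebraic relation. Everything here is topology-free.
-/

namespace Pool.Agent.RG

open Matrix Polynomial Pool.Agent.GO Pool.Agent.AR

section rep

variable {F : Type*} [Field F] {Γ : Type*} [Group Γ]
variable {m : Type*} [Fintype m] [DecidableEq m] {κ : Type*} [Fintype κ] [DecidableEq κ]

/-- irreducible on every subgroup of finite index -/
def SIr (W : Γ →* Matrix m m F) : Prop :=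
  ∀ H : Subgroup Γ, H.FiniteIndex → Irred (fun h : H => W h)

/-- scalar matrices -/
def IsScal (Y : Matrix m m F) : Prop := ∃ c : F, Y = c • (1 : Matrix m m F)

/-- The pairs `(X, Y)` for which there is a derivation of the algebra of representative functions
of `V ⊕ ρ` mapping the matrix function `V` to `V X` and the matrix function `ρ` to `ρ Y`. -/
def DL (V : Γ →* Matrix m m F) (ρ : Γ →* Matrix κ κ F) : Set (Matrix m m F × Matrix κ κ F) :=
  {p | ∃ D : Derivation F (alg (ds V ρ)) (alg (ds V ρ)),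
    (∀ i j h, (D (gen (ds V ρ) (Sum.inl i) (Sum.inl j))).1 h = (V h * p.1) i j) ∧
    (∀ i j h, (D (gen (ds V ρ) (Sum.inr i) (Sum.inr j))).1 h = (ρ h * p.2) i j)}

/-- `A` is an algebra (matrices, or a product of matrix algebras), `u : Γ → A` a homomorphism.
`L` is a Lie algebra of pairs `(X, Y)`, stable under conjugation by `(u, ρ)`, such that `X = 0`
forces `Y` to be scalar, and with some nonscalar `Y`. -/
structure IsPair {A : Type*} [Ring A] [Algebra F A] (u : Γ →* A)
    (ρ : Γ →* Matrix (Fin 2) (Fin 2) F)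
    (L : Submodule F (A × Matrix (Fin 2) (Fin 2) F)) : Prop where
  lie : ∀ p ∈ L, ∀ p' ∈ L, p * p' - p' * p ∈ L
  conj : ∀ g, ∀ p ∈ L, (u g * p.1 * u g⁻¹, ρ g * p.2 * ρ g⁻¹) ∈ L
  inj : ∀ p ∈ L, p.1 = 0 → IsScal p.2
  ns : ∃ p ∈ L, ¬ IsScal p.2

/-- the stable subspaces of `V` are stable under the first components of `L` -/
def Stab (V : Γ →* Matrix m m F) (L : Submodule F (Matrix m m F × Matrix (Fin 2) (Fin 2) F)) :
    Prop :=
  ∀ p ∈ L, ∀ B : Submodule F (m → F), (∀ g, ∀ x ∈ B, V g *ᵥ x ∈ B) → ∀ x ∈ B, p.1 *ᵥ x ∈ B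

/-- the product of a family of matrix representations -/
def prodR {N : ℕ} {d : Fin N → ℕ} (W : (i : Fin N) → Γ →* Matrix (Fin (d i)) (Fin (d i)) F) :
    Γ →* ((i : Fin N) → Matrix (Fin (d i)) (Fin (d i)) F) where
  toFun g := fun i => W i g
  map_one' := by
    ext1 i
    exact map_one (W i)
  map_mul' g h := by
    ext1 i
    exact map_mul (W i) g h

/-- `τ` is a linear projection onto central elements, with `τ (x y) = τ (y x)` (normalised
trace). -/
structure IsTau {A : Type*} [Ring A] [Algebra F A] (τ : A →ₗ[F] A) : Prop where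
  comm : ∀ x y, τ (x * y) = τ (y * x)
  central : ∀ x y, τ x * y = y * τ x
  idem : ∀ x, τ (τ x) = τ x

/-- A chain of stable subspaces from `0` to the whole space, the factors of which are irreducible
for every subgroup of finite index. -/
structure IsFlag (V : Γ →* Matrix m m F) (N : ℕ) (c : ℕ → Submodule F (m → F)) : Prop where
  bot : c 0 = ⊥
  top : c N = ⊤
  lt : ∀ i < N, c i < c (i + 1)
  stable : ∀ i ≤ N, ∀ g, ∀ x ∈ c i, V g *ᵥ x ∈ c i
  irr : ∀ i < N, ∀ H : Subgroup Γ, H.FiniteIndex → ∀ B : Submodule F (m → F),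
    (∀ h ∈ H, ∀ x ∈ B, V h *ᵥ x ∈ B) → c i ≤ B → B ≤ c (i + 1) → B = c i ∨ B = c (i + 1)

/-- `W` is the representation on the factor `B / A`, by the linear map `π` from `B` with kernel
`A`. -/
structure IsFactor (V : Γ →* Matrix m m F) (A B : Submodule F (m → F)) {d : ℕ}
    (W : Γ →* Matrix (Fin d) (Fin d) F) (π : B →ₗ[F] (Fin d → F)) : Prop where
  le : A ≤ B
  surj : Function.Surjective π
  ker : ∀ x : B, π x = 0 ↔ x.1 ∈ A
  equiv : ∀ g, ∀ x y : B, y.1 = V g *ᵥ x.1 → π y = W g *ᵥ π x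

/-- `G` is dense for the functions of `alg W`. -/
def ZD (W : Γ →* Matrix m m F) (G : Set Γ) : Prop := ∀ f ∈ alg W, (∀ g ∈ G, f g = 0) → f = 0

/-- the determinant as a representation of dimension one -/
def detR (ρ : Γ →* Matrix κ κ F) : Γ →* Matrix (Fin 1) (Fin 1) F where
  toFun g := Matrix.of fun _ _ => (ρ g).det
  map_one' := by
    ext i j
    rw [map_one, Matrix.det_one, Subsingleton.elim j i]
    simp
  map_mul' g h := by
    ext i j
    rw [map_mul, Matrix.det_mul, Matrix.mul_apply, Fin.sum_univ_one]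
    rfl

/-- A linear map `σ` from the `2 × 2` matrices with `σ 1 = 0`, compatible with commutators. -/
structure IsSl {A : Type*} [Ring A] [Algebra F A] (σ : Matrix (Fin 2) (Fin 2) F →ₗ[F] A) :
    Prop where
  one : σ 1 = 0
  lie : ∀ Z Z', σ (Z * Z' - Z' * Z) = σ Z * σ Z' - σ Z' * σ Z

end rep

section arith

variable {E : Type*} [Field E]

/-- `P` is monic with integral coefficients, and all complex roots of all its conjugates have
absolute value `q ^ (w / 2)`. -/
structure IsWeil (q w : ℕ) (P : E[X]) : Prop where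
  monic : P.Monic
  integral : ∀ k, IsIntegral ℤ (P.coeff k)
  weil : ∀ (φ : E →+* ℂ) (z : ℂ), (P.map φ).IsRoot z → ‖z‖ ^ 2 = (q : ℝ) ^ w

/-- `Q = X² - a X + ε q ^ s` with `a` integral, `ε` a root of unity. -/
structure IsHecke (q s : ℕ) (Q : E[X]) : Prop where
  monic : Q.Monic
  deg : Q.natDegree = 2
  integral : IsIntegral ℤ (Q.coeff 1)
  det : ∃ (ε : E) (m : ℕ), 0 < m ∧ ε ^ m = 1 ∧ Q.coeff 0 = ε * (q : E) ^ s

/-- ordinary: the coefficient of `X` is prime to `q` -/
def IsOrd (q : ℕ) (Q : E[X]) : Prop :=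
  ∃ x y : E, IsIntegral ℤ x ∧ IsIntegral ℤ y ∧ x * Q.coeff 1 + y * (q : E) = 1

/-- `q` generates a radical ideal of the ring of integers of `E` (for a prime `q`: `q` is
unramified in `E`) and `q ≥ 5` -/
def IsUnr (E : Type*) [Field E] (q : ℕ) : Prop :=
  5 ≤ q ∧ ∀ x : E, IsIntegral ℤ x → IsIntegral ℤ (x ^ 2 / (q : E)) → IsIntegral ℤ (x / (q : E))

/-- the admissible places: ordinary in any weight `s`, or unramified and weight `s = 1` -/
def IsGood (q s : ℕ) (Q : E[X]) : Prop :=
  2 ≤ q ∧ IsHecke q s Q ∧ (IsOrd q Q ∨ (s = 1 ∧ IsUnr E q))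

end arith

end Pool.Agent.RG
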