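import Mathlib
import Pool.Agent.helper67.RG.Defs

/-!
# Definitions for the final statement (MP_2e0e07_nt)
-/

namespace Pool.Agent.RG

open Matrix Polynomial Pool.Agent.GO Pool.Agent.AR MeasureTheory Kronecker

section

variable {Γ Place : Type*} [Group Γ] [TopologicalSpace Γ] [MeasurableSpace Γ]

/-- The set `S` of places is not negligible: outside every closed null set and every finite set of
places there are Frobenius elements of places of `S`. (By Chebotarev's theorem this holds for every
set `S` of positive upper density.) -/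
def NonNegl (μ : Measure Γ) (frob : Place → Set Γ) (S : Set Place) : Prop :=
  ∀ (C : Set Γ) (T : Set Place), IsClosed C → μ C = 0 → T.Finite →
    ∃ v ∈ S, v ∉ T ∧ ∃ s ∈ frob v, s ∉ C

/-- The set `O` of places is not negligible in any open subgroup. (By Chebotarev's theorem this
holds if for every finite extension `L` of `K` the set of the places of `O` which split completely
in `L` has positive upper density, in particular if `O` has density one.) -/
def NonNeglOpen (μ : Measure Γ) (frob : Place → Set Γ) (O : Set Place) : Prop :=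
  ∀ U : Subgroup Γ, IsOpen (U : Set Γ) → ∀ (C : Set Γ) (T : Set Place), IsClosed C → μ C = 0 →
    T.Finite → ∃ v ∈ O, v ∉ T ∧ ∃ s ∈ frob v, s ∈ U ∧ s ∉ C

end

/-- The algebraic relation `Φ`: at every place `v` of `S` the polynomial `Φ`, with the coefficients
of the `P i v` substituted for the variables, is a nonzero polynomial in one variable with root
`a_v = -(coefficient of X in Q v)`. -/
def IsRelation {Place E : Type*} [Field E] {r : ℕ} (P : Fin r → Place → E[X]) (Q : Place → E[X])
    (S : Set Place) (Φ : (MvPolynomial (Fin r × ℕ) E)[X]) : Prop :=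
  ∀ v ∈ S, Φ.map (MvPolynomial.eval fun k => (P k.1 v).coeff k.2) ≠ 0 ∧
    (Φ.map (MvPolynomial.eval fun k => (P k.1 v).coeff k.2)).IsRoot (-(Q v).coeff 1)

/-- Continuous representations `V i` and `ρ` (of dimension two) over `F` with the Frobenius
polynomials `P i`, `Q`, `ρ` irreducible on every open subgroup. -/
structure IsRealisation {Γ Place E F : Type*} [Group Γ] [TopologicalSpace Γ] [Field E] [Field F]
    [TopologicalSpace F] (frob : Place → Set Γ) {r : ℕ} {n : Fin r → ℕ}
    (P : Fin r → Place → E[X]) (Q : Place → E[X]) (ι : E →+* F)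
    (V : (i : Fin r) → Γ →* Matrix (Fin (n i)) (Fin (n i)) F)
    (ρ : Γ →* Matrix (Fin 2) (Fin 2) F) : Prop where
  contV : ∀ i, Continuous (V i)
  cont : Continuous ρ
  compV : ∀ i, Compatible frob ι (P i) (V i)
  comp : Compatible frob ι Q ρ
  irr : ∀ U : Subgroup Γ, IsOpen (U : Set Γ) → Irred (fun u : U => ρ u)

/-- The set `O` of good places: for `v ∈ O` the polynomial `Q v` is `X² - a_v X + ε_v q_v ^ s` with
`a_v` integral, `ε_v` a root of unity, and either `a_v` is prime to `q_v` in the integers of `E`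
(`f` is ordinary at `v`), or `s = 1`, `q_v ≥ 5` and `q_v` generates a radical ideal of the integers
of `E` (`v` is a place of degree one, not dividing the discriminant of `E`; no condition on
`a_v`). The `P i v` with `n i ≥ 2` have integral coefficients and roots of absolute value
`q_v ^ (w i / 2)`, `w i ≤ s`. `O` is not negligible in any open subgroup. -/
structure IsGoodSet {Γ Place E : Type*} [Group Γ] [TopologicalSpace Γ] [MeasurableSpace Γ]
    [Field E] (μ : Measure Γ) (frob : Place → Set Γ) {r : ℕ} (n : Fin r → ℕ)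
    (P : Fin r → Place → E[X]) (Q : Place → E[X]) (q : Place → ℕ) (s : ℕ) (w : Fin r → ℕ)
    (O : Set Place) : Prop where
  pos : 1 ≤ s
  wt : ∀ i, 2 ≤ n i → w i ≤ s
  dense : NonNeglOpen μ frob O
  good : ∀ v ∈ O, IsGood (q v) s (Q v)
  weil : ∀ v ∈ O, ∀ i, 2 ≤ n i → IsWeil (q v) (w i) (P i v)

/-- `ρ` is a subquotient of `V i ⊗ F[Fin N]` for some `i` and some permutation representation with
open kernel. (If `V i` is a cohomology group of a variety `X` over `K`, then `V i ⊗ F[Fin N]` is
the cohomology group of `X ×_K Spec L` for the finite etale `K`-algebra `L` given by `τ`.) -/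
def Arises {Γ F : Type*} [Group Γ] [TopologicalSpace Γ] [Field F] {r : ℕ} {n : Fin r → ℕ}
    (V : (i : Fin r) → Γ →* Matrix (Fin (n i)) (Fin (n i)) F)
    (ρ : Γ →* Matrix (Fin 2) (Fin 2) F) : Prop :=
  ∃ (i : Fin r) (N : ℕ) (τ : Γ →* Equiv.Perm (Fin N)), IsOpen (τ.ker : Set Γ) ∧
    IsSubquotient (fun g => ρ g)
      (fun g => V i g ⊗ₖ (Matrix.of fun x y : Fin N => if x = τ g y then (1 : F) else 0))

/-- base change of a matrix representation along a homomorphism of fields -/
def bc {Γ F Ω m : Type*} [Group Γ] [Field F] [Field Ω] [Fintype m] [DecidableEq m] (j : F →+* Ω)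
    (V : Γ →* Matrix m m F) : Γ →* Matrix m m Ω :=
  ((j.mapMatrix : Matrix m m F →+* Matrix m m Ω) : Matrix m m F →* Matrix m m Ω).comp V

/-- The subgroup `{g | ρ g = c ρ h for some h ∈ ker V and some scalar c}`, the product of the
kernels of `V` and of `ad ρ`. For Galois groups it is the Galois group of the intersection of the
fields cut out by `V` and by `ad ρ`. -/
def meet {Γ F F' : Type*} [Group Γ] [Field F] [Field F'] {r : ℕ} {n : Fin r → ℕ}
    (V : (i : Fin r) → Γ →* Matrix (Fin (n i)) (Fin (n i)) F')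
    (ρ : Γ →* Matrix (Fin 2) (Fin 2) F) : Subgroup Γ where
  carrier := {g | ∃ h : Γ, (∀ i, V i h = 1) ∧ ∃ c : F, ρ g = c • ρ h}
  one_mem' := ⟨1, fun i => map_one _, 1, by rw [one_smul]⟩
  mul_mem' := by
    rintro a b ⟨h, hV, c, hc⟩ ⟨h', hV', c', hc'⟩
    refine ⟨h * h', fun i => by rw [map_mul, hV, hV', mul_one], c * c', ?_⟩
    rw [map_mul, map_mul, hc, hc', Matrix.smul_mul, Matrix.mul_smul, smul_smul]
  inv_mem' := by
    rintro a ⟨h, hV, c, hc⟩
    have h1 : ρ a * ρ a⁻¹ = 1 := by rw [← map_mul, mul_inv_cancel, map_one]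
    have h2 : ρ h⁻¹ * ρ h = 1 := by rw [← map_mul, inv_mul_cancel, map_one]
    have hV' : ∀ i, V i h⁻¹ = 1 := by
      intro i
      have h3 : V i h * V i h⁻¹ = 1 := by rw [← map_mul, mul_inv_cancel, map_one]
      rwa [hV i, one_mul] at h3
    have h4 : c • ρ a⁻¹ = ρ h⁻¹ := by
      have h5 : ρ h⁻¹ * (ρ a * ρ a⁻¹) = ρ h⁻¹ := by rw [h1, mul_one]
      rw [← mul_assoc, hc, Matrix.mul_smul, h2, Matrix.smul_mul, one_mul] at h5
      exact h5
    have hc0 : c ≠ 0 := by
      intro h0
      rw [h0, zero_smul] at h4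
      rw [← h4, zero_mul] at h2
      exact zero_ne_one h2
    refine ⟨h⁻¹, hV', c⁻¹, ?_⟩
    rw [← h4, smul_smul, inv_mul_cancel₀ hc0, one_smul]

end Pool.Agent.RG
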