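import Mathlib
import Pool.Agent.helper67.RG.Defs

/-!
# Project rg (MP_2e0e07_nt): the rows

Rows are the definitions `XX_stmt : Prop`; prove `theorem XX : XX_stmt` in
`Pool/Agent/<you>/RG/XX.lean`, namespace `Pool.Agent.RG.XX` (import `Pool.Agent.helper67.RG.Spec`).
The paper proof is `/team-store/MP_2e0e07_nt_hard2.md`; a complete proof of every row is in its
docstring. Library: `Pool/Agent/helper85/AR/*` (`ds`, `dirSum`, `ad0`, `em`, `co`, `SI`,
`ad0_irred`, `schur`, `rtA`, `resF`, `exists_component`, `main_group`) and `Pool/Agent/helper6/GO/*`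
(`alg`, `coef_mem`, `coefInv_mem`, `alg_le`, `gen`, `genInv`, `gen_mul_genInv`, `sum_mem_fun`,
`alg_lt`, `alg_rt`, `LF_alg`, `IsSubquotient`, `Irred`, `root_of_subquot`).
-/

namespace Pool.Agent.RG

open Matrix Polynomial Pool.Agent.GO Pool.Agent.AR MeasureTheory Kronecker

-- in this Mathlib the commutator bracket of a ring is only a local instance; put this line in your
-- file too if you work on rows LZF, RAD, SPL, STR
attribute [local instance 100] LieRing.ofAssociativeRing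

/-! ## Section A: the Lie algebra of derivations -/

/-- Row LIE. `DL V ρ` is a subspace closed under commutators.
Proof. The matrix function `gen = (gen (ds V ρ) i j)` has a derivative `D gen`. If `D₁`, `D₂` are the
derivations of `p`, `p'`, then `D₁ + D₂`, `c • D₁`, `0` give `p + p'`, `c • p`, `0`, and the bracket
`⁅D₁, D₂⁆` (Mathlib: `Derivation` is a Lie algebra, `Derivation.commutator_apply`) gives
`p * p' - p' * p`: `D₂ (V_ij) = ∑ k, (X'_kj) • V_ik`, so
`D₁ (D₂ V_ij) = ∑ k, X'_kj • D₁ V_ik = (V X X')_ij`. (First write the conditions as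
`D (gen i j) = ∑ k, X k j • gen i k` in `alg`, by `Subtype.ext`, `funext`.) -/
def LIE_stmt : Prop := ∀ {F Γ m κ : Type*} [Field F] [Group Γ] [Fintype m] [DecidableEq m]
  [Fintype κ] [DecidableEq κ] (V : Γ →* Matrix m m F) (ρ : Γ →* Matrix κ κ F),
  ∃ L : Submodule F (Matrix m m F × Matrix κ κ F), (∀ p, p ∈ L ↔ p ∈ DL V ρ) ∧
    ∀ p ∈ L, ∀ p' ∈ L, p * p' - p' * p ∈ L

/-- Row CNJ. `DL V ρ` is stable under conjugation by `(V g, ρ g)`.
Proof. `R = ds V ρ`, right translation `rtA R g : alg R →ₐ alg R` (`f ↦ (h ↦ f (h g))`) is an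
automorphism with inverse `rtA R g⁻¹`. `D' = rtA g ∘ D ∘ rtA g⁻¹` is a derivation, and
`D' V = V X'` with: `rt_{g⁻¹} V (h) = V h V g⁻¹`, `D` of it is `V h X V g⁻¹`, `rt_g` of it is
`V h V g X V g⁻¹`. Same for `ρ`. -/
def CNJ_stmt : Prop := ∀ {F Γ m κ : Type*} [Field F] [Group Γ] [Fintype m] [DecidableEq m]
  [Fintype κ] [DecidableEq κ] (V : Γ →* Matrix m m F) (ρ : Γ →* Matrix κ κ F) (g : Γ),
  ∀ p ∈ DL V ρ, (V g * p.1 * V g⁻¹, ρ g * p.2 * ρ g⁻¹) ∈ DL V ρ

/-- Row STB. A subspace `B` stable under all `V g` is stable under `p.1` for `p ∈ DL V ρ`.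
Proof. Let `x ∈ B` and let `l` be a linear functional (coordinates `l_i`) vanishing on `B`. Then
`∑ i j, l_i x_j V_ij = 0` as a function on `Γ`. Apply `D`: `∑ i j, l_i x_j (V h X)_ij = 0` for all
`h`, `h = 1`: `l (X x) = 0`. As all `l` vanishing on `B` vanish at `X x`, `X x ∈ B`
(`Submodule.dualAnnihilator`, or `Submodule.exists_le_ker_of_notMem`). -/
def STB_stmt : Prop := ∀ {F Γ m κ : Type*} [Field F] [Group Γ] [Fintype m] [DecidableEq m]
  [Fintype κ] [DecidableEq κ] (V : Γ →* Matrix m m F) (ρ : Γ →* Matrix κ κ F),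
  ∀ p ∈ DL V ρ, ∀ B : Submodule F (m → F), (∀ g, ∀ x ∈ B, V g *ᵥ x ∈ B) →
    ∀ x ∈ B, p.1 *ᵥ x ∈ B

/-- Row KER. If the coefficients of `ad0 ρ` are in `alg V`, then `(0, Y) ∈ DL V ρ` implies that
`Y` is scalar.
Proof. `D` kills the functions `V_ij`, hence also the functions `V(g⁻¹)_ij`
(`0 = D (V V⁻¹) = V D(V⁻¹)`, multiply by `V⁻¹`; `gen_mul_genInv`), hence all of
`alg V ⊆ alg (ds V ρ)` (`Algebra.adjoin_induction`), hence the coefficients of `ad0 ρ`. Also
`D (ρ(g⁻¹)) = - Y ρ(g⁻¹)` (from `D (ρ ρ⁻¹) = 0`). By `em_ad0`: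
`em (ad0 ρ g *ᵥ x) = ρ g * em x * ρ g⁻¹`; the entries of the left side are killed by `D`; `D` of the
right side is `ρ g (Y Z - Z Y) ρ g⁻¹`, `Z = em x`. At `g = 1`: `Y Z = Z Y` for all `Z` of trace
zero, so `Y` is scalar (take the elementary matrices `e_01`, `e_10`). -/
def KER_stmt : Prop := ∀ {F Γ m : Type*} [Field F] [Group Γ] [Fintype m] [DecidableEq m]
  (V : Γ →* Matrix m m F) (ρ : Γ →* Matrix (Fin 2) (Fin 2) F),
  (∀ i j, (fun g => ad0 ρ g i j) ∈ alg V) → ∀ p ∈ DL V ρ, p.1 = 0 → IsScal p.2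

/-- Row GRD. A linear map with prescribed eigenvalues on the generalised eigenspaces.
Proof. The `maxGenEigenspace`s are independent (`Module.End.independent_maxGenEigenspace`) with
supremum `⊤`, so an internal direct sum (`DirectSum.isInternal_submodule_iff_iSupIndep_and_iSup_eq_top`);
define `D` by `w χ • ·` on the summand of `χ` (`DirectSum.toModule` after the inverse of the
decomposition). -/
def GRD_stmt : Prop := ∀ {F M : Type*} [Field F] [AddCommGroup M] [Module F M]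
  (f : Module.End F M), (⨆ χ : F, f.maxGenEigenspace χ) = ⊤ → ∀ w : F → F,
  ∃ D : M →ₗ[F] M, ∀ χ, ∀ x ∈ f.maxGenEigenspace χ, D x = w χ • x

/-- Row LFD. Right translation by `g` on `alg R`: the generalised eigenspaces span, the one of `0`
is zero, and they multiply.
Proof. `τ = rtA R g` is an injective algebra endomorphism. Products:
`(τ - χ ψ) (a b) = ((τ - χ) a) (τ b) + χ a ((τ - ψ) b)`; by induction on `k + l`:
`(τ - χ)^k a = 0`, `(τ - ψ)^l b = 0` imply `(τ - χ ψ)^(k + l) (a b) = 0` (note that `τ b` is also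
killed by `(τ - ψ)^l`). So `S = ⨆ χ, A_χ` is closed under products and contains `1 ∈ A_1`, it is a
subalgebra. It contains the generators: for fixed `i` the linear map `T_i : (m → F) → alg R`,
`x ↦ (h ↦ (R h *ᵥ x) i)`, satisfies `τ (T_i x) = T_i (R g *ᵥ x)`, hence maps generalised
eigenspaces of `R g` into those of `τ`, and those of `R g` span
(`Module.End.iSup_maxGenEigenspace_eq_top`). Similarly `x ↦ (h ↦ (x ᵥ* R h⁻¹) j)` intertwines
`x ↦ x ᵥ* R g⁻¹` with `τ`. Then `alg R = Algebra.adjoin ... ≤ S`. -/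
def LFD_stmt : Prop := ∀ {F Γ m : Type*} [Field F] [IsAlgClosed F] [Group Γ] [Fintype m]
  [DecidableEq m] (R : Γ →* Matrix m m F) (g : Γ),
  (⨆ χ : F, Module.End.maxGenEigenspace (rtA R g).toLinearMap χ) = ⊤ ∧
  Module.End.maxGenEigenspace (rtA R g).toLinearMap 0 = ⊥ ∧
  ∀ (χ ψ : F) (a b : alg R), a ∈ Module.End.maxGenEigenspace (rtA R g).toLinearMap χ →
    b ∈ Module.End.maxGenEigenspace (rtA R g).toLinearMap ψ →
    a * b ∈ Module.End.maxGenEigenspace (rtA R g).toLinearMap (χ * ψ)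

/-- Row DWG. The derivation of an additive function `w` and an element `g`.
Proof. Let `D` be the linear map of row GRD for `f = rtA R g` and `w` (row LFD gives the
hypothesis). Leibniz rule: by linearity in both arguments (`Submodule.iSup_induction` twice) it
suffices to take `a ∈ A_χ`, `b ∈ A_ψ`; if `a = 0` or `b = 0` it is trivial; otherwise `χ, ψ ≠ 0`
(`A_0 = ⊥`) and `D (a b) = w (χ ψ) a b = a (w ψ b) + b (w χ a)`. For `x` in the generalised
`χ`-eigenspace of `R g` the element `∑ j, x j • gen R i j` (the function `h ↦ (R h *ᵥ x) i`) is in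
`A_χ`, because the map `x ↦ ∑ j, x j • gen R i j` intertwines `R g` with `rtA R g`. Rows GRD and
LFD may be taken as hypotheses. -/
def DWG_stmt : Prop := ∀ {F Γ m : Type*} [Field F] [IsAlgClosed F] [Group Γ] [Fintype m]
  [DecidableEq m] (R : Γ →* Matrix m m F) (g : Γ) (w : F → F),
  (∀ x y, x ≠ 0 → y ≠ 0 → w (x * y) = w x + w y) →
  ∃ D : Derivation F (alg R) (alg R), ∀ (χ : F) (x : m → F),
    x ∈ Module.End.maxGenEigenspace (Matrix.toLin' (R g)) χ →
    ∀ i, D (∑ j, x j • gen R i j) = w χ • ∑ j, x j • gen R i j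

/-- Row WEX. Additive functions separate elements of infinite order.
Proof. `Additive Fˣ` is an abelian group, the image of `c` in the `ℚ`-vector space
`ℚ ⊗[ℤ] Additive Fˣ` is nonzero because `c` has infinite order (or: the homomorphism
`ℤ → Additive Fˣ`, `k ↦ k c`, is injective and `ℚ` is an injective `ℤ`-module
(divisible), so `k ↦ k : ℤ → ℚ` extends to `Additive Fˣ → ℚ`, e.g. `Module.Baer`,
`AddCommGrpCat.injective_of_divisible`, or Zorn). Compose with `ℚ → F` (characteristic `0`) and put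
`w 0 = 0`. -/
def WEX_stmt : Prop := ∀ {F : Type*} [Field F] [CharZero F] (c : F), c ≠ 0 →
  (∀ k : ℕ, 0 < k → c ^ k ≠ 1) →
  ∃ w : F → F, (∀ x y, x ≠ 0 → y ≠ 0 → w (x * y) = w x + w y) ∧ w c ≠ 0

/-- Row NSC. A pair with nonscalar second component.
Proof. `α, β ≠ 0` (`ρ g` is invertible) and `α ≠ β`. Row WEX for `c = α / β` gives `w` with
`w α - w β = w c ≠ 0` (`w (c β) = w c + w β`). Row DWG for `R = ds V ρ` gives `D`. By row GRD
(`f = toLin' (V g)`, `toLin' (ρ g)`; `Module.End.iSup_maxGenEigenspace_eq_top`) there are matrices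
`X`, `Y` with `X x = w χ x` on the generalised `χ`-eigenspaces of `V g`, and `Y` for `ρ g`. For such
`x` the vector `(x, 0)` is in the generalised `χ`-eigenspace of `R g`, so
`D (h ↦ (V h x)_i) = w χ (V h x)_i = (V h X x)_i`; these `x` span, so `D V_ij = (V X)_ij` for all
`j`. Same for `ρ`. `Y` is not scalar: it has the eigenvalues `w α ≠ w β` on eigenvectors of `ρ g`.
Rows GRD, DWG, WEX may be taken as hypotheses. -/
def NSC_stmt : Prop := ∀ {F Γ m : Type*} [Field F] [IsAlgClosed F] [CharZero F] [Group Γ]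
  [Fintype m] [DecidableEq m] (V : Γ →* Matrix m m F) (ρ : Γ →* Matrix (Fin 2) (Fin 2) F) (g : Γ)
  (α β : F), (ρ g).charpoly = (X - C α) * (X - C β) → (∀ k : ℕ, 0 < k → α ^ k ≠ β ^ k) →
  ∃ p ∈ DL V ρ, ¬ IsScal p.2

/-- Row PKV (assembly of LIE, CNJ, STB, KER, NSC, which may be taken as hypotheses). -/
def PKV_stmt : Prop := ∀ {F Γ m : Type*} [Field F] [IsAlgClosed F] [CharZero F] [Group Γ]
  [Fintype m] [DecidableEq m] (V : Γ →* Matrix m m F) (ρ : Γ →* Matrix (Fin 2) (Fin 2) F),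
  (∀ i j, (fun g => ad0 ρ g i j) ∈ alg V) → ∀ (g : Γ) (α β : F),
  (ρ g).charpoly = (X - C α) * (X - C β) → (∀ k : ℕ, 0 < k → α ^ k ≠ β ^ k) →
  ∃ L : Submodule F (Matrix m m F × Matrix (Fin 2) (Fin 2) F), IsPair V ρ L ∧
    (∀ p ∈ L, p ∈ DL V ρ) ∧ Stab V L

/-! ## Section B: composition factors -/

/-- Row FIL. A subspace of `2 × 2` matrices stable under conjugation by `ρ` which contains a
nonscalar matrix contains every matrix of trace zero up to a scalar.
Proof. `J' = {x : Fin 3 → F | ∃ c, em x + c • 1 ∈ J}` is a subspace stable under `ad0 ρ`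
(`em_ad0`), nonzero (the trace free part `Y - (tr Y / 2) • 1` of a nonscalar `Y ∈ J` is nonzero), so
`⊤` by `ad0_irred`. `em_co`. -/
def FIL_stmt : Prop := ∀ {F Γ : Type*} [Field F] [IsAlgClosed F] [CharZero F] [Group Γ]
  (ρ : Γ →* Matrix (Fin 2) (Fin 2) F), SI ρ → ∀ J : Submodule F (Matrix (Fin 2) (Fin 2) F),
  (∀ g, ∀ Y ∈ J, ρ g * Y * ρ g⁻¹ ∈ J) → (∃ Y ∈ J, ¬ IsScal Y) →
  ∀ Z, Z.trace = 0 → ∃ c : F, Z + c • (1 : Matrix (Fin 2) (Fin 2) F) ∈ J

/-- Row NIL. If `p ∈ L` maps `c (i + 1)` into `c i` for all `i < N`, then `p.2` is scalar.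
Proof. For `j ≥ 1` let `K_j` be the set of `p ∈ L` with `p.1 (c (i + j)) ⊆ c i` for all `i` with
`i + j ≤ N`, and `p.1 (c i) = 0` for `i ≤ min j N` (with `c i := ⊤` for `i > N` you may simply use
`p.1 (c (min (i + j) N)) ⊆ c i` for all `i`). `K_j` is a subspace stable under conjugation. Suppose
some `p ∈ K_1` has nonscalar `p.2`. Claim: every `K_j`, `j ≥ 1`, has an element with nonscalar
second component. Induction: by row FIL (applied to the second components of `K_1` and of `K_j`)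
there are `p ∈ K_1`, `p' ∈ K_j` with `p.2 = e_01 + scalar`, `p'.2 = e_10 + scalar`, and
`p * p' - p' * p` is in `L`, has second component `e_00 - e_11` (not scalar) and is in `K_(j+1)`
(`p.1 p'.1 c (i+j+1) ⊆ p.1 c (i + 1) ⊆ c i`, `p'.1 p.1 c (i+j+1) ⊆ p'.1 c (i + j) ⊆ c i`). For
`j = N`: the first component kills `c N = ⊤`, so is `0`, contradiction with `IsPair.inj`. Row FIL
may be taken as hypothesis. -/
def NIL_stmt : Prop := ∀ {F Γ m : Type*} [Field F] [IsAlgClosed F] [CharZero F] [Group Γ]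
  [Fintype m] [DecidableEq m] (V : Γ →* Matrix m m F) (ρ : Γ →* Matrix (Fin 2) (Fin 2) F), SI ρ →
  ∀ L : Submodule F (Matrix m m F × Matrix (Fin 2) (Fin 2) F), IsPair V ρ L → Stab V L →
  ∀ (N : ℕ) (c : ℕ → Submodule F (m → F)), IsFlag V N c →
  ∀ p ∈ L, (∀ i < N, ∀ x ∈ c (i + 1), p.1 *ᵥ x ∈ c i) → IsScal p.2

/-- Row QUO. The representation on `B / A` in matrix form; its coefficients are in `alg V`.
Proof. Choose a basis of `B ⧸ A.submoduleOf B` (`Module.finBasis`), `π` = coordinates of the class,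
`W g` = the matrix of the induced map. Coefficients: for `x ∈ B` with `π x = e_j` and the functional
`l = ` an extension to `m → F` of the `i`-th coordinate of `π` (`LinearMap.exists_extend`):
`W g i j = l (V g *ᵥ x) = ∑ k k', l_k x_k' V g k k'`. If `A < B` then `d > 0` since otherwise
`π = 0`. -/
def QUO_stmt : Prop := ∀ {F Γ m : Type*} [Field F] [Group Γ] [Fintype m] [DecidableEq m]
  (V : Γ →* Matrix m m F) (A B : Submodule F (m → F)), A ≤ B → (∀ g, ∀ x ∈ A, V g *ᵥ x ∈ A) →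
  (∀ g, ∀ x ∈ B, V g *ᵥ x ∈ B) →
  ∃ (d : ℕ) (W : Γ →* Matrix (Fin d) (Fin d) F) (π : B →ₗ[F] (Fin d → F)),
    IsFactor V A B W π ∧ (A < B → 0 < d) ∧ ∀ i j, (fun g => W g i j) ∈ alg V

/-- Row SIW. A factor of a flag is strongly irreducible.
Proof. For `H` of finite index and an `H`-stable subspace `Q` of `Fin d → F` let
`M = (π⁻¹ Q)` as a subspace of `m → F` (`(Q.comap π).map B.subtype`); it is `H`-stable and
between `A` and `B`, so `M = A` (then `Q = 0` by surjectivity of `π`) or `M = B` (then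
`Q = ⊤`). -/
def SIW_stmt : Prop := ∀ {F Γ m : Type*} [Field F] [Group Γ] [Fintype m] [DecidableEq m]
  (V : Γ →* Matrix m m F) (A B : Submodule F (m → F)), A < B →
  (∀ g, ∀ x ∈ B, V g *ᵥ x ∈ B) →
  (∀ H : Subgroup Γ, H.FiniteIndex → ∀ M : Submodule F (m → F),
    (∀ h ∈ H, ∀ x ∈ M, V h *ᵥ x ∈ M) → A ≤ M → M ≤ B → M = A ∨ M = B) →
  ∀ {d : ℕ} (W : Γ →* Matrix (Fin d) (Fin d) F) (π : B →ₗ[F] (Fin d → F)),
  IsFactor V A B W π → SIr W

/-- Row CHF. The characteristic polynomial of `V g` is the product over the factors of a flag.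
Proof. By induction on `i ≤ N`: the characteristic polynomial of the restriction of `V g` to `c i`
is the product over `j < i` (for a stable subspace `A ≤ B`, `charpoly` of the restriction to `B` is
`charpoly` on `A` times `charpoly` on `B / A`; Mathlib: `LinearMap.charpoly_eq_mul`-like or a basis
adapted to `A` and `Matrix.charpoly_fromBlocks_zero₂₁`; look for
`LinearMap.charpoly` with `Submodule.mapQ`). -/
def CHF_stmt : Prop := ∀ {F Γ m : Type*} [Field F] [Group Γ] [Fintype m] [DecidableEq m]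
  (V : Γ →* Matrix m m F) (N : ℕ) (c : ℕ → Submodule F (m → F)), IsFlag V N c →
  ∀ {d : Fin N → ℕ} (W : (i : Fin N) → Γ →* Matrix (Fin (d i)) (Fin (d i)) F)
    (π : (i : Fin N) → c (i.1 + 1) →ₗ[F] (Fin (d i) → F)),
  (∀ i, IsFactor V (c i.1) (c (i.1 + 1)) (W i) (π i)) →
  ∀ g, (V g).charpoly = ∏ i, (W i g).charpoly

/-- Row IPF. The Lie algebra of pairs induced on the factors of a flag.
Proof. Every `p.1`, `p ∈ L`, maps `c i` into itself (`Stab`), so induces `X'_i` on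
`c (i + 1) / c i ≅ Fin (d i) → F` (matrix with columns `π i (p.1 x)`, `π i x = e_j`). Let `L'` be
the image of `L` under the linear map `p ↦ ((X'_i)_i, p.2)` (or the set of `p'` satisfying the
last condition for some `p ∈ L`). `lie`, `conj`, `ns` are immediate; `inj`: if all `X'_i = 0` then
`p.1 (c (i + 1)) ⊆ c i` for all `i < N`, so `p.2` is scalar by row NIL (which may be taken as
hypothesis). -/
def IPF_stmt : Prop := ∀ {F Γ m : Type*} [Field F] [IsAlgClosed F] [CharZero F] [Group Γ]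
  [Fintype m] [DecidableEq m] (V : Γ →* Matrix m m F) (ρ : Γ →* Matrix (Fin 2) (Fin 2) F), SI ρ →
  ∀ L : Submodule F (Matrix m m F × Matrix (Fin 2) (Fin 2) F), IsPair V ρ L → Stab V L →
  ∀ (N : ℕ) (c : ℕ → Submodule F (m → F)), IsFlag V N c →
  ∀ {d : Fin N → ℕ} (W : (i : Fin N) → Γ →* Matrix (Fin (d i)) (Fin (d i)) F)
    (π : (i : Fin N) → c (i.1 + 1) →ₗ[F] (Fin (d i) → F)),
  (∀ i, IsFactor V (c i.1) (c (i.1 + 1)) (W i) (π i)) →
  ∃ L' : Submodule F (((i : Fin N) → Matrix (Fin (d i)) (Fin (d i)) F) ×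
      Matrix (Fin 2) (Fin 2) F), IsPair (prodR W) ρ L' ∧
    ∀ p' ∈ L', ∃ p ∈ L, p'.2 = p.2 ∧ ∀ (i : Fin N) (x y : c (i.1 + 1)), y.1 = p.1 *ᵥ x.1 →
      π i y = p'.1 i *ᵥ π i x

/-- Row DWI. A derivation with `D V = V X` satisfies `D W = W X'` on a factor `W`.
Proof. Let `x ∈ B` with `π x = e_j` and let `l : (m → F) → F` be an extension of
`(π ·) i : B → F` (`LinearMap.exists_extend`). Then `W h i j = l (V h x) = ∑ k k', l_k x_k' V h k k'`
is a linear combination of the functions `V_kk'` (an identity in `alg (ds V ρ)`), so `D` of it at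
`h` is `l (V h X x)`. As `X x ∈ B`, `V h X x ∈ B` and this is
`(W h π (X x)) i = (W h X' π x) i = (W h X') i j`. -/
def DWI_stmt : Prop := ∀ {F Γ m κ : Type*} [Field F] [Group Γ] [Fintype m] [DecidableEq m]
  [Fintype κ] [DecidableEq κ] (V : Γ →* Matrix m m F) (ρ : Γ →* Matrix κ κ F)
  (D : Derivation F (alg (ds V ρ)) (alg (ds V ρ))) (Xm : Matrix m m F),
  (∀ i j h, (D (gen (ds V ρ) (Sum.inl i) (Sum.inl j))).1 h = (V h * Xm) i j) →
  ∀ (A B : Submodule F (m → F)) {d : ℕ} (W : Γ →* Matrix (Fin d) (Fin d) F)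
    (π : B →ₗ[F] (Fin d → F)), IsFactor V A B W π →
  (∀ g, ∀ x ∈ B, V g *ᵥ x ∈ B) → (∀ x ∈ B, Xm *ᵥ x ∈ B) →
  ∀ X' : Matrix (Fin d) (Fin d) F, (∀ x y : B, y.1 = Xm *ᵥ x.1 → π y = X' *ᵥ π x) →
  ∀ i j (hm : (fun g => W g i j) ∈ alg (ds V ρ)) h,
    (D ⟨fun g => W g i j, hm⟩).1 h = (W h * X') i j

/-! ## Section C: the homomorphism `σ` -/

/-- Row LZF. The trace free part `L₀` of `L` and its map to `sl₂`.
Proof. `L₀ = {x | τ x = 0 ∧ ∃ a Y, (x + τ a, Y) ∈ L}`. It is a subspace, closed under commutators: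
`[x + τ a, x' + τ a'] = [x, x']` (`τ` central), `τ [x, x'] = 0`. Claim: `(τ a, Y) ∈ L` implies `Y`
scalar. Indeed for `(x', Y') ∈ L` the commutator is `(0, [Y, Y'])`, so `[Y, Y']` is scalar of trace
zero, so `0` (characteristic `0`). The `Y'` form a subspace stable under conjugation with a
nonscalar element, so by row FIL contain all matrices of trace zero up to scalars: `Y` commutes
with all of them and is scalar. So `π x = Y - (tr Y / 2) • 1` does not depend on the choice of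
`a`, `Y` (the difference of two choices is `(τ (a - a'), Y - Y')`); it is linear, compatible with
brackets, `π (u g x u g⁻¹) = ρ g π x ρ g⁻¹` (`τ (u g x u g⁻¹) = τ x = 0`,
`u g τ a u g⁻¹ = τ a`). Trace zero: clear; surjective onto trace zero: for `Z` of trace zero row FIL
gives `(x, Z + c) ∈ L`, then `x - τ x ∈ L₀` (`idem`) and `π = Z`. The last clause is the definition.
Row FIL may be taken as hypothesis. -/
def LZF_stmt : Prop := ∀ {F Γ A : Type*} [Field F] [IsAlgClosed F] [CharZero F] [Group Γ]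
  [Ring A] [Algebra F A] (u : Γ →* A) (ρ : Γ →* Matrix (Fin 2) (Fin 2) F), SI ρ →
  ∀ τ : A →ₗ[F] A, IsTau τ → ∀ L : Submodule F (A × Matrix (Fin 2) (Fin 2) F), IsPair u ρ L →
  ∃ (L₀ : LieSubalgebra F A) (π : L₀ →ₗ⁅F⁆ Matrix (Fin 2) (Fin 2) F),
    (∀ x ∈ L₀, τ x = 0) ∧
    (∀ Z : Matrix (Fin 2) (Fin 2) F, Z.trace = 0 ↔ ∃ x : L₀, π x = Z) ∧
    (∀ g, ∀ x ∈ L₀, u g * x * u g⁻¹ ∈ L₀) ∧
    (∀ g (x x' : L₀), x'.1 = u g * x.1 * u g⁻¹ → π x' = ρ g * π x * ρ g⁻¹) ∧
    ∀ x : L₀, ∃ (a : A) (c : F), (x.1 + τ a, π x + c • (1 : Matrix (Fin 2) (Fin 2) F)) ∈ L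

/-- Row RAD. A Lie algebra of trace free elements, stable under a strongly irreducible family, has
trivial radical.
Proof. Let `R` be the radical of `L₀`, a solvable ideal. It is stable under the automorphisms
`x ↦ u g x u g⁻¹` of `L₀` (the image of a solvable ideal under an automorphism is a solvable
ideal). Fix `i`; `R` acts on `E = (Fin (d i) → F)` by `x ↦ θ i x`, `E ≠ 0`. Lie's theorem
(`LieModule.exists_nontrivial_weightSpace_of_isSolvable`, file
`Mathlib/Algebra/Lie/LieTheorem.lean`): there are `lam : R → F` and `v ≠ 0` with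
`θ i x v = lam x v` for all `x ∈ R`. For a function `lam` let `E_lam = {v | ∀ x ∈ R, θ i x v = lam x v}`.
`W i g` maps `E_lam` onto `E_(lam ∘ conj (g⁻¹))`. The set of `lam` with `E_lam ≠ 0` is finite (`lam` is
linear, determined by its values on a basis of `R`, and these values are eigenvalues of the
matrices of the basis). `Γ` acts on this finite set, the stabiliser `H` of `lam` has finite index and
`E_lam` is `H`-stable and nonzero, so it is `E` by `SIr (W i)`. So `θ i x` is the scalar `lam x`, of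
trace `0`, so `θ i x = 0` (characteristic `0`, `d i > 0`). For all `i`: `x = 0`. So `R = ⊥`. -/
def RAD_stmt : Prop := ∀ {F Γ A : Type*} [Field F] [IsAlgClosed F] [CharZero F] [Group Γ]
  [Ring A] [Algebra F A] [FiniteDimensional F A] (u : Γ →* A) {N : ℕ} {d : Fin N → ℕ}
  (W : (i : Fin N) → Γ →* Matrix (Fin (d i)) (Fin (d i)) F)
  (θ : (i : Fin N) → A →ₐ[F] Matrix (Fin (d i)) (Fin (d i)) F),
  (∀ i, 0 < d i) → (∀ x, (∀ i, θ i x = 0) → x = 0) → (∀ i g, θ i (u g) = W i g) →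
  (∀ i, SIr (W i)) → ∀ L₀ : LieSubalgebra F A, (∀ g, ∀ x ∈ L₀, u g * x * u g⁻¹ ∈ L₀) →
  (∀ x ∈ L₀, ∀ i, (θ i x).trace = 0) → LieAlgebra.HasTrivialRadical F L₀

/-- Row SPL. Splitting of a homomorphism of Lie algebras with trivial radical, compatible with
automorphisms.
Proof. `L` is Killing (`LieAlgebra.HasTrivialRadical.instIsKilling`, file
`Mathlib/Algebra/Lie/CartanCriterion.lean`). Let `K = π.ker` and let `C` be its complement: the
Killing complement `LieIdeal.killingCompl` (or the centraliser) of `K`; `K ⊓ C = ⊥` (it is an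
abelian ideal), `K ⊔ C = ⊤` (dimension of the orthogonal of a subspace for a nondegenerate form).
`π` maps `C` bijectively onto `π.range`; `σ` is the inverse. An automorphism `a` with
`a K ⊆ K` has `a K = K` (finite dimension), preserves the Killing form, so `a C = C`; then
`a (σ q) ∈ C` and `π (a (σ q)) = q'` give `a (σ q) = σ q'`. -/
def SPL_stmt : Prop := ∀ {F L Q : Type*} [Field F] [CharZero F] [LieRing L] [LieAlgebra F L]
  [FiniteDimensional F L] [LieRing Q] [LieAlgebra F Q] [LieAlgebra.HasTrivialRadical F L]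
  (π : L →ₗ⁅F⁆ Q),
  ∃ σ : π.range →ₗ⁅F⁆ L, (∀ q, π (σ q) = q.1) ∧ ∀ a : L ≃ₗ⁅F⁆ L, (∀ x, π x = 0 → π (a x) = 0) →
    ∀ q q' : π.range, π (a (σ q)) = q'.1 → a (σ q) = σ q'

/-- Row STR (assembly of LZF, RAD, SPL, which may be taken as hypotheses).
Proof. `L₀`, `π` from LZF; `L₀` has trivial radical by RAD (`τ x = 0` implies all traces `0`). SPL
gives `σ₀ : π.range → L₀`, `π.range` = matrices of trace zero. Put
`σ Z = σ₀ (Z - (tr Z / 2) • 1)`, linear with `σ 1 = 0`, compatible with commutators. Equivariance: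
conjugation by `u g` is an automorphism `a` of `L₀` with `π (a x) = ρ g π x ρ g⁻¹`. Last clause: by
the last clause of LZF for every `Z` of trace zero there are `z = τ a` and `c` with
`(σ Z + z, Z + c • 1) ∈ L`; the commutator of two such elements is `(σ [Z, Z'], [Z, Z']) ∈ L`, and
the commutators span the matrices of trace zero (`e_01 = [h, e_01] / 2` etc.). -/
def STR_stmt : Prop := ∀ {F Γ A : Type*} [Field F] [IsAlgClosed F] [CharZero F] [Group Γ]
  [Ring A] [Algebra F A] [FiniteDimensional F A] (u : Γ →* A) {N : ℕ} {d : Fin N → ℕ}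
  (W : (i : Fin N) → Γ →* Matrix (Fin (d i)) (Fin (d i)) F)
  (θ : (i : Fin N) → A →ₐ[F] Matrix (Fin (d i)) (Fin (d i)) F),
  (∀ i, 0 < d i) → (∀ x, (∀ i, θ i x = 0) → x = 0) → (∀ i g, θ i (u g) = W i g) →
  (∀ i, SIr (W i)) → ∀ τ : A →ₗ[F] A, IsTau τ → (∀ x, τ x = 0 → ∀ i, (θ i x).trace = 0) →
  ∀ ρ : Γ →* Matrix (Fin 2) (Fin 2) F, SI ρ →
  ∀ L : Submodule F (A × Matrix (Fin 2) (Fin 2) F), IsPair u ρ L →
  ∃ σ : Matrix (Fin 2) (Fin 2) F →ₗ[F] A, IsSl σ ∧
    (∀ g Z, u g * σ Z * u g⁻¹ = σ (ρ g * Z * ρ g⁻¹)) ∧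
    ∀ Z : Matrix (Fin 2) (Fin 2) F, Z.trace = 0 → (σ Z, Z) ∈ L

/-! ## Section D: the algebra homomorphism `Φ` -/

/-- Row EIG. Proof. The generalised eigenspaces of `A` span (`A` as an endomorphism of `m → F`), so
there are `γ`, `k` and `x` with `(A - γ)^k x = 0` and `N x ≠ 0`. Then
`(A - c γ) N = c N (A - γ)`, so `(A - c γ)^k N x = c^k N (A - γ)^k x = 0`: `γ` and `c γ` have
nonzero generalised eigenvectors, so are roots of the characteristic polynomial. -/
def EIG_stmt : Prop := ∀ {F m : Type*} [Field F] [IsAlgClosed F] [Fintype m] [DecidableEq m]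
  (A N : Matrix m m F) (c : F), A * N = c • (N * A) → N ≠ 0 →
  ∃ γ, A.charpoly.IsRoot γ ∧ A.charpoly.IsRoot (c * γ)

/-- Row TRI. Proof. `A` is conjugate to `diag (α, β)` (`α ≠ β`): take the matrix units
`e = T e_01 T⁻¹`, `f = T e_10 T⁻¹`, `T` the matrix of eigenvectors. Alternatively, explicitly:
`p = (A - β) / (α - β)`, `p' = (α - A) / (α - β)` are idempotents of rank one with `p + p' = 1`,
`p p' = 0`, `A p = α p`, `A p' = β p'`; choose `e ≠ 0` in `p M p'`, `f` in `p' M p` with `e f = p`,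
`f e = p'`. -/
def TRI_stmt : Prop := ∀ {F : Type*} [Field F] (A : Matrix (Fin 2) (Fin 2) F) (α β : F),
  A.charpoly = (X - C α) * (X - C β) → α ≠ β →
  ∃ e f : Matrix (Fin 2) (Fin 2) F, e * e = 0 ∧ f * f = 0 ∧ e * f + f * e = 1 ∧
    β • (A * e) = α • (e * A) ∧ α • (A * f) = β • (f * A)

/-- Row SLT. Proof. Put `h = e f - f e`. From `h e - e h = 2 e`, `e e = 0`: `2 e f e = 2 e`, so
`e f e = e`; likewise `f e f = f`. Then `P = e f + f e` satisfies `P P = P`, `P e = e = e P`,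
`P f = f = f P`, `P h = h = h P`, `h h = P`, `h e = e = - e h`, `h f = - f = - f h`. So
`(a h + b e + c f)² = (a² + b c) P`. -/
def SLT_stmt : Prop := ∀ {F A : Type*} [Field F] [CharZero F] [Ring A] [Algebra F A]
  (e f : A), (e * f - f * e) * e - e * (e * f - f * e) = (2 : F) • e →
  (e * f - f * e) * f - f * (e * f - f * e) = (-2 : F) • f → e * e = 0 → f * f = 0 →
  (e * f + f * e) * (e * f + f * e) = e * f + f * e ∧
  (∀ x ∈ Submodule.span F {e, f, e * f - f * e}, (e * f + f * e) * x = x ∧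
    x * (e * f + f * e) = x) ∧
  ∀ a b c : F, (a • (e * f - f * e) + b • e + c • f) * (a • (e * f - f * e) + b • e + c • f) =
    (a * a + b * c) • (e * f + f * e)

/-- Row ALG. Proof. `Φ Z = (tr Z / 2) • 1 + σ Z`. For `Z`, `Z'` of trace zero:
`σ Z σ Z' = (1/2) (σ Z σ Z' - σ Z' σ Z) + (1/2) ((σ (Z + Z'))² - (σ Z)² - (σ Z')²)`, the first term is
`(1/2) σ (Z Z' - Z' Z)` and the second one is
`-(1/2) (det (Z + Z') - det Z - det Z') • 1`; the same identity holds for `Z Z'` itself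
(`Z Z = - det Z • 1`). So `Φ (Z Z') = Φ Z Φ Z'`, then for all matrices by linearity. -/
def ALG_stmt : Prop := ∀ {F A : Type*} [Field F] [CharZero F] [Ring A] [Algebra F A]
  (σ : Matrix (Fin 2) (Fin 2) F →ₗ[F] A), IsSl σ →
  (∀ Z : Matrix (Fin 2) (Fin 2) F, Z.trace = 0 → σ Z * σ Z = (-Z.det) • (1 : A)) →
  ∃ Φ : Matrix (Fin 2) (Fin 2) F →ₐ[F] A, ∀ Z : Matrix (Fin 2) (Fin 2) F, Z.trace = 0 →
    Φ Z = σ Z

/-- Row MIN. `e² = f² = 0` and the algebra homomorphism.
Proof. `e`, `f` from row TRI for `A = ρ g`; `ρ g * e * ρ g⁻¹ = (α / β) • e`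
(`α, β ≠ 0`). So `W g σ e = (α / β) σ e W g`, `W g (σ e)² = (α / β)² (σ e)² W g`. If `(σ e)² ≠ 0`, row
EIG gives a root `γ'` of the characteristic polynomial of `W g` with
`γ = (α / β)² γ'` also a root, `β² γ = α² γ'`, contradiction. So `(σ e)² = 0`, likewise `(σ f)² = 0`
(use `α² γ ≠ β² γ'` with the roles exchanged). `e`, `f`, `h = e f - f e` is a basis of the matrices
of trace zero with `[h, e] = 2 e`, `[h, f] = -2 f` (from `e f + f e = 1`), and
`det (a h + b e + c f) = -(a² + b c)` (square it). Row SLT for `σ e`, `σ f`: with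
`P = σ e σ f + σ f σ e`: `(σ Z)² = - det Z • P` for `Z` of trace zero, `P² = P`, `P σ Z = σ Z`. `P`
commutes with all `W g`: for `Z` with `det Z = -1`, `P = (σ Z)²`, so
`W g P W g⁻¹ = (σ (ρ g Z ρ g⁻¹))² = P`. `P ≠ 0` since otherwise `σ Z = P σ Z = 0`. The range of `P`
(as a subspace of `m → F`) is stable and nonzero, so everything (`Irred`), so `P = 1` (`P² = P`).
Row ALG gives `Φ`. Equivariance: for trace zero from `σ`, for scalars clear, both linear. Rows
EIG, TRI, SLT, ALG may be taken as hypotheses. -/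
def MIN_stmt : Prop := ∀ {F Γ m : Type*} [Field F] [IsAlgClosed F] [CharZero F] [Group Γ]
  [Fintype m] [DecidableEq m] (W : Γ →* Matrix m m F) (ρ : Γ →* Matrix (Fin 2) (Fin 2) F),
  Irred (fun g => W g) → ∀ σ : Matrix (Fin 2) (Fin 2) F →ₗ[F] Matrix m m F, IsSl σ →
  (∀ g Z, W g * σ Z * W g⁻¹ = σ (ρ g * Z * ρ g⁻¹)) → σ ≠ 0 →
  ∀ (g : Γ) (α β : F), (ρ g).charpoly = (X - C α) * (X - C β) → α ≠ β →
  (∀ γ γ', (W g).charpoly.IsRoot γ → (W g).charpoly.IsRoot γ' → α ^ 2 * γ ≠ β ^ 2 * γ') →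
  ∃ Φ : Matrix (Fin 2) (Fin 2) F →ₐ[F] Matrix m m F,
    (∀ Z : Matrix (Fin 2) (Fin 2) F, Z.trace = 0 → Φ Z = σ Z) ∧
    ∀ g Z, W g * Φ Z * W g⁻¹ = Φ (ρ g * Z * ρ g⁻¹)

/-! ## Section E: the multiplicity space -/

/-- Row KRN. A homomorphism from the `2 × 2` matrices is `Z ↦ Z ⊗ 1` in a suitable basis, and the
commutant is `1 ⊗` matrices.
Proof. Let `w_1, ..., w_b` be a basis of the range of `Φ e_00` (as a subspace of `Fin d → F`). The
vectors `Φ e_i0 w_k`, `(i, k) ∈ Fin 2 × Fin b`, form a basis of `Fin d → F` (independent: apply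
`Φ e_0j`; spanning: `v = Φ e_00 v + Φ e_11 v`, `Φ e_11 v = Φ e_10 (Φ e_01 v)` and
`Φ e_01 v = Φ e_00 Φ e_01 v`). `T` = the matrix with these columns, `Φ Z Φ e_i0 w_k = ∑ j, Z j i Φ e_j0 w_k`.
If `B` commutes with all `Φ Z`, `B w_k` is in the range of `Φ e_00`:
`B w_k = ∑ l, B' l k w_l`, and `B Φ e_i0 w_k = Φ e_i0 B w_k = ∑ l, B' l k Φ e_i0 w_l`. -/
def KRN_stmt : Prop := ∀ {F : Type*} [Field F] {d : ℕ}
  (Φ : Matrix (Fin 2) (Fin 2) F →ₐ[F] Matrix (Fin d) (Fin d) F),
  ∃ (b : ℕ) (T : Matrix (Fin d) (Fin 2 × Fin b) F) (T' : Matrix (Fin 2 × Fin b) (Fin d) F),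
    T * T' = 1 ∧ T' * T = 1 ∧
    (∀ Z, Φ Z * T = T * (Z ⊗ₖ (1 : Matrix (Fin b) (Fin b) F))) ∧
    ∀ B : Matrix (Fin d) (Fin d) F, (∀ Z, B * Φ Z = Φ Z * B) →
      ∃ B' : Matrix (Fin b) (Fin b) F, B * T = T * ((1 : Matrix (Fin 2) (Fin 2) F) ⊗ₖ B')

/-- Row MUL. `W ≅ ρ ⊗ M`.
Proof. `M₀ g = W g * Φ (ρ g⁻¹)` commutes with all `Φ Z`:
`W g Φ (ρ g⁻¹) Φ Z = W g Φ (ρ g⁻¹ Z)` and
`Φ Z W g Φ (ρ g⁻¹) = W g Φ (ρ g⁻¹ Z ρ g) Φ (ρ g⁻¹) = W g Φ (ρ g⁻¹ Z)`; so
`M₀ (g h) = M₀ g M₀ h`, `M₀ 1 = 1`. With `T` from row KRN: `M₀ g T = T (1 ⊗ M g)`; `M` is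
multiplicative because `B' ↦ T (1 ⊗ B')` is injective. `W g T = M₀ g Φ (ρ g) T =
M₀ g T (ρ g ⊗ 1) = T (1 ⊗ M g) (ρ g ⊗ 1) = T (ρ g ⊗ M g)`. If `0 < d` then `0 < b` (a bijection
between a space of dimension `d` and one of dimension `2 b`). Row KRN may be taken as
hypothesis. -/
def MUL_stmt : Prop := ∀ {F Γ : Type*} [Field F] [Group Γ] {d : ℕ}
  (W : Γ →* Matrix (Fin d) (Fin d) F) (ρ : Γ →* Matrix (Fin 2) (Fin 2) F)
  (Φ : Matrix (Fin 2) (Fin 2) F →ₐ[F] Matrix (Fin d) (Fin d) F),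
  (∀ g Z, W g * Φ Z * W g⁻¹ = Φ (ρ g * Z * ρ g⁻¹)) → 0 < d →
  ∃ (b : ℕ) (M : Γ →* Matrix (Fin b) (Fin b) F) (T : Matrix (Fin d) (Fin 2 × Fin b) F)
    (T' : Matrix (Fin 2 × Fin b) (Fin d) F), 0 < b ∧ T * T' = 1 ∧ T' * T = 1 ∧
    (∀ Z, Φ Z * T = T * (Z ⊗ₖ (1 : Matrix (Fin b) (Fin b) F))) ∧
    ∀ g, W g * T = T * (ρ g ⊗ₖ M g)

/-- Row COM. The coefficients of `M` are in the algebra of `V ⊕ ρ`.
Proof. `ρ g ⊗ M g = T' W g T`, multiply by `ρ g⁻¹ ⊗ 1`: `1 ⊗ M g = (ρ g⁻¹ ⊗ 1) T' W g T`, so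
`M g i j` is a sum of products of entries of `ρ g⁻¹`, `W g` and constants. -/
def COM_stmt : Prop := ∀ {F Γ m : Type*} [Field F] [Group Γ] [Fintype m] [DecidableEq m]
  (V : Γ →* Matrix m m F) (ρ : Γ →* Matrix (Fin 2) (Fin 2) F) {d b : ℕ}
  (W : Γ →* Matrix (Fin d) (Fin d) F) (M : Γ →* Matrix (Fin b) (Fin b) F)
  (T : Matrix (Fin d) (Fin 2 × Fin b) F) (T' : Matrix (Fin 2 × Fin b) (Fin d) F),
  T * T' = 1 → T' * T = 1 → (∀ g, W g * T = T * (ρ g ⊗ₖ M g)) →
  (∀ i j, (fun g => W g i j) ∈ alg V) → ∀ i j, (fun g => M g i j) ∈ alg (ds V ρ)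

/-- Row KDR. A derivation with `D W = W S`, `D ρ = ρ Z`, `S T = T (Z ⊗ 1)` kills `M`.
Proof. `D (W T) = W S T = W T (Z ⊗ 1) = T (ρ Z ⊗ M)`, and
`D (T (ρ ⊗ M)) = T (D ρ ⊗ M + ρ ⊗ D M) = T (ρ Z ⊗ M) + T (ρ ⊗ D M)`. So `T (ρ ⊗ D M) = 0`,
multiply by `T'`: `ρ ⊗ D M = 0`, multiply by `ρ⁻¹ ⊗ 1`: `1 ⊗ D M = 0`. -/
def KDR_stmt : Prop := ∀ {F R : Type*} [Field F] [CommRing R] [Algebra F R]
  (D : Derivation F R R) {d b : ℕ} (T : Matrix (Fin d) (Fin 2 × Fin b) F)
  (T' : Matrix (Fin 2 × Fin b) (Fin d) F), T' * T = 1 →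
  ∀ (W : Matrix (Fin d) (Fin d) R) (ρ : Matrix (Fin 2) (Fin 2) R) (M : Matrix (Fin b) (Fin b) R)
    (S : Matrix (Fin d) (Fin d) F) (Z : Matrix (Fin 2) (Fin 2) F),
  W * T.map (algebraMap F R) = T.map (algebraMap F R) * (ρ ⊗ₖ M) →
  S * T = T * (Z ⊗ₖ (1 : Matrix (Fin b) (Fin b) F)) →
  W.map D = W * S.map (algebraMap F R) → ρ.map D = ρ * Z.map (algebraMap F R) →
  IsUnit ρ.det → M.map D = 0

/-- Row TRC. Transcendence over constants.
Proof. Suppose `p ∈ A[X]`, `p ≠ 0`, `aeval t p = 0`, of minimal degree. The degree is positive (a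
nonzero constant has nonzero value). `0 = D (aeval t p) = (aeval t p.derivative) * D t` (the
coefficients are constants), so `aeval t p.derivative = 0` (`B` is a domain), and
`p.derivative ≠ 0` has smaller degree (characteristic `0`). Contradiction. -/
def TRC_stmt : Prop := ∀ {F B : Type*} [Field F] [CharZero F] [CommRing B] [IsDomain B]
  [Algebra F B] (A : Subalgebra F B) (D : Derivation F B B), (∀ a ∈ A, D a = 0) →
  ∀ t : B, D t ≠ 0 → Transcendental A t

/-- Row BUR. Burnside's theorem.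
Proof. `A = span (range W)` is a subalgebra of `M_m(F)` and `m → F` is a simple faithful
`A`-module over the algebraically closed field `F`; by Schur (`Pool.Agent.AR.schur`) its
endomorphisms are the scalars; by the density theorem (Mathlib: `jacobson_density`, or by hand: for
`x_1, ..., x_k` independent and arbitrary `y_1, ..., y_k` there is `a ∈ A` with `a x_i = y_i`:
induction on `k`) `A = M_m(F)`. -/
def BUR_stmt : Prop := ∀ {F Γ m : Type*} [Field F] [IsAlgClosed F] [Group Γ] [Fintype m]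
  [DecidableEq m] (W : Γ →* Matrix m m F), Irred (fun g => W g) →
  Submodule.span F (Set.range W) = ⊤

/-- Row UNI. An irreducible representation with constant trace is trivial.
Proof. `tr ((W g - 1) W h) = tr W (g h) - tr W h = 0` for all `h`; the `W h` span all matrices (row
BUR), so `W g - 1 = 0` (the trace form is nondegenerate). Row BUR may be taken as hypothesis. -/
def UNI_stmt : Prop := ∀ {F Γ m : Type*} [Field F] [IsAlgClosed F] [Group Γ] [Fintype m]
  [DecidableEq m] (W : Γ →* Matrix m m F), Irred (fun g => W g) →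
  (∀ g, (W g).trace = (Fintype.card m : F)) → ∀ g, W g = 1

/-- Row PSM. If all powers of `A` have trace `b`, all eigenvalues are `1`.
Proof. `(A ^ k).trace = ∑ over the roots of charpoly of root ^ k`
(`Matrix.trace_eq_sum_roots_charpoly` for `A ^ k`, `Matrix.charpoly_pow`-like statements, or
`Matrix.aeval_... `). Grouping equal roots: `∑_η n_η η^k = b` for `k ≥ 1`, and also for `k = 0`. The
functions `k ↦ η^k` (monoid homomorphisms `ℕ → F`) for distinct `η` are linearly independent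
(`linearIndependent_monoidHom`), so `n_η = 0` in `F` for `η ≠ 1`; characteristic `0`. -/
def PSM_stmt : Prop := ∀ {F : Type*} [Field F] [IsAlgClosed F] [CharZero F] {b : ℕ}
  (A : Matrix (Fin b) (Fin b) F), (∀ k : ℕ, (A ^ k).trace = (b : F)) →
  A.charpoly = (X - C 1) ^ b

/-- Row IRM. If `W ≅ ρ ⊗ M` is irreducible then `M` is irreducible.
Proof. For an `M`-stable subspace `Q` of `Fin b → F` the subspace of `v : Fin 2 × Fin b → F` with
all `v (i, ·) ∈ Q` is stable under `ρ g ⊗ M g`, so its image under `T` is `W`-stable: `0` or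
everything; so `Q = 0` or `Q = ⊤`. -/
def IRM_stmt : Prop := ∀ {F Γ : Type*} [Field F] [Group Γ] {d b : ℕ}
  (W : Γ →* Matrix (Fin d) (Fin d) F) (ρ : Γ →* Matrix (Fin 2) (Fin 2) F)
  (M : Γ →* Matrix (Fin b) (Fin b) F) (T : Matrix (Fin d) (Fin 2 × Fin b) F)
  (T' : Matrix (Fin 2 × Fin b) (Fin d) F), 0 < b → T * T' = 1 → T' * T = 1 →
  (∀ g, W g * T = T * (ρ g ⊗ₖ M g)) → Irred (fun g => W g) → Irred (fun g => M g)

/-- Row EMB. If `W ≅ ρ ⊗ 1` then `ρ` is a subquotient of `W`.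
Proof. `Q = {T (x ⊗ e_0)}`, the image of `x ↦ T *ᵥ (fun (i, k) => if k = 0 then x i else 0)`;
`W g` maps `T (x ⊗ e_0)` to `T (ρ g x ⊗ e_0)`; the map is injective (`T' T = 1`), its inverse on `Q`
is the surjection. -/
def EMB_stmt : Prop := ∀ {F Γ : Type*} [Field F] [Group Γ] {d b : ℕ}
  (W : Γ →* Matrix (Fin d) (Fin d) F) (ρ : Γ →* Matrix (Fin 2) (Fin 2) F)
  (T : Matrix (Fin d) (Fin 2 × Fin b) F) (T' : Matrix (Fin 2 × Fin b) (Fin d) F), 0 < b →
  T' * T = 1 → (∀ g, W g * T = T * (ρ g ⊗ₖ (1 : Matrix (Fin b) (Fin b) F))) →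
  IsSubquotient (fun g => ρ g) (fun g => W g)

/-- Row SQT. Transitivity of `IsSubquotient`, and factors are subquotients.
Proof. Given `Q₁ ⊆ W`-space with `π₁` onto `ρ` and `Q₂ ⊆ V`-space with `π₂` onto `W`, take
`Q = {x ∈ Q₂ | π₂ x ∈ Q₁}` and `π₁ ∘ π₂`. Second statement: `Q = B`. -/
def SQT_stmt : Prop := (∀ {F Γ a b c : Type*} [Field F] [Fintype a] [Fintype b] [Fintype c]
  (ρ : Γ → Matrix a a F) (W : Γ → Matrix b b F) (V : Γ → Matrix c c F),
  IsSubquotient ρ W → IsSubquotient W V → IsSubquotient ρ V) ∧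
  ∀ {F Γ m : Type*} [Field F] [Group Γ] [Fintype m] [DecidableEq m] (V : Γ →* Matrix m m F)
    (A B : Submodule F (m → F)) {d : ℕ} (W : Γ →* Matrix (Fin d) (Fin d) F)
    (π : B →ₗ[F] (Fin d → F)), (∀ g, ∀ x ∈ B, V g *ᵥ x ∈ B) → IsFactor V A B W π →
    IsSubquotient (fun g => W g) (fun g => V g)

/-- Row SUI. An irreducible subquotient of a direct sum is a subquotient of a summand.
Proof. Let `Q` with `π : Q → (d → F)` onto. For `k ≤ r` let `Q_k` be the set of `x ∈ Q` with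
`x (i, ·) = 0` for all `i ≥ k`; `Q_0 = 0`, `Q_r = Q`, stable under `dirSum V`. The image `π Q_k` is
stable, so `0` or everything; take the first `k` with `π Q_(k+1) = ⊤` (`π Q_k = 0`). The projection
`pr : Q_(k+1) → (Fin (n k) → F)`, `x ↦ x (k, ·)`, has kernel `Q_k ⊆ ker π`, so `π` factors through
`pr Q_(k+1)`, a subspace stable under `V k`. -/
def SUI_stmt : Prop := ∀ {F Γ d : Type*} [Field F] [Group Γ] [Fintype d] [DecidableEq d] {r : ℕ}
  {n : Fin r → ℕ} (V : (i : Fin r) → Γ →* Matrix (Fin (n i)) (Fin (n i)) F)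
  (W : Γ →* Matrix d d F), Irred (fun g => W g) →
  IsSubquotient (fun g => W g) (fun g => dirSum V g) →
  ∃ i, IsSubquotient (fun g => W g) (fun g => V i g)

/-- Row DSM. Direct sums of families indexed by `Fin a`.
Proof. `e` = `finSigmaFinEquiv` (or `Fintype.equivFin` of the sigma type), `V₀ g` the reindexed
block diagonal matrix. `Matrix.charpoly_reindex`, `Matrix.blockDiagonal'`: the characteristic
polynomial is the product (`Matrix.det_blockDiagonal'`); the trace is the sum; the Kronecker product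
`A ⊗ₖ V₀ g` is, after reindexing, block diagonal with blocks `A ⊗ₖ W i g`. Entries of `V₀ g` are
entries of the `W i g` or `0`. -/
def DSM_stmt : Prop := ∀ {F Γ : Type*} [Field F] [Group Γ] {N : ℕ} {d : Fin N → ℕ}
  (W : (i : Fin N) → Γ →* Matrix (Fin (d i)) (Fin (d i)) F),
  ∃ V₀ : Γ →* Matrix (Fin (∑ i, d i)) (Fin (∑ i, d i)) F,
    (∀ g, (V₀ g).charpoly = ∏ i, (W i g).charpoly) ∧
    (∀ g, (V₀ g).trace = ∑ i, (W i g).trace) ∧
    (∀ (A : Matrix (Fin 2) (Fin 2) F) g, (A ⊗ₖ V₀ g).charpoly = ∏ i, (A ⊗ₖ W i g).charpoly) ∧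
    ∀ k l, (∃ i p q, ∀ g, V₀ g k l = W i g p q) ∨ ∀ g, V₀ g k l = 0

/-! ## Section T: topology -/

/-- Row FLG. A flag with strongly irreducible factors on an open subgroup.
Proof. Among all triples `(U, N, c)` with `U ≤ U₀` open and `c 0 = ⊥ < c 1 < ... < c N = ⊤` a chain of
`U`-stable subspaces (put `c i = ⊤` for `i > N`) choose one with `N` maximal (`N ≤ card m` by
dimension; there is one with `N ≤ 1`). `irr`: let `H` be a subgroup of finite index of `U`
and `B` `H`-stable between `c i` and `c (i + 1)`, different from both. The stabiliser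
`{u ∈ U | V u B ⊆ B, V u⁻¹ B ⊆ B}` is a subgroup of `Γ` contained in `U`, closed (`B` is closed in
`m → F`, `V` is continuous, `U` is closed) and of finite index (it contains `H`, and `U` has finite
index in `Γ`), so open (see the proof of `Pool.Agent.AR.SI_of_open`, which is the same argument).
For this subgroup the chain with `B` inserted is longer, contradiction. -/
def FLG_stmt : Prop := ∀ {Γ F m : Type*} [Group Γ] [TopologicalSpace Γ] [IsTopologicalGroup Γ]
  [CompactSpace Γ] [Field F] [TopologicalSpace F] [IsTopologicalRing F] [T2Space F] [Fintype m]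
  [DecidableEq m] (V : Γ →* Matrix m m F), Continuous V →
  ∀ U₀ : Subgroup Γ, IsOpen (U₀ : Set Γ) →
  ∃ U : Subgroup Γ, U ≤ U₀ ∧ IsOpen (U : Set Γ) ∧
    ∃ (N : ℕ) (c : ℕ → Submodule F (m → F)), IsFlag (V.comp U.subtype) N c

/-- Row ZDN. On all small open subgroups `U` the algebra of `R` is a domain, and non negligible sets
are dense for it.
Proof. `alg R` is Noetherian (`finiteType_alg`). `U₀` from `exists_component` for `A = alg R`
(functions in `alg R` are continuous: `continuous_alg`, stable under left translation: `alg_lt`).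
Let `U ≤ U₀` be open. (1) A function `f' ∈ alg R` which vanishes on a subset of positive measure of
`U` vanishes on `U₀` (`y = 1`), so on `U`. (2) Domain: if `a b = 0` on `U`, `a = resF U a'`,
`b = resF U b'` (`res_surj`), `U` is the union of the zero sets of `a'` and `b'` in `U`, one of them
has positive measure (`U` open: `IsOpen.measure_pos`), so `a = 0` or `b = 0` (this is done in the
proof of `main_group`). (3) Density: `f ∈ alg (R.comp U.subtype)`, `f = resF U f'`, vanishing at all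
`u ∈ U` with `u ∈ G`. `C = {g ∈ U | f' g = 0}` is closed; if it were null there would be
`g ∈ G`, `g ∈ U`, `g ∉ C`, contradiction. So it has positive measure and `f = 0` by (1). -/
def ZDN_stmt : Prop := ∀ {Γ F m : Type*} [Group Γ] [TopologicalSpace Γ] [IsTopologicalGroup Γ]
  [CompactSpace Γ] [MeasurableSpace Γ] [BorelSpace Γ] (μ : Measure Γ) [μ.IsHaarMeasure]
  [Field F] [TopologicalSpace F] [IsTopologicalRing F] [T2Space F] [Fintype m]
  [DecidableEq m] (R : Γ →* Matrix m m F), Continuous R →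
  ∃ U₀ : Subgroup Γ, IsOpen (U₀ : Set Γ) ∧ ∀ U : Subgroup Γ, U ≤ U₀ → IsOpen (U : Set Γ) →
    NoZeroDivisors (alg (R.comp U.subtype)) ∧
    ∀ G : Set Γ, (∀ C : Set Γ, IsClosed C → μ C = 0 → ∃ g ∈ G, g ∈ U ∧ g ∉ C) →
      ZD (R.comp U.subtype) {u : U | u.1 ∈ G}

/-- Row REL. The sum of two roots satisfies a universal monic equation.
Proof. Over `R = MvPolynomial (Fin r × ℕ) E` let `A` be the companion matrix of
`X ^ n + ∑ k < n, X_(i,k) X ^ k` (an `n × n` matrix over `R` with last column `-X_(i,k)`), and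
`Φ = charpoly (A ⊗ₖ 1 + 1 ⊗ₖ A)`, monic. Under the specialisation `x_(i,k) ↦ (P i).coeff k` it
becomes the characteristic polynomial of `A' ⊗ₖ 1 + 1 ⊗ₖ A'`, `A'` the companion matrix of `P i`
(`Matrix.charpoly_map`). If `α`, `β` are roots of `(P i).map ι`, then `A'` (mapped to `F`) has left
eigenvectors `(1, α, ..., α^(n-1))` and `(1, β, ...)`, their Kronecker product is a left eigenvector
of `A' ⊗ₖ 1 + 1 ⊗ₖ A'` with eigenvalue `α + β`. -/
def REL_stmt : Prop := ∀ {E : Type*} [Field E] {r : ℕ} (i : Fin r) (n : ℕ),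
  ∃ Φ : (MvPolynomial (Fin r × ℕ) E)[X], Φ.Monic ∧ ∀ P : Fin r → E[X], (P i).Monic →
    (P i).natDegree = n → ∀ {F : Type*} [Field F] (ι : E →+* F) (α β : F),
    ((P i).map ι).IsRoot α → ((P i).map ι).IsRoot β →
    ((Φ.map (MvPolynomial.eval fun k => (P k.1).coeff k.2)).map ι).IsRoot (α + β)

end Pool.Agent.RG
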