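import Mathlib
import Pool.Agent.helper67.RG.Spec

/-!
# Project rg (MP_2e0e07_nt): concatenated flags and the structure theorem
-/

namespace Pool.Agent.RG

open Matrix Polynomial Pool.Agent.GO Pool.Agent.AR MeasureTheory Kronecker

/-- Row CAT. The flags of the summands give a flag of the direct sum, with the same factors.
Proof. Let `S i = ∑ i' < i, N i'` and
`c' k = {x | ∀ i, (fun j => x ⟨i, j⟩) ∈ c i (min (k - S i) (N i))}` (truncated subtraction). For
`k = finSigmaFinEquiv ⟨i, j⟩ = S i + j`, `j < N i`, only the level of block `i` changes from `k` to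
`k + 1`, from `j` to `j + 1`; the blocks before `i` have level `N i'` (no condition), the blocks
after `i` have level `0` (`x = 0` there). `bot`, `top`, `stable` are clear from
`(dirSum V g *ᵥ x) ⟨i, ·⟩ = V i g *ᵥ x ⟨i, ·⟩`. `lt`: put a vector of `c i (j + 1)` outside `c i j`
in block `i`. `irr`: if `B` is `H`-stable between `c' k` and `c' (k + 1)`, then
`B i = {y | the vector with block i equal to y and 0 elsewhere is in B}` is `H`-stable between
`c i j` and `c i (j + 1)`, and `x ∈ B ↔ x ⟨i, ·⟩ ∈ B i` for `x ∈ c' (k + 1)` (the difference of `x` and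
the vector with block `i` only is in `c' k`). `π' k x = π i j (x ⟨i, ·⟩)`. -/
def CAT_stmt : Prop := ∀ {F Γ : Type*} [Field F] [Group Γ] {r : ℕ} {n : Fin r → ℕ}
  (V : (i : Fin r) → Γ →* Matrix (Fin (n i)) (Fin (n i)) F) (N : Fin r → ℕ)
  (c : (i : Fin r) → ℕ → Submodule F (Fin (n i) → F)), (∀ i, IsFlag (V i) (N i) (c i)) →
  ∀ {d : (i : Fin r) → Fin (N i) → ℕ}
    (W : (i : Fin r) → (j : Fin (N i)) → Γ →* Matrix (Fin (d i j)) (Fin (d i j)) F)
    (π : (i : Fin r) → (j : Fin (N i)) → c i (j.1 + 1) →ₗ[F] (Fin (d i j) → F)),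
  (∀ i j, IsFactor (V i) (c i j.1) (c i (j.1 + 1)) (W i j) (π i j)) →
  ∃ c' : ℕ → Submodule F ((Σ i : Fin r, Fin (n i)) → F),
    IsFlag (dirSum V) (∑ i, N i) c' ∧
    ∃ π' : (k : Fin (∑ i, N i)) → c' (k.1 + 1) →ₗ[F]
        (Fin (d (finSigmaFinEquiv.symm k).1 (finSigmaFinEquiv.symm k).2) → F),
      ∀ k, IsFactor (dirSum V) (c' k.1) (c' (k.1 + 1))
        (W (finSigmaFinEquiv.symm k).1 (finSigmaFinEquiv.symm k).2) (π' k)

/-- Row FLS. Simultaneous flags on an open subgroup.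
Proof. Apply row FLG to `V 0`, then to `V 1` inside the open subgroup found, etc. (induction on the
number of representations treated; e.g. prove by induction on `s : Finset (Fin r)` that there is an
open `U ≤ U₀` with flags for all `i ∈ s`). A flag of `(V i).comp U.subtype` is a flag of
`(V i).comp U'.subtype` for every open `U' ≤ U`: `stable` is clear, `irr`: a subgroup `H` of
finite index in `U'` has, as a subgroup of `U`, finite index (`U'` is open in the compact group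
`Γ`, so has finite index). Row FLG may be taken as hypothesis. -/
def FLS_stmt : Prop := ∀ {Γ F : Type*} [Group Γ] [TopologicalSpace Γ] [IsTopologicalGroup Γ]
  [CompactSpace Γ] [Field F] [TopologicalSpace F] [IsTopologicalRing F] [T2Space F]
  {r : ℕ} {n : Fin r → ℕ} (V : (i : Fin r) → Γ →* Matrix (Fin (n i)) (Fin (n i)) F),
  (∀ i, Continuous (V i)) → ∀ U₀ : Subgroup Γ, IsOpen (U₀ : Set Γ) →
  ∃ U : Subgroup Γ, U ≤ U₀ ∧ IsOpen (U : Set Γ) ∧
    ∀ i, ∃ (N : ℕ) (c : ℕ → Submodule F (Fin (n i) → F)), IsFlag ((V i).comp U.subtype) N c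

/-- The structure theorem `STF` (assembly by helper67 from the rows of `Spec`). -/
def STF_stmt : Prop := ∀ {F Γ : Type*} [Field F] [IsAlgClosed F] [CharZero F] [Group Γ] {r : ℕ}
  {n : Fin r → ℕ} (V : (i : Fin r) → Γ →* Matrix (Fin (n i)) (Fin (n i)) F)
  (ρ : Γ →* Matrix (Fin 2) (Fin 2) F), SI ρ →
  (∀ i j, (fun g => ad0 ρ g i j) ∈ alg (dirSum V)) →
  NoZeroDivisors (alg (ds (dirSum V) ρ)) →
  (∀ i, ∃ N c, IsFlag (V i) N c) →
  ∀ (g₀ : Γ) (α β : F), (ρ g₀).charpoly = (X - C α) * (X - C β) →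
  (∀ k : ℕ, 0 < k → α ^ k ≠ β ^ k) →
  (∀ i, 2 ≤ n i → ∀ γ γ', (V i g₀).charpoly.IsRoot γ → (V i g₀).charpoly.IsRoot γ' →
    α ^ 2 * γ ≠ β ^ 2 * γ') →
  ∃ (i : Fin r) (a b : ℕ) (V₀ : Γ →* Matrix (Fin a) (Fin a) F)
    (M : Γ →* Matrix (Fin b) (Fin b) F), 2 ≤ n i ∧ 1 ≤ b ∧
    (∀ g, (V i g).charpoly = (V₀ g).charpoly * (ρ g ⊗ₖ M g).charpoly) ∧
    (∀ k l, (fun g => V₀ g k l) ∈ alg (ds (dirSum V) ρ)) ∧
    (∀ k l, (fun g => M g k l) ∈ alg (ds (dirSum V) ρ)) ∧
    (∀ p : (alg (ds (ds V₀ M) (detR ρ)))[X], p ≠ 0 →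
      ∃ g, (p.map ((evG (ds (ds V₀ M) (detR ρ)) g :
        alg (ds (ds V₀ M) (detR ρ)) →ₐ[F] F) : alg (ds (ds V₀ M) (detR ρ)) →+* F)).eval
          (ρ g).trace ≠ 0) ∧
    ((∀ g, (M g).trace = (b : F)) → IsSubquotient (fun g => ρ g) (fun g => V i g))

end Pool.Agent.RG
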