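import Mathlib
import Pool.Agent.helper67.RG.Spec2
import Pool.Agent.helper67.RG.FDefs
import Pool.Agent.helper10.RG.IND
import Pool.Agent.helper55.FLD.Spec

/-!
# Project rg (MP_2e0e07_nt): rows of the final assembly
-/

namespace Pool.Agent.RG

open Matrix Polynomial Pool.Agent.GO Pool.Agent.AR MeasureTheory Kronecker

/-- Row IDP. From an open subgroup to `Arises`.
Proof. `U` has finite index (compact group). `Pool.Agent.RG.IND` (helper10/RG/IND.lean) with `T = V i`
gives that `ρ` is a subquotient of `V i ⊗ₖ permM` on `Γ ⧸ U`. Choose a bijection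
`e : Γ ⧸ U ≃ Fin N` and let `τ g` be the permutation `x ↦ e (g • e.symm x)`; transport `Q`, `π` along
`e` (reindexing `m × (Γ ⧸ U) ≃ m × Fin N`). The kernel of `τ` contains the normal core of `U`, which is
open (an intersection of finitely many conjugates of `U`), so it is open. -/
def IDP_stmt : Prop := ∀ {Γ F : Type*} [Group Γ] [TopologicalSpace Γ] [IsTopologicalGroup Γ]
  [CompactSpace Γ] [Field F] {r : ℕ} {n : Fin r → ℕ}
  (V : (i : Fin r) → Γ →* Matrix (Fin (n i)) (Fin (n i)) F)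
  (ρ : Γ →* Matrix (Fin 2) (Fin 2) F),
  (∃ U : Subgroup Γ, IsOpen (U : Set Γ) ∧ ∃ i,
    IsSubquotient (fun u : U => ρ u) (fun u : U => V i u)) → Arises V ρ

/-- Row DSC. From `Arises` to an open subgroup.
Proof. `U = τ.ker`. On `U` the permutation matrix is `1`, so `V i ⊗ₖ 1` is (after exchanging the
indices, `(a, x) ↦ ⟨x, a⟩`) the direct sum of `N` copies of `V i`: `dirSum (fun _ : Fin N => V i)`; by
`Pool.Agent.RG.SUI.SUI` (helper82/RG/SUI.lean, an irreducible subquotient of a direct sum is a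
subquotient of a summand), for the group `U`, `ρ` on `U` is a subquotient of `V i` on `U`. -/
def DSC_stmt : Prop := ∀ {Γ F : Type*} [Group Γ] [TopologicalSpace Γ] [Field F] {r : ℕ}
  {n : Fin r → ℕ} (V : (i : Fin r) → Γ →* Matrix (Fin (n i)) (Fin (n i)) F)
  (ρ : Γ →* Matrix (Fin 2) (Fin 2) F),
  (∀ U : Subgroup Γ, IsOpen (U : Set Γ) → Irred (fun u : U => ρ u)) → Arises V ρ →
  ∃ U : Subgroup Γ, IsOpen (U : Set Γ) ∧ ∃ i,
    IsSubquotient (fun u : U => ρ u) (fun u : U => V i u)

/-- Row CNV. The converse: a relation from a subquotient.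
Proof. `T` = the exceptional sets of `compV`, `comp`. `S = {v ∈ O | v ∉ T ∧ ∃ s ∈ frob v, s ∈ U}` is
not negligible (for `C`, `T'` apply the hypothesis to `U`, `C`, `T ∪ T'`). `Φ` from row REL
(`Pool.Agent.RG.REL.REL`, helper18/RG/REL.lean) for `i` and the degree `n i`. For `v ∈ S`, `s` as
above: `(V i s).charpoly = (P i v).map ι`, so `P i v` is monic of degree `n i`; the roots `α`, `β` of
`(ρ s).charpoly = (Q v).map ι` in `F` (algebraically closed) are roots of `(V i s).charpoly`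
(`root_of_subquot`, helper6/GO/Main.lean), so `α + β = ι (-(Q v).coeff 1)` is a root of the
specialised `Φ` mapped to `F`; `ι` is injective. `Φ` is monic, so its specialisation is not zero. -/
def CNV_stmt : Prop := ∀ {Γ Place E F : Type*} [Group Γ] [TopologicalSpace Γ]
  [MeasurableSpace Γ] (μ : Measure Γ) (frob : Place → Set Γ) [Field E] [Field F]
  [IsAlgClosed F] {r : ℕ} {n : Fin r → ℕ} (P : Fin r → Place → E[X]) (Q : Place → E[X])
  (ι : E →+* F) (V : (i : Fin r) → Γ →* Matrix (Fin (n i)) (Fin (n i)) F)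
  (ρ : Γ →* Matrix (Fin 2) (Fin 2) F) (O : Set Place), NonNeglOpen μ frob O →
  (∀ i, Compatible frob ι (P i) (V i)) → Compatible frob ι Q ρ →
  (∃ U : Subgroup Γ, IsOpen (U : Set Γ) ∧ ∃ i,
    IsSubquotient (fun u : U => ρ u) (fun u : U => V i u)) →
  ∃ (S : Set Place) (Φ : (MvPolynomial (Fin r × ℕ) E)[X]), NonNegl μ frob S ∧
    IsRelation P Q S Φ

/-- Row BND. A bounded difference is an algebraic relation.
Proof. `Φ = ∏ b ∈ B, (X + C (X_(j,m)) - C (C b))`. Specialised: `∏ b, (X + C (coeff - b))`, monic, and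
at `X = -(Q v).coeff 1` the factor of `b = -(Q v).coeff 1 + (P j v).coeff m` is zero. -/
def BND_stmt : Prop := ∀ {Place E : Type*} [Field E] {r : ℕ} (P : Fin r → Place → E[X])
  (Q : Place → E[X]) (S : Set Place) (j : Fin r) (m : ℕ) (B : Set E), B.Finite →
  (∀ v ∈ S, -(Q v).coeff 1 + (P j v).coeff m ∈ B) →
  ∃ Φ : (MvPolynomial (Fin r × ℕ) E)[X], IsRelation P Q S Φ

/-- Row MET. If `ρ` is a potential subquotient of a `V i` then `meet V ρ` has infinite index.
Proof. Suppose that `meet V ρ` has finite index. `K₀ = {h | ∀ i, V i h = 1}`. For `h ∈ K₀ ⊓ U`: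
`bc j' (V i) h = 1`, so `bc j ρ h = 1` (the action on the subquotient), `ρ h = 1`. `K₀ ⊓ U` has finite
index in `K₀`; so `ρ K₀` is a finite set. For `g ∈ meet V ρ` the matrix `ρ g` is a scalar times an
element of the finite set `ρ K₀`. Hence the subgroup `H = {g | ρ g is scalar}` has finite index in
`meet V ρ` (two elements `g`, `g'` of `meet` with the same element of `ρ K₀` satisfy
`g⁻¹ g' ∈ H`), so in `Γ`. But every line of `Ω²` is stable under `H`, contradiction with
`SI (bc j ρ)`. -/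
def MET_stmt : Prop := ∀ {Γ F F' Ω : Type*} [Group Γ] [Field F] [Field F'] [Field Ω] (j : F →+* Ω)
  (j' : F' →+* Ω) {r : ℕ} {n : Fin r → ℕ}
  (V : (i : Fin r) → Γ →* Matrix (Fin (n i)) (Fin (n i)) F')
  (ρ : Γ →* Matrix (Fin 2) (Fin 2) F), SI (bc j ρ) → ∀ U : Subgroup Γ, U.FiniteIndex →
  (∃ i, IsSubquotient (fun u : U => bc j ρ u) (fun u : U => bc j' (V i) u)) →
  ¬ (meet V ρ).FiniteIndex

/-- Row FAD. From the infinite intersection of the fields to the coefficients of `ad0`.
Proof. `Pool.Agent.FLD.ALL : FIN_stmt` (helper55/FLD/All.lean) with `n = Σ i, Fin (n i)` and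
`V = dirSum V` over `ℚ_p`. In the second alternative there is an open `U ≤ meet V ρ` (`dirSum V h = 1`
implies `V i h = 1`), so `meet V ρ` has finite index (compact group), contradiction. In the first
alternative `((algebraMap ℚ_p → Ω)).mapMatrix ∘ dirSum V` is `dirSum (fun i => bc _ (V i))`
(`Matrix.blockDiagonal'_map`). -/
def FAD_stmt : Prop := ∀ (p : ℕ) [Fact p.Prime] (Γ : Type) [Group Γ] [TopologicalSpace Γ]
  [IsTopologicalGroup Γ] [CompactSpace Γ] (F Ω : Type) [NormedField F] [NormedAlgebra ℚ_[p] F]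
  [FiniteDimensional ℚ_[p] F] [Field Ω] [IsAlgClosed Ω] [Algebra F Ω] {r : ℕ} {n : Fin r → ℕ}
  (V : (i : Fin r) → Γ →* Matrix (Fin (n i)) (Fin (n i)) ℚ_[p])
  (ρ : Γ →* Matrix (Fin 2) (Fin 2) F), (∀ i, Continuous (V i)) → Continuous ρ →
  SI (bc (algebraMap F Ω) ρ) → ¬ (meet V ρ).FiniteIndex →
  ∃ U : Subgroup Γ, IsOpen (U : Set Γ) ∧
    ∀ i j, (fun u : U => ad0 ((bc (algebraMap F Ω) ρ).comp U.subtype) u i j) ∈
      alg ((dirSum fun i => bc ((algebraMap F Ω).comp (algebraMap ℚ_[p] F)) (V i)).comp U.subtype)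

end Pool.Agent.RG
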