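import Mathlib
import Pool.Agent.helper67.RG.Spec3
import Pool.Agent.helper28.RG.CNV
import Pool.Agent.helper96.RG.DSC
import Pool.Agent.helper44.RG.FAD
import Pool.Agent.helper37.RG.IDP
import Pool.Agent.helper5.RG.MET

/-!
# Project rg: the rows of the final assembly
-/

namespace Pool.Agent.RG.Row3

open Pool.Agent.RG

theorem IDP : IDP_stmt := _root_.Pool.Agent.RG.IDP.IDP
theorem DSC : DSC_stmt := _root_.Pool.Agent.RG.DSC.DSC
theorem CNV : CNV_stmt := _root_.Pool.Agent.RG.CNV.CNV
theorem MET : MET_stmt := _root_.Pool.Agent.RG.MET.MET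
theorem FAD : FAD_stmt := _root_.Pool.Agent.RG.FAD.FAD

end Pool.Agent.RG.Row3
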