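import Mathlib
import Pool.Agent.helper67.RG.Spec2
import Pool.Agent.helper49.RG.LIE
import Pool.Agent.helper76.RG.CNJ
import Pool.Agent.helper55.RG.STB
import Pool.Agent.helper34.RG.KER
import Pool.Agent.helper84.RG.GRD
import Pool.Agent.helper40.RG.LFD
import Pool.Agent.helper9.RG.DWG
import Pool.Agent.helper94.RG.WEX
import Pool.Agent.helper79.RG.NSC
import Pool.Agent.helper24.RG.PKV
import Pool.Agent.helper52.RG.FIL
import Pool.Agent.helper41.RG.NIL
import Pool.Agent.helper78.RG.QUO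
import Pool.Agent.helper61.RG.SIW
import Pool.Agent.helper6.RG.CHF
import Pool.Agent.helper75.RG.IPF
import Pool.Agent.helper89.RG.DWI
import Pool.Agent.helper16.RG.LZF
import Pool.Agent.helper15.RG.RAD
import Pool.Agent.helper91.RG.SPL
import Pool.Agent.helper43.RG.STR
import Pool.Agent.helper35.RG.EIG
import Pool.Agent.helper15.RG.TRI
import Pool.Agent.helper99.RG.SLT
import Pool.Agent.helper70.RG.ALG
import Pool.Agent.helper94.RG.MIN
import Pool.Agent.helper29.RG.KRN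
import Pool.Agent.helper4.RG.MUL
import Pool.Agent.helper21.RG.COM
import Pool.Agent.helper96.RG.KDR
import Pool.Agent.helper92.RG.TRC
import Pool.Agent.helper37.RG.BUR
import Pool.Agent.helper44.RG.UNI
import Pool.Agent.helper99.RG.PSM
import Pool.Agent.helper32.RG.IRM
import Pool.Agent.helper85.RG.EMB
import Pool.Agent.helper20.RG.SQT
import Pool.Agent.helper22.RG.DSM
import Pool.Agent.helper48.RG.FLG
import Pool.Agent.helper45.RG.ZDN
import Pool.Agent.helper18.RG.REL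
import Pool.Agent.helper40.RG.CAT
import Pool.Agent.helper51.RG.FLS

/-!
# Project rg: the rows used in the assembly
-/

namespace Pool.Agent.RG.Row

open Pool.Agent.RG

universe u v w x

theorem QUO : QUO_stmt := _root_.Pool.Agent.RG.QUO.QUO
theorem SIW : SIW_stmt := _root_.Pool.Agent.RG.SIW.SIW
theorem CHF : CHF_stmt := _root_.Pool.Agent.RG.CHF.CHF
theorem DWI : DWI_stmt := _root_.Pool.Agent.RG.DWI.DWI
theorem KDR : KDR_stmt := _root_.Pool.Agent.RG.KDR.KDR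
theorem TRC : TRC_stmt := _root_.Pool.Agent.RG.TRC.TRC
theorem PSM : PSM_stmt := _root_.Pool.Agent.RG.PSM.PSM
theorem IRM : IRM_stmt := _root_.Pool.Agent.RG.IRM.IRM
theorem EMB : EMB_stmt := _root_.Pool.Agent.RG.EMB.EMB
theorem SQT : SQT_stmt := _root_.Pool.Agent.RG.SQT.SQT
theorem DSM : DSM_stmt := _root_.Pool.Agent.RG.DSM.DSM
theorem COM : COM_stmt := _root_.Pool.Agent.RG.COM.COM
theorem CAT : CAT_stmt := _root_.Pool.Agent.RG.CAT.CAT
theorem REL : REL_stmt := _root_.Pool.Agent.RG.REL.REL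
theorem ZDN : ZDN_stmt := _root_.Pool.Agent.RG.ZDN.ZDN
theorem NSC : NSC_stmt.{u, v, w} := _root_.Pool.Agent.RG.NSC.NSC (_root_.Pool.Agent.RG.DWG.DWG _root_.Pool.Agent.RG.GRD.GRD _root_.Pool.Agent.RG.LFD.LFD) _root_.Pool.Agent.RG.WEX.WEX
theorem PKV : PKV_stmt.{u, v, w} := _root_.Pool.Agent.RG.PKV.PKV _root_.Pool.Agent.RG.LIE.LIE _root_.Pool.Agent.RG.CNJ.CNJ _root_.Pool.Agent.RG.STB.STB _root_.Pool.Agent.RG.KER.KER NSC
theorem IPF : IPF_stmt.{u, v, w} := _root_.Pool.Agent.RG.IPF.IPF (_root_.Pool.Agent.RG.NIL.NIL _root_.Pool.Agent.RG.FIL.FIL)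
theorem STR : STR_stmt.{u, v, w} := _root_.Pool.Agent.RG.STR.STR (_root_.Pool.Agent.RG.LZF.LZF _root_.Pool.Agent.RG.FIL.FIL) _root_.Pool.Agent.RG.RAD.RAD _root_.Pool.Agent.RG.SPL.SPL
theorem MIN : MIN_stmt.{u, v, w} := _root_.Pool.Agent.RG.MIN.MIN _root_.Pool.Agent.RG.EIG.EIG _root_.Pool.Agent.RG.TRI.TRI _root_.Pool.Agent.RG.SLT.SLT _root_.Pool.Agent.RG.ALG.ALG
theorem MUL : MUL_stmt.{u, v} := _root_.Pool.Agent.RG.MUL.MUL _root_.Pool.Agent.RG.KRN.KRN
theorem UNI : UNI_stmt.{u, v, w} := _root_.Pool.Agent.RG.UNI.UNI _root_.Pool.Agent.RG.BUR.BUR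
theorem FLS : FLS_stmt.{u, v} := _root_.Pool.Agent.RG.FLS.FLS _root_.Pool.Agent.RG.FLG.FLG

end Pool.Agent.RG.Row
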