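import Mathlib
import Pool.Agent.helper67.RG.Rows

/-!
# Assembly 1: one composition factor
-/

namespace Pool.Agent.RG

open Matrix Polynomial Pool.Agent.GO Pool.Agent.AR Kronecker

section charp

/-- similar matrices with different index types have the same characteristic polynomial -/
theorem charpoly_conj {F m n : Type*} [Field F] [Fintype m] [DecidableEq m] [Fintype n]
    [DecidableEq n] (T : Matrix m n F) (T' : Matrix n m F) (h1 : T * T' = 1) (h2 : T' * T = 1)
    (A : Matrix n n F) : (T * A * T').charpoly = A.charpoly := by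
  have e1 : T.map (C : F →+* F[X]) * T'.map (C : F →+* F[X]) = 1 := by
    rw [← Matrix.map_mul, h1]
    simp
  have e2 : T'.map (C : F →+* F[X]) * T.map (C : F →+* F[X]) = 1 := by
    rw [← Matrix.map_mul, h2]
    simp
  have e3 : (T * A * T').charmatrix = T.map (C : F →+* F[X]) * A.charmatrix *
      T'.map (C : F →+* F[X]) := by
    unfold Matrix.charmatrix
    rw [Matrix.mul_sub, Matrix.sub_mul]
    have e4 : T.map (C : F →+* F[X]) * Matrix.scalar n (X : F[X]) * T'.map (C : F →+* F[X]) =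
        Matrix.scalar m (X : F[X]) := by
      have e5 : T.map (C : F →+* F[X]) * Matrix.scalar n (X : F[X]) =
          (X : F[X]) • T.map (C : F →+* F[X]) := by
        ext i j
        rw [Matrix.scalar_apply, Matrix.mul_diagonal, Matrix.smul_apply, smul_eq_mul, mul_comm]
      rw [e5, Matrix.smul_mul, e1]
      ext i j
      simp [Matrix.scalar_apply, Matrix.diagonal_apply, Matrix.one_apply]
    rw [e4]
    congr 1
    simp only [RingHom.mapMatrix_apply, Matrix.map_mul]
  unfold Matrix.charpoly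
  rw [e3]
  exact Matrix.det_conj_of_mul_eq_one e1 e2

theorem charpoly_empty {F m : Type*} [Field F] [Fintype m] [DecidableEq m] [IsEmpty m]
    (A : Matrix m m F) : A.charpoly = 1 := by
  unfold Matrix.charpoly
  exact Matrix.det_isEmpty

end charp

section one

variable {F Γ : Type*} [Field F] [Group Γ]

/-- the trivial statement for `1 × 1` and `0 × 0` matrices: `σ = 0` -/
theorem sl_zero_of_small [CharZero F] {d : ℕ} (hd : d < 2)
    (σ : Matrix (Fin 2) (Fin 2) F →ₗ[F] Matrix (Fin d) (Fin d) F) (hσ : IsSl σ) : σ = 0 := by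
  have hcomm : ∀ A B : Matrix (Fin d) (Fin d) F, A * B = B * A := by
    intro A B
    ext i j
    rw [Matrix.mul_apply, Matrix.mul_apply]
    have hs : ∀ a b : Fin d, a = b := by
      intro a b
      apply Fin.ext
      have := a.2
      have := b.2
      omega
    apply Finset.sum_congr rfl
    intro k _
    rw [hs k i, hs j i, mul_comm]
  have h0 : ∀ Z Z' : Matrix (Fin 2) (Fin 2) F, σ (Z * Z' - Z' * Z) = 0 := by
    intro Z Z'
    rw [hσ.lie, hcomm (σ Z), sub_self]
  have h2 : (2 : F) ≠ 0 := two_ne_zero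
  apply LinearMap.ext
  intro Z
  have e1 : Z = (Z.trace / 2) • (1 : Matrix (Fin 2) (Fin 2) F) +
      ((!![((Z 0 0 - Z 1 1) / 2), 0; 0, 0] : Matrix (Fin 2) (Fin 2) F) * 0 +
      (!![0, 1; 0, 0] * !![0, 0; ((Z 0 0 - Z 1 1) / 2), 0] -
        !![0, 0; ((Z 0 0 - Z 1 1) / 2), 0] * !![0, 1; 0, 0]) +
      (!![1, 0; 0, 0] * !![0, Z 0 1; 0, 0] - !![0, Z 0 1; 0, 0] * !![1, 0; 0, 0]) +
      (!![0, 0; 0, 1] * !![0, 0; Z 1 0, 0] - !![0, 0; Z 1 0, 0] * !![0, 0; 0, 1])) := by
    rw [Matrix.trace_fin_two]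
    ext i j
    fin_cases i <;> fin_cases j <;>
      simp [Matrix.mul_apply, Fin.sum_univ_two] <;> field_simp <;> ring
  rw [e1, map_add, map_smul, hσ.one, smul_zero, zero_add, mul_zero, zero_add, map_add, map_add,
    h0, h0, h0]
  simp

theorem perFactor [IsAlgClosed F] [CharZero F] {m : Type*} [Fintype m] [DecidableEq m]
    (Vd : Γ →* Matrix m m F) (ρ : Γ →* Matrix (Fin 2) (Fin 2) F) {d : ℕ} (hd : 0 < d)
    (W : Γ →* Matrix (Fin d) (Fin d) F) (hirr : Irred (fun g => W g))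
    (hcoef : ∀ i j, (fun g => W g i j) ∈ alg Vd)
    (σ : Matrix (Fin 2) (Fin 2) F →ₗ[F] Matrix (Fin d) (Fin d) F) (hσ : IsSl σ)
    (heq : ∀ g Z, W g * σ Z * W g⁻¹ = σ (ρ g * Z * ρ g⁻¹))
    (D : Matrix (Fin 2) (Fin 2) F → Derivation F (alg (ds Vd ρ)) (alg (ds Vd ρ)))
    (hDρ : ∀ Z, Z.trace = 0 → ∀ i j h,
      (D Z (gen (ds Vd ρ) (Sum.inr i) (Sum.inr j))).1 h = (ρ h * Z) i j)
    (hDW : ∀ Z, Z.trace = 0 → ∀ i j (hm : (fun g => W g i j) ∈ alg (ds Vd ρ)) h,
      (D Z ⟨fun g => W g i j, hm⟩).1 h = (W h * σ Z) i j)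
    (g₀ : Γ) (α β : F) (hcp : (ρ g₀).charpoly = (X - C α) * (X - C β)) (hne : α ≠ β)
    (hroots : σ ≠ 0 → ∀ γ γ', (W g₀).charpoly.IsRoot γ → (W g₀).charpoly.IsRoot γ' →
      α ^ 2 * γ ≠ β ^ 2 * γ') :
    ∃ (a b : ℕ) (V₀ : Γ →* Matrix (Fin a) (Fin a) F) (M : Γ →* Matrix (Fin b) (Fin b) F),
      (∀ g, (W g).charpoly = (V₀ g).charpoly * (ρ g ⊗ₖ M g).charpoly) ∧
      (∀ k l, (fun g => V₀ g k l) ∈ alg (ds Vd ρ)) ∧
      (∀ k l, (fun g => M g k l) ∈ alg (ds Vd ρ)) ∧
      (∀ Z, Z.trace = 0 → ∀ k l (hm : (fun g => V₀ g k l) ∈ alg (ds Vd ρ)),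
        D Z ⟨fun g => V₀ g k l, hm⟩ = 0) ∧
      (∀ Z, Z.trace = 0 → ∀ k l (hm : (fun g => M g k l) ∈ alg (ds Vd ρ)),
        D Z ⟨fun g => M g k l, hm⟩ = 0) ∧
      (σ ≠ 0 → 0 < b ∧ ((∀ g, (M g).trace = (b : F)) ∧ (∀ g, (M g).charpoly = (X - C 1) ^ b) →
        IsSubquotient (fun g => ρ g) (fun g => W g))) := by
  classical
  by_cases hσ0 : σ = 0
  · refine ⟨d, 0, W, 1, ?_, ?_, ?_, ?_, ?_, ?_⟩
    · intro g
      have : IsEmpty (Fin 2 × Fin 0) := inferInstance
      rw [charpoly_empty (ρ g ⊗ₖ _), mul_one]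
    · intro k l
      exact alg_le_ds Vd ρ (hcoef k l)
    · intro k
      exact k.elim0
    · intro Z hZ k l hm
      apply Subtype.ext
      funext h
      rw [hDW Z hZ k l hm h, hσ0]
      simp
    · intro Z hZ k
      exact k.elim0
    · intro h
      exact absurd hσ0 h
  · obtain ⟨Φ, hΦσ, hΦ⟩ := Row.MIN W ρ hirr σ hσ heq hσ0 g₀ α β hcp hne (hroots hσ0)
    obtain ⟨b, M, T, T', hb, hTT', hT'T, hΦT, hWT⟩ := Row.MUL W ρ Φ hΦ hd
    have hMc := Row.COM Vd ρ W M T T' hTT' hT'T hWT hcoef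
    have hconj : ∀ g, W g = T * (ρ g ⊗ₖ M g) * T' := by
      intro g
      rw [← hWT, Matrix.mul_assoc, hTT', Matrix.mul_one]
    have hDM : ∀ Z, Z.trace = 0 → ∀ k l (hm : (fun g => M g k l) ∈ alg (ds Vd ρ)),
        D Z ⟨fun g => M g k l, hm⟩ = 0 := by
      intro Z hZ k l hm
      have hWin : ∀ i j, (fun g => W g i j) ∈ alg (ds Vd ρ) := fun i j =>
        alg_le_ds Vd ρ (hcoef i j)
      let Wh : Matrix (Fin d) (Fin d) (alg (ds Vd ρ)) :=
        Matrix.of fun i j => ⟨fun g => W g i j, hWin i j⟩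
      let rh : Matrix (Fin 2) (Fin 2) (alg (ds Vd ρ)) :=
        Matrix.of fun i j => gen (ds Vd ρ) (Sum.inr i) (Sum.inr j)
      let Mh : Matrix (Fin b) (Fin b) (alg (ds Vd ρ)) :=
        Matrix.of fun i j => ⟨fun g => M g i j, hMc i j⟩
      have hK := Row.KDR (D Z) T T' hT'T Wh rh Mh (σ Z) Z ?_ ?_ ?_ ?_ ?_
      · have h1 := congrFun (congrFun hK k) l
        exact h1
      · ext i p g
        rw [Matrix.mul_apply, Matrix.mul_apply, sum_alg_apply, sum_alg_apply]
        have h1 := congrFun (congrFun (hWT g) i) p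
        rw [Matrix.mul_apply, Matrix.mul_apply] at h1
        exact h1
      · rw [← hΦσ Z hZ]
        exact hΦT Z
      · ext i j g
        rw [Matrix.mul_apply, sum_alg_apply]
        have h1 := hDW Z hZ i j (hWin i j) g
        rw [Matrix.mul_apply] at h1
        exact h1
      · ext i j g
        rw [Matrix.mul_apply, sum_alg_apply]
        have h1 := hDρ Z hZ i j g
        rw [Matrix.mul_apply] at h1
        exact h1
      · have hinv : rh * (Matrix.of fun i j => genInv (ds Vd ρ) (Sum.inr i) (Sum.inr j)) = 1 := by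
          ext i j g
          rw [Matrix.mul_apply, sum_alg_apply]
          have h1 : ρ g * ρ g⁻¹ = 1 := by rw [← map_mul, mul_inv_cancel, map_one]
          have h2 := congrFun (congrFun h1 i) j
          rw [Matrix.mul_apply] at h2
          have h3 : ((1 : Matrix (Fin 2) (Fin 2) (alg (ds Vd ρ))) i j).1 g =
              (1 : Matrix (Fin 2) (Fin 2) F) i j := by
            by_cases hij : i = j
            · subst hij; simp
            · simp [Matrix.one_apply_ne hij]
          rw [h3, ← h2]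
          rfl
        exact isUnit_det_of_right_inverse hinv
    refine ⟨0, b, 1, M, ?_, ?_, hMc, ?_, hDM, ?_⟩
    · intro g
      have h1 : ((1 : Γ →* Matrix (Fin 0) (Fin 0) F) g).charpoly = 1 :=
        charpoly_empty _
      rw [h1, one_mul, hconj g]
      exact charpoly_conj T T' hTT' hT'T _
    · intro k
      exact k.elim0
    · intro Z hZ k
      exact k.elim0
    · intro _
      refine ⟨hb, ?_⟩
      rintro ⟨htr, hcpM⟩
      have hMirr := Row.IRM W ρ M T T' hb hTT' hT'T hWT hirr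
      have hM1 := Row.UNI M hMirr (by
        intro g
        rw [htr g, Fintype.card_fin])
      refine Row.EMB W ρ T T' hb hT'T ?_
      intro g
      rw [hWT g, hM1 g]

end one

end Pool.Agent.RG
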