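import Mathlib
import Pool.Agent.helper67.RG.Asm1

/-!
# Assembly 2: the structure theorem
-/

namespace Pool.Agent.RG

open Matrix Polynomial Pool.Agent.GO Pool.Agent.AR Kronecker

section aux

variable {F Γ : Type*} [Field F] [Group Γ]

/-- the algebra of a summand -/
theorem alg_summand_le {r : ℕ} {n : Fin r → ℕ}
    (V : (i : Fin r) → Γ →* Matrix (Fin (n i)) (Fin (n i)) F) (i : Fin r) :
    alg (V i) ≤ alg (dirSum V) := by
  apply alg_le
  · intro a b
    have h1 := coef_mem (dirSum V) ⟨i, a⟩ ⟨i, b⟩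
    have h2 : (fun g => V i g a b) = fun g => dirSum V g ⟨i, a⟩ ⟨i, b⟩ := by
      ext g
      show _ = Matrix.blockDiagonal' (fun i => V i g) ⟨i, a⟩ ⟨i, b⟩
      rw [Matrix.blockDiagonal'_apply_eq]
    rw [h2]
    exact h1
  · intro a b
    have h1 := coefInv_mem (dirSum V) ⟨i, a⟩ ⟨i, b⟩
    have h2 : (fun g => V i g⁻¹ a b) = fun g => dirSum V g⁻¹ ⟨i, a⟩ ⟨i, b⟩ := by
      ext g
      show _ = Matrix.blockDiagonal' (fun i => V i g⁻¹) ⟨i, a⟩ ⟨i, b⟩
      rw [Matrix.blockDiagonal'_apply_eq]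
    rw [h2]
    exact h1

/-- constants of a derivation contain the algebra of a representation with constant
coefficients -/
theorem alg_const {m κ : Type*} [Fintype m] [DecidableEq m] [Fintype κ] [DecidableEq κ]
    (R : Γ →* Matrix m m F) (D : Derivation F (alg R) (alg R)) (T : Γ →* Matrix κ κ F)
    (hT : ∀ k l, (fun g => T g k l) ∈ alg R)
    (hD : ∀ k l (hm : (fun g => T g k l) ∈ alg R), D ⟨fun g => T g k l, hm⟩ = 0) :
    ∀ f ∈ alg T, ∃ hm : f ∈ alg R, D ⟨f, hm⟩ = 0 := by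
  classical
  -- the inverse coefficients
  have hTi : ∀ k l, (fun g => T g⁻¹ k l) ∈ alg R := fun k l => alg_iv R (hT k l)
  let Th : Matrix κ κ (alg R) := Matrix.of fun i j => ⟨fun g => T g i j, hT i j⟩
  let Ti : Matrix κ κ (alg R) := Matrix.of fun i j => ⟨fun g => T g⁻¹ i j, hTi i j⟩
  have h1 : Th * Ti = 1 := by
    ext i j g
    rw [Matrix.mul_apply, sum_alg_apply]
    have h1 : T g * T g⁻¹ = 1 := by rw [← map_mul, mul_inv_cancel, map_one]
    have h2 := congrFun (congrFun h1 i) j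
    rw [Matrix.mul_apply] at h2
    have h3 : ((1 : Matrix κ κ (alg R)) i j).1 g = (1 : Matrix κ κ F) i j := by
      by_cases hij : i = j
      · subst hij; simp
      · simp [Matrix.one_apply_ne hij]
    rw [h3, ← h2]
    rfl
  have h1' : Ti * Th = 1 := by
    exact mul_eq_one_comm.mp h1
  have hDTi : ∀ k l, D (Ti k l) = 0 := by
    have h2 : Th * Ti.map D = 0 := by
      ext1 i j
      rw [Matrix.mul_apply]
      have h3 : D ((Th * Ti) i j) = 0 := by
        rw [h1]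
        by_cases hij : i = j
        · subst hij
          rw [Matrix.one_apply_eq]
          exact D.map_one_eq_zero
        · rw [Matrix.one_apply_ne hij, map_zero]
      rw [Matrix.mul_apply, map_sum] at h3
      rw [Matrix.zero_apply, ← h3]
      apply Finset.sum_congr rfl
      intro k _
      have hDTh : D (Th i k) = 0 := hD i k (hT i k)
      rw [Derivation.leibniz, hDTh, smul_zero, add_zero, smul_eq_mul]
      rfl
    have h4 : Ti.map D = 0 := by
      calc Ti.map D = (Ti * Th) * Ti.map D := by rw [h1', Matrix.one_mul]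
        _ = 0 := by rw [Matrix.mul_assoc, h2, Matrix.mul_zero]
    intro k l
    exact congrFun (congrFun h4 k) l
  intro f hf
  unfold alg at hf
  induction hf using Algebra.adjoin_induction with
  | mem x hx =>
    rcases hx with ⟨p, rfl⟩ | ⟨p, rfl⟩
    · exact ⟨hT p.1 p.2, hD p.1 p.2 _⟩
    · exact ⟨hTi p.1 p.2, hDTi p.1 p.2⟩
  | algebraMap c =>
    refine ⟨Subalgebra.algebraMap_mem _ c, ?_⟩
    exact D.map_algebraMap c
  | add x y _ _ hx hy =>
    obtain ⟨hx, hx'⟩ := hx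
    obtain ⟨hy, hy'⟩ := hy
    refine ⟨Subalgebra.add_mem _ hx hy, ?_⟩
    have h2 : (⟨x + y, Subalgebra.add_mem _ hx hy⟩ : alg R) = ⟨x, hx⟩ + ⟨y, hy⟩ := rfl
    rw [h2, map_add, hx', hy', add_zero]
  | mul x y _ _ hx hy =>
    obtain ⟨hx, hx'⟩ := hx
    obtain ⟨hy, hy'⟩ := hy
    refine ⟨Subalgebra.mul_mem _ hx hy, ?_⟩
    have h2 : (⟨x * y, Subalgebra.mul_mem _ hx hy⟩ : alg R) = ⟨x, hx⟩ * ⟨y, hy⟩ := rfl
    rw [h2, Derivation.leibniz, hx', hy', smul_zero, smul_zero, add_zero]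

/-- a matrix `ρ g` which is not scalar and a matrix `Z` of trace zero with `tr (ρ g Z) ≠ 0` -/
theorem exists_trace_ne [CharZero F] (ρ : Γ →* Matrix (Fin 2) (Fin 2) F)
    (hirr : Irred (fun g => ρ g)) :
    ∃ (Z : Matrix (Fin 2) (Fin 2) F) (g : Γ), Z.trace = 0 ∧ (ρ g * Z).trace ≠ 0 := by
  by_contra hcon
  push Not at hcon
  have h0 : ∀ g, ρ g 0 1 = 0 := by
    intro g
    have h1 := hcon !![0, 0; 1, 0] g (by simp [Matrix.trace_fin_two])
    simpa [Matrix.trace_fin_two, Matrix.mul_apply, Fin.sum_univ_two] using h1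
  let U : Submodule F (Fin 2 → F) := Submodule.span F {![0, 1]}
  have hU : ∀ g, ∀ u ∈ U, ρ g *ᵥ u ∈ U := by
    intro g u hu
    obtain ⟨c, rfl⟩ := Submodule.mem_span_singleton.mp hu
    rw [Matrix.mulVec_smul]
    apply Submodule.smul_mem
    rw [Submodule.mem_span_singleton]
    refine ⟨ρ g 1 1, ?_⟩
    ext i
    fin_cases i
    · simp [Matrix.mulVec, dotProduct, Fin.sum_univ_two, h0 g]
    · simp [Matrix.mulVec, dotProduct, Fin.sum_univ_two]
  rcases hirr.2 U hU with h | h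
  · have h1 : (![0, 1] : Fin 2 → F) ∈ U := Submodule.mem_span_singleton_self _
    rw [h, Submodule.mem_bot] at h1
    have := congrFun h1 1
    simp at this
  · have h1 : (![1, 0] : Fin 2 → F) ∈ U := by rw [h]; trivial
    obtain ⟨c, hc⟩ := Submodule.mem_span_singleton.mp h1
    have := congrFun hc 0
    simp at this

/-- if all eigenvalues are `1` the trace is the dimension -/
theorem trace_of_charpoly [IsAlgClosed F] {b : ℕ} (A : Matrix (Fin b) (Fin b) F)
    (h : ∀ x, A.charpoly.IsRoot x → x = 1) : A.charpoly = (X - C 1) ^ b ∧ A.trace = (b : F) := by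
  have hs : A.charpoly.Splits := IsAlgClosed.splits _
  have hm : A.charpoly.Monic := A.charpoly_monic
  have hroots : A.charpoly.roots = Multiset.replicate b 1 := by
    rw [Multiset.eq_replicate]
    refine ⟨?_, ?_⟩
    · rw [← hs.natDegree_eq_card_roots, Matrix.charpoly_natDegree_eq_dim, Fintype.card_fin]
    · intro x hx
      exact h x (isRoot_of_mem_roots hx)
  constructor
  · have h1 := hs.eq_prod_roots_of_monic hm
    rw [h1, hroots]
    simp
  · rw [Matrix.trace_eq_sum_roots_charpoly, hroots]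
    simp

end aux

/-- what is needed from one composition factor `W` of `V i` -/
def Q {F Γ : Type*} [Field F] [Group Γ] {m : Type*} [Fintype m] [DecidableEq m]
    (Vd : Γ →* Matrix m m F) (ρ : Γ →* Matrix (Fin 2) (Fin 2) F)
    (D : Matrix (Fin 2) (Fin 2) F → Derivation F (alg (ds Vd ρ)) (alg (ds Vd ρ))) {d : ℕ}
    (W : Γ →* Matrix (Fin d) (Fin d) F) (flag : Prop) : Prop :=
  ∃ (a b : ℕ) (V₀ : Γ →* Matrix (Fin a) (Fin a) F) (M : Γ →* Matrix (Fin b) (Fin b) F),
    (∀ g, (W g).charpoly = (V₀ g).charpoly * (ρ g ⊗ₖ M g).charpoly) ∧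
    (∀ k l, (fun g => V₀ g k l) ∈ alg (ds Vd ρ)) ∧
    (∀ k l, (fun g => M g k l) ∈ alg (ds Vd ρ)) ∧
    (∀ Z, Z.trace = 0 → ∀ k l (hm : (fun g => V₀ g k l) ∈ alg (ds Vd ρ)),
      D Z ⟨fun g => V₀ g k l, hm⟩ = 0) ∧
    (∀ Z, Z.trace = 0 → ∀ k l (hm : (fun g => M g k l) ∈ alg (ds Vd ρ)),
      D Z ⟨fun g => M g k l, hm⟩ = 0) ∧
    (flag → 0 < b ∧ ((∀ g, (M g).trace = (b : F)) ∧ (∀ g, (M g).charpoly = (X - C 1) ^ b) →
      IsSubquotient (fun g => ρ g) (fun g => W g)))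

theorem Q.mono {F Γ : Type*} [Field F] [Group Γ] {m : Type*} [Fintype m] [DecidableEq m]
    {Vd : Γ →* Matrix m m F} {ρ : Γ →* Matrix (Fin 2) (Fin 2) F}
    {D : Matrix (Fin 2) (Fin 2) F → Derivation F (alg (ds Vd ρ)) (alg (ds Vd ρ))} {d : ℕ}
    {W : Γ →* Matrix (Fin d) (Fin d) F} {f f' : Prop} (h : Q Vd ρ D W f) (hf : f' → f) :
    Q Vd ρ D W f' := by
  obtain ⟨a, b, V₀, M, h1, h2, h3, h4, h5, h6⟩ := h
  exact ⟨a, b, V₀, M, h1, h2, h3, h4, h5, fun h => h6 (hf h)⟩

end Pool.Agent.RG
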