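import Mathlib
import Pool.Agent.helper67.RG.Asm2

/-!
# Assembly 3: the structure theorem
-/

namespace Pool.Agent.RG

open Matrix Polynomial Pool.Agent.GO Pool.Agent.AR Kronecker

set_option maxHeartbeats 4000000 in
/-- all composition factors -/
theorem allFactors {F Γ : Type*} [Field F] [IsAlgClosed F] [CharZero F] [Group Γ] {r : ℕ}
    {n : Fin r → ℕ} (V : (i : Fin r) → Γ →* Matrix (Fin (n i)) (Fin (n i)) F)
    (ρ : Γ →* Matrix (Fin 2) (Fin 2) F) (hSI : SI ρ)
    (had : ∀ i j, (fun g => ad0 ρ g i j) ∈ alg (dirSum V))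
    (N : Fin r → ℕ) (c : (i : Fin r) → ℕ → Submodule F (Fin (n i) → F))
    (hc : ∀ i, IsFlag (V i) (N i) (c i)) (d : (i : Fin r) → Fin (N i) → ℕ)
    (W : (i : Fin r) → (j : Fin (N i)) → Γ →* Matrix (Fin (d i j)) (Fin (d i j)) F)
    (π : (i : Fin r) → (j : Fin (N i)) → c i (j.1 + 1) →ₗ[F] (Fin (d i j) → F))
    (hfac : ∀ i j, IsFactor (V i) (c i j.1) (c i (j.1 + 1)) (W i j) (π i j))
    (hd : ∀ i j, 0 < d i j) (hcoef : ∀ i j k l, (fun g => W i j g k l) ∈ alg (V i))
    (g₀ : Γ) (α β : F) (hcp : (ρ g₀).charpoly = (X - C α) * (X - C β))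
    (hk : ∀ k : ℕ, 0 < k → α ^ k ≠ β ^ k)
    (hroots : ∀ i, 2 ≤ n i → ∀ γ γ', (V i g₀).charpoly.IsRoot γ → (V i g₀).charpoly.IsRoot γ' →
      α ^ 2 * γ ≠ β ^ 2 * γ') :
    ∃ D : Matrix (Fin 2) (Fin 2) F → Derivation F (alg (ds (dirSum V) ρ)) (alg (ds (dirSum V) ρ)),
      (∀ Z, Z.trace = 0 → ∀ i j h,
        (D Z (gen (ds (dirSum V) ρ) (Sum.inr i) (Sum.inr j))).1 h = (ρ h * Z) i j) ∧
      (∀ i j, Q (dirSum V) ρ D (W i j) False) ∧
      ∃ i j, Q (dirSum V) ρ D (W i j) True := by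
  classical
  obtain ⟨L, hL, hLD, hStab⟩ := Row.PKV (dirSum V) ρ had g₀ α β hcp hk
  obtain ⟨c', hc', π', hfac'⟩ := Row.CAT V N c hc W π hfac
  set K : ℕ := ∑ i, N i with hK
  let e : (Σ i : Fin r, Fin (N i)) ≃ Fin K := finSigmaFinEquiv
  let d' : Fin K → ℕ := fun k => d (e.symm k).1 (e.symm k).2
  let W' : (k : Fin K) → Γ →* Matrix (Fin (d' k)) (Fin (d' k)) F :=
    fun k => W (e.symm k).1 (e.symm k).2
  have hd' : ∀ k, 0 < d' k := fun k => hd _ _
  have hcoef' : ∀ k a b, (fun g => W' k g a b) ∈ alg (dirSum V) := fun k a b =>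
    alg_summand_le V _ (hcoef _ _ a b)
  have hstabc : ∀ k : Fin K, ∀ g, ∀ x ∈ c' (k.1 + 1), dirSum V g *ᵥ x ∈ c' (k.1 + 1) :=
    fun k g x hx => hc'.stable (k.1 + 1) (Nat.succ_le_of_lt k.2) g x hx
  have hSIW : ∀ k, SIr (W' k) := fun k =>
    Row.SIW (dirSum V) (c' k.1) (c' (k.1 + 1)) (hc'.lt k.1 k.2) (hstabc k)
      (fun H hH M hM h1 h2 => hc'.irr k.1 k.2 H hH M hM h1 h2) (W' k) (π' k) (hfac' k)
  obtain ⟨L', hL', hlift⟩ := Row.IPF (dirSum V) ρ hSI L hL hStab K c' hc' W' π' hfac'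
  let A := (k : Fin K) → Matrix (Fin (d' k)) (Fin (d' k)) F
  let θ : (k : Fin K) → A →ₐ[F] Matrix (Fin (d' k)) (Fin (d' k)) F := fun k =>
    Pi.evalAlgHom F (fun k : Fin K => Matrix (Fin (d' k)) (Fin (d' k)) F) k
  let τ : A →ₗ[F] A :=
    { toFun := fun x k => ((x k).trace / (d' k : F)) • (1 : Matrix (Fin (d' k)) (Fin (d' k)) F)
      map_add' := by
        intro x y
        funext k
        show (((x k + y k).trace) / (d' k : F)) • (1 : Matrix (Fin (d' k)) (Fin (d' k)) F) =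
          ((x k).trace / (d' k : F)) • (1 : Matrix (Fin (d' k)) (Fin (d' k)) F) +
          ((y k).trace / (d' k : F)) • (1 : Matrix (Fin (d' k)) (Fin (d' k)) F)
        rw [Matrix.trace_add, add_div, add_smul]
      map_smul' := by
        intro a x
        funext k
        show (((a • x k).trace) / (d' k : F)) • (1 : Matrix (Fin (d' k)) (Fin (d' k)) F) =
          a • ((x k).trace / (d' k : F)) • (1 : Matrix (Fin (d' k)) (Fin (d' k)) F)
        rw [Matrix.trace_smul, smul_eq_mul, mul_div_assoc, mul_smul] }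
  have hτ : IsTau τ := by
    refine ⟨?_, ?_, ?_⟩
    · intro x y
      funext k
      show (((x k * y k).trace) / (d' k : F)) • (1 : Matrix (Fin (d' k)) (Fin (d' k)) F) =
        (((y k * x k).trace) / (d' k : F)) • (1 : Matrix (Fin (d' k)) (Fin (d' k)) F)
      rw [Matrix.trace_mul_comm]
    · intro x y
      funext k
      show (((x k).trace / (d' k : F)) • (1 : Matrix (Fin (d' k)) (Fin (d' k)) F)) * y k =
        y k * (((x k).trace / (d' k : F)) • (1 : Matrix (Fin (d' k)) (Fin (d' k)) F))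
      rw [Matrix.smul_mul, Matrix.mul_smul, Matrix.one_mul, Matrix.mul_one]
    · intro x
      funext k
      show (((((x k).trace / (d' k : F)) • (1 : Matrix (Fin (d' k)) (Fin (d' k)) F)).trace) /
        (d' k : F)) • (1 : Matrix (Fin (d' k)) (Fin (d' k)) F) = ((x k).trace / (d' k : F)) • 1
      have h0 : (d' k : F) ≠ 0 := Nat.cast_ne_zero.mpr (hd' k).ne'
      rw [Matrix.trace_smul, Matrix.trace_one, Fintype.card_fin, smul_eq_mul,
        div_mul_cancel₀ _ h0]
  have hfin : FiniteDimensional F A := inferInstance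
  obtain ⟨σ, hσ, hσeq, hσL⟩ := Row.STR (prodR W') W' θ hd' (fun x hx => funext hx)
    (fun k g => rfl) hSIW τ hτ (by
      intro x hx k
      have h1 : ((x k).trace / (d' k : F)) • (1 : Matrix (Fin (d' k)) (Fin (d' k)) F) = 0 :=
        congrFun hx k
      have h0 : (d' k : F) ≠ 0 := Nat.cast_ne_zero.mpr (hd' k).ne'
      have h2 := congrFun (congrFun h1 ⟨0, hd' k⟩) ⟨0, hd' k⟩
      rw [Matrix.smul_apply, Matrix.one_apply_eq, smul_eq_mul, mul_one, Matrix.zero_apply] at h2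
      exact (div_eq_zero_iff.mp h2).resolve_right h0) ρ hSI L' hL'
  -- the derivations
  have hex : ∀ Z : Matrix (Fin 2) (Fin 2) F, ∃ D : Derivation F (alg (ds (dirSum V) ρ))
      (alg (ds (dirSum V) ρ)), Z.trace = 0 →
      (∀ i j h, (D (gen (ds (dirSum V) ρ) (Sum.inr i) (Sum.inr j))).1 h = (ρ h * Z) i j) ∧
      ∀ k i j (hm : (fun g => W' k g i j) ∈ alg (ds (dirSum V) ρ)) h,
        (D ⟨fun g => W' k g i j, hm⟩).1 h = (W' k h * σ Z k) i j := by
    intro Z
    by_cases hZ : Z.trace = 0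
    · obtain ⟨p, hp, hp2, hp3⟩ := hlift _ (hσL Z hZ)
      obtain ⟨D, hD1, hD2⟩ := hLD p hp
      refine ⟨D, fun _ => ⟨?_, ?_⟩⟩
      · intro i j h
        rw [hD2 i j h]
        have h1 : p.2 = Z := hp2.symm
        rw [h1]
      · intro k i j hm h
        exact Row.DWI (dirSum V) ρ D p.1 hD1 (c' k.1) (c' (k.1 + 1)) (W' k) (π' k) (hfac' k)
          (hstabc k) (hStab p hp (c' (k.1 + 1)) (hstabc k)) (σ Z k) (hp3 k) i j hm h
    · exact ⟨0, fun h => absurd h hZ⟩
  choose D hD using hex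
  refine ⟨D, fun Z hZ => (hD Z hZ).1, ?_⟩
  -- per factor
  have hper : ∀ k : Fin K, Q (dirSum V) ρ D (W' k) (∃ Z, σ Z k ≠ 0) := by
    intro k
    let σk : Matrix (Fin 2) (Fin 2) F →ₗ[F] Matrix (Fin (d' k)) (Fin (d' k)) F :=
      (θ k).toLinearMap ∘ₗ σ
    have hσk : IsSl σk := by
      refine ⟨?_, ?_⟩
      · show σ 1 k = 0
        rw [hσ.one]
        rfl
      · intro Z Z'
        show σ (Z * Z' - Z' * Z) k = σ Z k * σ Z' k - σ Z' k * σ Z k
        rw [hσ.lie]
        rfl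
    have heqk : ∀ g Z, W' k g * σk Z * W' k g⁻¹ = σk (ρ g * Z * ρ g⁻¹) := by
      intro g Z
      have h1 := congrFun (hσeq g Z) k
      exact h1
    have hne : α ≠ β := by
      have := hk 1 one_pos
      simpa using this
    obtain ⟨a, b, V₀, M, q1, q2, q3, q4, q5, q6⟩ := perFactor (dirSum V) ρ (hd' k) (W' k)
      (by
        have h1 := hSIW k ⊤ inferInstance
        exact ⟨h1.1, fun U hU => h1.2 U fun g u hu => hU g.1 u hu⟩) (hcoef' k) σk hσk heqk D
      (fun Z hZ => (hD Z hZ).1) (fun Z hZ i j hm h => (hD Z hZ).2 k i j hm h) g₀ α β hcp hne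
      (by
        intro hσ0 γ γ' hγ hγ'
        have hdk : 2 ≤ d' k := by
          by_contra hcon
          exact hσ0 (sl_zero_of_small (by omega) σk hσk)
        have hprod := Row.CHF (V (e.symm k).1) (N (e.symm k).1) (c (e.symm k).1)
          (hc (e.symm k).1) (W (e.symm k).1) (π (e.symm k).1) (hfac (e.symm k).1) g₀
        have hdvd : (W' k g₀).charpoly ∣ (V (e.symm k).1 g₀).charpoly := by
          rw [hprod]
          exact Finset.dvd_prod_of_mem (fun j => (W (e.symm k).1 j g₀).charpoly)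
            (Finset.mem_univ (e.symm k).2)
        have hn : 2 ≤ n (e.symm k).1 := by
          have h1 := Polynomial.natDegree_le_of_dvd hdvd (Matrix.charpoly_monic _).ne_zero
          rw [Matrix.charpoly_natDegree_eq_dim, Matrix.charpoly_natDegree_eq_dim,
            Fintype.card_fin, Fintype.card_fin] at h1
          omega
        exact hroots _ hn γ γ' (hγ.dvd hdvd) (hγ'.dvd hdvd))
    refine ⟨a, b, V₀, M, q1, q2, q3, q4, q5, ?_⟩
    rintro ⟨Z, hZ⟩
    apply q6
    intro h0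
    apply hZ
    have h1 : σk Z = 0 := by rw [h0]; rfl
    exact h1
  constructor
  · intro i j
    have h1 := (hper (e ⟨i, j⟩)).mono (f' := False) (fun h => h.elim)
    have h2 : ∀ s : Σ i : Fin r, Fin (N i), Q (dirSum V) ρ D (W (e.symm (e s)).1
        (e.symm (e s)).2) False → Q (dirSum V) ρ D (W s.1 s.2) False := by
      intro s hs
      rw [Equiv.symm_apply_apply] at hs
      exact hs
    exact h2 ⟨i, j⟩ h1
  · -- some component of `σ` is nonzero
    have hex2 : ∃ k, ∃ Z, σ Z k ≠ 0 := by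
      by_contra hcon
      push Not at hcon
      have h1 : σ !![0, 1; 0, 0] = 0 := funext fun k => hcon k _
      have h2 := hσL !![0, 1; 0, 0] (by simp [Matrix.trace_fin_two])
      obtain ⟨s, hs⟩ := hL'.inj _ h2 h1
      have h3 := congrFun (congrFun hs 0) 1
      simp at h3
    obtain ⟨k, hk'⟩ := hex2
    exact ⟨(e.symm k).1, (e.symm k).2, (hper k).mono fun _ => hk'⟩

end Pool.Agent.RG
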