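import Mathlib
import Pool.Agent.helper67.RG.Asm3

/-!
# Assembly 4: the structure theorem
-/

namespace Pool.Agent.RG

open Matrix Polynomial Pool.Agent.GO Pool.Agent.AR Kronecker

set_option maxHeartbeats 4000000 in
theorem transc {F Γ m : Type*} [Field F] [CharZero F] [Group Γ] [Fintype m] [DecidableEq m]
    (Vd : Γ →* Matrix m m F) (ρ : Γ →* Matrix (Fin 2) (Fin 2) F)
    (hdom : NoZeroDivisors (alg (ds Vd ρ)))
    (D : Derivation F (alg (ds Vd ρ)) (alg (ds Vd ρ))) (Z : Matrix (Fin 2) (Fin 2) F)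
    (hZ : Z.trace = 0)
    (hDρ : ∀ i j h, (D (gen (ds Vd ρ) (Sum.inr i) (Sum.inr j))).1 h = (ρ h * Z) i j)
    (g₁ : Γ) (hZg : (ρ g₁ * Z).trace ≠ 0) {a b : ℕ} (V₀' : Γ →* Matrix (Fin a) (Fin a) F)
    (M' : Γ →* Matrix (Fin b) (Fin b) F)
    (hV₀in : ∀ k l, (fun g => V₀' g k l) ∈ alg (ds Vd ρ))
    (hMin : ∀ k l, (fun g => M' g k l) ∈ alg (ds Vd ρ))
    (hDV₀ : ∀ k l (hm : (fun g => V₀' g k l) ∈ alg (ds Vd ρ)), D ⟨fun g => V₀' g k l, hm⟩ = 0)
    (hDM : ∀ k l (hm : (fun g => M' g k l) ∈ alg (ds Vd ρ)), D ⟨fun g => M' g k l, hm⟩ = 0)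
    (p : (alg (ds (ds V₀' M') (detR ρ)))[X]) (hp : p ≠ 0) :
    ∃ g, (p.map ((evG (ds (ds V₀' M') (detR ρ)) g :
        alg (ds (ds V₀' M') (detR ρ)) →ₐ[F] F) : alg (ds (ds V₀' M') (detR ρ)) →+* F)).eval
          (ρ g).trace ≠ 0 := by
  classical
  have hrin : ∀ i j, (fun g => ρ g i j) ∈ alg (ds Vd ρ) := fun i j =>
    coef_mem (ds Vd ρ) (Sum.inr i) (Sum.inr j)
  let rg : Fin 2 → Fin 2 → alg (ds Vd ρ) := fun i j => ⟨fun g => ρ g i j, hrin i j⟩
  have hDrg : ∀ i j h, (D (rg i j)).1 h = (ρ h * Z) i j := fun i j h => hDρ i j h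
  -- the constants contain the coefficients of `T`
  have hdetin : (fun g => (ρ g).det) ∈ alg (ds Vd ρ) := by
    have h1 : (fun g => (ρ g).det) = (rg 0 0 * rg 1 1 - rg 0 1 * rg 1 0).1 := by
      funext g
      rw [Matrix.det_fin_two]
      rfl
    rw [h1]
    exact (rg 0 0 * rg 1 1 - rg 0 1 * rg 1 0).2
  have hDdet : D ⟨fun g => (ρ g).det, hdetin⟩ = 0 := by
    have h1 : (⟨fun g => (ρ g).det, hdetin⟩ : alg (ds Vd ρ)) =
        rg 0 0 * rg 1 1 - rg 0 1 * rg 1 0 := by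
      apply Subtype.ext
      funext g
      show (ρ g).det = _
      rw [Matrix.det_fin_two]
      rfl
    rw [h1, map_sub, Derivation.leibniz, Derivation.leibniz]
    apply Subtype.ext
    funext g
    show ρ g 0 0 * (D (rg 1 1)).1 g + ρ g 1 1 * (D (rg 0 0)).1 g -
      (ρ g 0 1 * (D (rg 1 0)).1 g + ρ g 1 0 * (D (rg 0 1)).1 g) = 0
    rw [hDrg, hDrg, hDrg, hDrg, Matrix.mul_apply, Matrix.mul_apply, Matrix.mul_apply,
      Matrix.mul_apply, Fin.sum_univ_two, Fin.sum_univ_two, Fin.sum_univ_two, Fin.sum_univ_two]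
    have h2 : Z 1 1 = - Z 0 0 := by
      rw [Matrix.trace_fin_two] at hZ
      linear_combination hZ
    rw [h2]
    ring
  have hTin : ∀ k l, (fun g => ds (ds V₀' M') (detR ρ) g k l) ∈ alg (ds Vd ρ) := by
    intro k l
    rcases k with (k | k) | k <;> rcases l with (l | l) | l
    · exact hV₀in k l
    · exact Subalgebra.zero_mem _
    · exact Subalgebra.zero_mem _
    · exact Subalgebra.zero_mem _
    · exact hMin k l
    · exact Subalgebra.zero_mem _
    · exact Subalgebra.zero_mem _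
    · exact Subalgebra.zero_mem _
    · exact hdetin
  have hz : ∀ hm : (0 : Γ → F) ∈ alg (ds Vd ρ), D ⟨0, hm⟩ = 0 := by
    intro hm
    have : (⟨0, hm⟩ : alg (ds Vd ρ)) = 0 := rfl
    rw [this, map_zero]
  have hTD : ∀ k l (hm : (fun g => ds (ds V₀' M') (detR ρ) g k l) ∈ alg (ds Vd ρ)),
      D ⟨fun g => ds (ds V₀' M') (detR ρ) g k l, hm⟩ = 0 := by
    intro k l
    rcases k with (k | k) | k <;> rcases l with (l | l) | l
    · exact hDV₀ k l
    · exact hz
    · exact hz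
    · exact hz
    · exact hDM k l
    · exact hz
    · exact hz
    · exact hz
    · exact fun _ => hDdet
  have hconst := alg_const (ds Vd ρ) D (ds (ds V₀' M') (detR ρ)) hTin hTD
  -- the subalgebra of constants
  let A₀ : Subalgebra F (alg (ds Vd ρ)) :=
    { carrier := {f | D f = 0}
      mul_mem' := by
        intro x y hx hy
        show D (x * y) = 0
        have hx' : D x = 0 := hx
        have hy' : D y = 0 := hy
        rw [Derivation.leibniz, hx', hy', smul_zero, smul_zero, add_zero]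
      add_mem' := by
        intro x y hx hy
        show D (x + y) = 0
        have hx' : D x = 0 := hx
        have hy' : D y = 0 := hy
        rw [map_add, hx', hy', add_zero]
      algebraMap_mem' := fun s => D.map_algebraMap s }
  have hBdom : IsDomain (alg (ds Vd ρ)) := by
    have : NoZeroDivisors (alg (ds Vd ρ)) := hdom
    have : Nontrivial (alg (ds Vd ρ)) := ⟨0, 1, fun h => by
      have h1 := congrArg (fun z : alg (ds Vd ρ) => z.1 1) h
      simp at h1⟩
    exact NoZeroDivisors.to_isDomain _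
  let t : alg (ds Vd ρ) := rg 0 0 + rg 1 1
  have hDt : D t ≠ 0 := by
    intro h0
    apply hZg
    have h1 : (D t).1 g₁ = 0 := by rw [h0]; rfl
    have h2 : (D t).1 g₁ = (D (rg 0 0)).1 g₁ + (D (rg 1 1)).1 g₁ := by
      show (D (rg 0 0 + rg 1 1)).1 g₁ = _
      rw [map_add]
      rfl
    rw [Matrix.trace_fin_two, ← hDrg, ← hDrg, ← h2, h1]
  have htr : Transcendental A₀ t := Row.TRC A₀ D (fun a ha => ha) t hDt
  -- transport of `p`
  have hle : ∀ f ∈ alg (ds (ds V₀' M') (detR ρ)), f ∈ alg (ds Vd ρ) := fun f hf =>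
    (hconst f hf).1
  have hle2 : ∀ f (hf : f ∈ alg (ds (ds V₀' M') (detR ρ))),
      (⟨f, hle f hf⟩ : alg (ds Vd ρ)) ∈ A₀ := fun f hf => (hconst f hf).2
  let φ : alg (ds (ds V₀' M') (detR ρ)) →+* A₀ :=
    { toFun := fun f => ⟨⟨f.1, hle f.1 f.2⟩, hle2 f.1 f.2⟩
      map_one' := rfl
      map_mul' := fun _ _ => rfl
      map_zero' := rfl
      map_add' := fun _ _ => rfl }
  have hφ : Function.Injective φ := by
    intro x y hxy
    apply Subtype.ext
    exact congrArg (fun z : A₀ => z.1.1) hxy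
  have hp' : p.map φ ≠ 0 := (Polynomial.map_ne_zero_iff hφ).mpr hp
  have hval : aeval t (p.map φ) ≠ 0 := fun h0 => hp' (transcendental_iff.mp htr _ h0)
  by_contra hcon
  push Not at hcon
  apply hval
  apply Subtype.ext
  funext g
  have h3 : (aeval t (p.map φ)).1 g = (p.map ((evG (ds (ds V₀' M') (detR ρ)) g :
        alg (ds (ds V₀' M') (detR ρ)) →ₐ[F] F) : alg (ds (ds V₀' M') (detR ρ)) →+* F)).eval
          (ρ g).trace := by
    let ev : alg (ds Vd ρ) →+* F := (evG (ds Vd ρ) g : alg (ds Vd ρ) →ₐ[F] F)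
    show ev (aeval t (p.map φ)) = _
    rw [Polynomial.aeval_def, Polynomial.hom_eval₂, Polynomial.eval₂_map, Polynomial.eval_map]
    have h4 : ev t = (ρ g).trace := by
      rw [Matrix.trace_fin_two]
      rfl
    rw [h4]
    rfl
  rw [h3, hcon g]
  rfl

set_option maxHeartbeats 4000000 in
theorem STF : STF_stmt := by
  intro F Γ _ _ _ _ r n V ρ hSI had hdom hflag g₀ α β hcp hk hroots
  classical
  choose N c hc using hflag
  have hQ : ∀ (i : Fin r) (j : Fin (N i)), ∃ (d : ℕ) (W : Γ →* Matrix (Fin d) (Fin d) F)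
      (π : c i (j.1 + 1) →ₗ[F] (Fin d → F)), IsFactor (V i) (c i j.1) (c i (j.1 + 1)) W π ∧
      0 < d ∧ ∀ k l, (fun g => W g k l) ∈ alg (V i) := by
    intro i j
    obtain ⟨d, W, π, h1, h2, h3⟩ := Row.QUO (V i) (c i j.1) (c i (j.1 + 1))
      ((hc i).lt j.1 j.2).le ((hc i).stable j.1 j.2.le) ((hc i).stable (j.1 + 1)
        (Nat.succ_le_of_lt j.2))
    exact ⟨d, W, π, h1, h2 ((hc i).lt j.1 j.2), h3⟩
  choose d W π hfac hd hcoef using hQ
  obtain ⟨D, hDρ, hall, i₀, j₀, hspec⟩ := allFactors V ρ hSI had N c hc d W π hfac hd hcoef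
    g₀ α β hcp hk hroots
  -- the factors of `V i₀`
  have hirrW : ∀ j, Irred (fun g => W i₀ j g) := by
    intro j
    have h0 : SIr (W i₀ j) := Row.SIW (V i₀) (c i₀ j.1) (c i₀ (j.1 + 1)) ((hc i₀).lt j.1 j.2)
      ((hc i₀).stable (j.1 + 1) (Nat.succ_le_of_lt j.2))
      (fun H hH M hM h1 h2 => (hc i₀).irr j.1 j.2 H hH M hM h1 h2) (W i₀ j) (π i₀ j) (hfac i₀ j)
    have h1 := h0 ⊤ inferInstance
    exact ⟨h1.1, fun U hU => h1.2 U fun g u hu => hU g.1 u hu⟩
  have hQj : ∀ j, Q (dirSum V) ρ D (W i₀ j) (j = j₀) := by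
    intro j
    by_cases hj : j = j₀
    · subst hj
      exact hspec.mono fun _ => trivial
    · exact (hall i₀ j).mono fun h => absurd h hj
  choose a b V₀ M q1 q2 q3 q4 q5 q6 using hQj
  obtain ⟨V₀', p1, p2, p3, p4⟩ := Row.DSM V₀
  obtain ⟨M', m1, m2, m3, m4⟩ := Row.DSM M
  have hb0 : 0 < b j₀ := (q6 j₀ rfl).1
  have hbsum : b j₀ ≤ ∑ j, b j := Finset.single_le_sum (fun _ _ => Nat.zero_le _)
    (Finset.mem_univ j₀)
  have hchar : ∀ g, (V i₀ g).charpoly = (V₀' g).charpoly * (ρ g ⊗ₖ M' g).charpoly := by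
    intro g
    rw [p1 g, m3 (ρ g) g, ← Finset.prod_mul_distrib,
      Row.CHF (V i₀) (N i₀) (c i₀) (hc i₀) (W i₀) (π i₀) (hfac i₀) g]
    exact Finset.prod_congr rfl fun j _ => q1 j g
  have hV₀in : ∀ k l, (fun g => V₀' g k l) ∈ alg (ds (dirSum V) ρ) := by
    intro k l
    rcases p4 k l with ⟨i, p, q, h⟩ | h
    · have : (fun g => V₀' g k l) = fun g => V₀ i g p q := funext h
      rw [this]
      exact q2 i p q
    · have : (fun g => V₀' g k l) = 0 := funext h
      rw [this]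
      exact Subalgebra.zero_mem _
  have hMin : ∀ k l, (fun g => M' g k l) ∈ alg (ds (dirSum V) ρ) := by
    intro k l
    rcases m4 k l with ⟨i, p, q, h⟩ | h
    · have : (fun g => M' g k l) = fun g => M i g p q := funext h
      rw [this]
      exact q3 i p q
    · have : (fun g => M' g k l) = 0 := funext h
      rw [this]
      exact Subalgebra.zero_mem _
  have hDV₀ : ∀ Z, Z.trace = 0 → ∀ k l (hm : (fun g => V₀' g k l) ∈ alg (ds (dirSum V) ρ)),
      D Z ⟨fun g => V₀' g k l, hm⟩ = 0 := by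
    intro Z hZ k l hm
    rcases p4 k l with ⟨i, p, q, h⟩ | h
    · have h1 : (⟨fun g => V₀' g k l, hm⟩ : alg (ds (dirSum V) ρ)) =
          ⟨fun g => V₀ i g p q, q2 i p q⟩ := Subtype.ext (funext h)
      rw [h1]
      exact q4 i Z hZ p q _
    · have h1 : (⟨fun g => V₀' g k l, hm⟩ : alg (ds (dirSum V) ρ)) = 0 :=
        Subtype.ext (funext h)
      rw [h1, map_zero]
  have hDM : ∀ Z, Z.trace = 0 → ∀ k l (hm : (fun g => M' g k l) ∈ alg (ds (dirSum V) ρ)),
      D Z ⟨fun g => M' g k l, hm⟩ = 0 := by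
    intro Z hZ k l hm
    rcases m4 k l with ⟨i, p, q, h⟩ | h
    · have h1 : (⟨fun g => M' g k l, hm⟩ : alg (ds (dirSum V) ρ)) =
          ⟨fun g => M i g p q, q3 i p q⟩ := Subtype.ext (funext h)
      rw [h1]
      exact q5 i Z hZ p q _
    · have h1 : (⟨fun g => M' g k l, hm⟩ : alg (ds (dirSum V) ρ)) = 0 :=
        Subtype.ext (funext h)
      rw [h1, map_zero]
  refine ⟨i₀, _, _, V₀', M', ?_, ?_, hchar, hV₀in, hMin, ?_, ?_⟩
  · -- `2 ≤ n i₀`
    have h1 := congrArg Polynomial.natDegree (hchar 1)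
    rw [Polynomial.natDegree_mul (Matrix.charpoly_monic _).ne_zero
      (Matrix.charpoly_monic _).ne_zero, Matrix.charpoly_natDegree_eq_dim,
      Matrix.charpoly_natDegree_eq_dim, Matrix.charpoly_natDegree_eq_dim, Fintype.card_fin,
      Fintype.card_fin, Fintype.card_prod, Fintype.card_fin, Fintype.card_fin] at h1
    omega
  · omega
  · -- transcendence
    obtain ⟨Z, g₁, hZ, hZg⟩ := exists_trace_ne ρ (SI.irred ρ hSI)
    exact transc (dirSum V) ρ hdom (D Z) Z hZ (hDρ Z hZ) g₁ hZg V₀' M' hV₀in hMin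
      (hDV₀ Z hZ) (hDM Z hZ)
  · intro htr
    have hpow : ∀ g (k : ℕ), ((M' g) ^ k).trace = ((∑ j, b j : ℕ) : F) := by
      intro g k
      rw [← map_pow]
      exact htr (g ^ k)
    have hcpM : ∀ g, (M' g).charpoly = (X - C 1) ^ (∑ j, b j) := fun g =>
      Row.PSM (M' g) (hpow g)
    have hone : ∀ g, (M j₀ g).charpoly = (X - C 1) ^ (b j₀) ∧ (M j₀ g).trace = (b j₀ : F) := by
      intro g
      apply trace_of_charpoly
      intro x hx
      have h1 : (M j₀ g).charpoly ∣ (M' g).charpoly := by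
        rw [m1 g]
        exact Finset.dvd_prod_of_mem (fun j => (M j g).charpoly) (Finset.mem_univ j₀)
      have h2 := hx.dvd h1
      rw [hcpM g, Polynomial.IsRoot, Polynomial.eval_pow, Polynomial.eval_sub, Polynomial.eval_X,
        Polynomial.eval_C] at h2
      exact sub_eq_zero.mp (pow_eq_zero_iff (by omega) |>.mp h2)
    have hsub := (q6 j₀ rfl).2 ⟨fun g => (hone g).2, fun g => (hone g).1⟩
    have hWV := (Row.SQT.{0, 0, 0, 0, 0, _, _, _}).2 (V i₀) (c i₀ j₀.1) (c i₀ (j₀.1 + 1)) (W i₀ j₀) (π i₀ j₀)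
      ((hc i₀).stable (j₀.1 + 1) (Nat.succ_le_of_lt j₀.2)) (hfac i₀ j₀)
    exact (Row.SQT.{_, _, _, _, _, 0, 0, 0}).1 _ _ _ hsub hWV

end Pool.Agent.RG
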