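import Mathlib
import Pool.Agent.helper67.RG.Asm4
import Pool.Agent.helper67.RG.FDefs
import Pool.Agent.helper10.RG.SpecB

/-!
# Topological assembly: from coefficients of `ad0` on an open subgroup to a subquotient
-/

namespace Pool.Agent.RG

open Matrix Polynomial Pool.Agent.GO Pool.Agent.AR MeasureTheory Kronecker

universe u v w

theorem STRUCT : STRUCT_stmt.{u, v} := by
  intro Γ _ F _ _ _ r n V ρ g₀ α β hSI had hdom hfl h1 h2 h3
  obtain ⟨i, a, b, V₀, M, _, hb, q1, q2, q3, q4, q5⟩ := STF V ρ hSI had hdom hfl g₀ α β h1 h2 h3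
  exact ⟨i, a, b, V₀, M, hb, q1, q2, q3, q4, q5⟩

/-- restriction to a smaller subgroup -/
theorem mem_alg_of_le {Γ F m : Type*} [Group Γ] [Field F] [Fintype m] [DecidableEq m]
    (W : Γ →* Matrix m m F) {U U' : Subgroup Γ} (h : U' ≤ U) (f : U → F)
    (hf : f ∈ alg (W.comp U.subtype)) :
    (fun u : U' => f ⟨u.1, h u.2⟩) ∈ alg (W.comp U'.subtype) := by
  obtain ⟨f', hf', rfl⟩ := res_surj W U hf
  exact res_mem W U' hf'

theorem ds_continuous {Γ F m κ : Type*} [Group Γ] [TopologicalSpace Γ] [Field F]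
    [TopologicalSpace F] [Fintype m] [DecidableEq m] [Fintype κ] [DecidableEq κ]
    (V : Γ →* Matrix m m F) (ρ : Γ →* Matrix κ κ F) (hV : Continuous V) (hρ : Continuous ρ) :
    Continuous (ds V ρ) := by
  apply continuous_matrix
  intro a b
  show Continuous fun g => Matrix.fromBlocks (V g) 0 0 (ρ g) a b
  rcases a with i | i <;> rcases b with j | j
  · exact hV.matrix_elem i j
  · exact continuous_const
  · exact continuous_const
  · exact hρ.matrix_elem i j

theorem TCORE (hCORE : CORE_stmt.{u, v, w}) {Γ : Type u} {Place : Type*} {E : Type w}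
    {F : Type v} [Group Γ]
    [TopologicalSpace Γ] [IsTopologicalGroup Γ] [CompactSpace Γ] [MeasurableSpace Γ]
    [BorelSpace Γ] (μ : Measure Γ) [μ.IsHaarMeasure] (frob : Place → Set Γ) [Field E]
    [NumberField E] {r : ℕ} {n : Fin r → ℕ} (P : Fin r → Place → E[X]) (Q : Place → E[X])
    (q : Place → ℕ) (s : ℕ) (w : Fin r → ℕ) (O : Set Place) (hs : 1 ≤ s)
    (hw : ∀ i, 2 ≤ n i → w i ≤ s)
    (hO : NonNeglOpen μ frob O) (hQ : ∀ v ∈ O, IsGood (q v) s (Q v))
    (hP : ∀ v ∈ O, ∀ i, 2 ≤ n i → IsWeil (q v) (w i) (P i v))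
    [Field F] [IsAlgClosed F] [CharZero F] [TopologicalSpace F] [IsTopologicalRing F] [T2Space F]
    (ι : E →+* F) (V : (i : Fin r) → Γ →* Matrix (Fin (n i)) (Fin (n i)) F)
    (ρ : Γ →* Matrix (Fin 2) (Fin 2) F) (hR : IsRealisation frob P Q ι V ρ)
    (had : ∃ U : Subgroup Γ, IsOpen (U : Set Γ) ∧
      ∀ i j, (fun u : U => ad0 (ρ.comp U.subtype) u i j) ∈ alg ((dirSum V).comp U.subtype)) :
    ∃ U : Subgroup Γ, IsOpen (U : Set Γ) ∧ ∃ i,
      IsSubquotient (fun u : U => ρ u) (fun u : U => V i u) := by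
  classical
  obtain ⟨U₀, hU₀, had₀⟩ := had
  have hSI : SI ρ := SI_of_open ρ hR.cont hR.irr
  have hcont : Continuous (ds (dirSum V) ρ) :=
    ds_continuous _ _ (dirSum_continuous V hR.contV) hR.cont
  obtain ⟨U₁, hU₁, hdom⟩ := Row.ZDN μ (ds (dirSum V) ρ) hcont
  have hU₂ : IsOpen ((U₀ ⊓ U₁ : Subgroup Γ) : Set Γ) := hU₀.inter hU₁
  obtain ⟨U, hUle, hUo, hfl⟩ := Row.FLS V hR.contV (U₀ ⊓ U₁) hU₂
  have hUle0 : U ≤ U₀ := hUle.trans inf_le_left
  have hUle1 : U ≤ U₁ := hUle.trans inf_le_right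
  obtain ⟨hdomU, hZD⟩ := hdom U hUle1 hUo
  choose TV hTV hTV' using hR.compV
  obtain ⟨Tρ, hTρ, hTρ'⟩ := hR.comp
  set T : Set Place := (⋃ i, TV i) ∪ Tρ with hT
  have hTfin : T.Finite := (Set.finite_iUnion hTV).union hTρ
  let G : Set Γ := {g | ∃ v ∈ O, v ∉ T ∧ g ∈ frob v}
  have hZDG := hZD G (by
    intro C hC hC0
    obtain ⟨v, hv, hvT, g, hg, hgU, hgC⟩ := hO U hUo C T hC hC0 hTfin
    exact ⟨g, ⟨v, hv, hvT, hg⟩, hgU, hgC⟩)
  have hfi : U.FiniteIndex := by
    have := Subgroup.quotient_finite_of_isOpen U hUo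
    exact Subgroup.finiteIndex_of_finite_quotient
  have hadU : ∀ i j, (fun u : U => ad0 (ρ.comp U.subtype) u i j) ∈
      alg ((dirSum V).comp U.subtype) := by
    intro i j
    exact mem_alg_of_le (dirSum V) hUle0 _ (had₀ i j)
  have h1 := hCORE U F E ι r n (fun i => (V i).comp U.subtype) (ρ.comp U.subtype) s w
    {u : U | u.1 ∈ G} hs hw (hSI.restrict ρ U hfi) hadU hdomU hfl hZDG (by
      rintro u ⟨v, hv, hvT, hu⟩
      refine ⟨q v, fun i => P i v, Q v, hQ v hv, hTρ' v (fun h => hvT (Or.inr h)) u.1 hu, ?_⟩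
      intro i
      exact ⟨hTV' i v (fun h => hvT (Or.inl (Set.mem_iUnion.mpr ⟨i, h⟩))) u.1 hu,
        fun hn => hP v hv i hn⟩)
  exact ⟨U, hUo, h1⟩

/-- from a relation to the coefficients of `ad0` -/
theorem ad0_of_relation {Γ Place E F : Type*} [Group Γ] [TopologicalSpace Γ]
    [IsTopologicalGroup Γ] [CompactSpace Γ] [MeasurableSpace Γ] [BorelSpace Γ]
    (μ : Measure Γ) [μ.IsHaarMeasure] (frob : Place → Set Γ) [Field E]
    {r : ℕ} {n : Fin r → ℕ} (P : Fin r → Place → E[X]) (Q : Place → E[X])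
    (S : Set Place) (hS : NonNegl μ frob S) (Φ : (MvPolynomial (Fin r × ℕ) E)[X])
    (hΦ : IsRelation P Q S Φ)
    [Field F] [IsAlgClosed F] [CharZero F] [TopologicalSpace F] [IsTopologicalRing F] [T2Space F]
    (ι : E →+* F) (V : (i : Fin r) → Γ →* Matrix (Fin (n i)) (Fin (n i)) F)
    (ρ : Γ →* Matrix (Fin 2) (Fin 2) F) (hR : IsRealisation frob P Q ι V ρ) :
    ∃ U : Subgroup Γ, IsOpen (U : Set Γ) ∧ SI (ρ.comp U.subtype) ∧
      ∀ i j, (fun u : U => ad0 (ρ.comp U.subtype) u i j) ∈ alg ((dirSum V).comp U.subtype) := by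
  classical
  choose TV hTV hTV' using hR.compV
  obtain ⟨Tρ, hTρ, hTρ'⟩ := hR.comp
  set T : Set Place := (⋃ i, TV i) ∪ Tρ with hT
  have hTfin : T.Finite := (Set.finite_iUnion hTV).union hTρ
  -- the relation over the algebra of coefficients
  let c : Fin r × ℕ → alg (dirSum V) := fun k =>
    ⟨fun g => (V k.1 g).charpoly.coeff k.2, charcoeff_mem V k.1 k.2⟩
  let θ : MvPolynomial (Fin r × ℕ) E →+* alg (dirSum V) :=
    MvPolynomial.eval₂Hom ((algebraMap F (alg (dirSum V))).comp ι) c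
  have hθ : ∀ v, v ∉ T → ∀ s ∈ frob v,
      ((evG (dirSum V) s : alg (dirSum V) →ₐ[F] F) : alg (dirSum V) →+* F).comp θ =
        ι.comp (MvPolynomial.eval fun k => (P k.1 v).coeff k.2) := by
    intro v hv s hs
    apply MvPolynomial.ringHom_ext
    · intro x
      simp only [RingHom.comp_apply, θ, MvPolynomial.coe_eval₂Hom, MvPolynomial.eval₂_C,
        MvPolynomial.eval_C]
      exact AlgHom.commutes (evG (dirSum V) s) (ι x)
    · intro k
      simp only [RingHom.comp_apply, θ, MvPolynomial.coe_eval₂Hom, MvPolynomial.eval₂_X,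
        MvPolynomial.eval_X]
      have h1 : v ∉ TV k.1 := fun h => hv (Or.inl (Set.mem_iUnion.mpr ⟨k.1, h⟩))
      show (V k.1 s).charpoly.coeff k.2 = _
      rw [hTV' k.1 v h1 s hs, Polynomial.coeff_map]
  exact main_group μ (dirSum V) (dirSum_continuous V hR.contV) ρ hR.cont hR.irr
    (⋃ v ∈ S \ T, frob v) (by
      intro C hC hC0
      obtain ⟨v, hvS, hvT, s, hs, hsC⟩ := hS C T hC hC0 hTfin
      refine ⟨s, ?_, hsC⟩
      simp only [Set.mem_iUnion]
      exact ⟨v, ⟨hvS, hvT⟩, hs⟩) (Φ.map θ) (by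
      intro s hs
      simp only [Set.mem_iUnion] at hs
      obtain ⟨v, ⟨hvS, hvT⟩, hs⟩ := hs
      obtain ⟨h1, h2⟩ := hΦ v hvS
      rw [Polynomial.map_map, hθ v hvT s hs, ← Polynomial.map_map]
      refine ⟨(Polynomial.map_ne_zero_iff ι.injective).mpr h1, ?_⟩
      have h3 : (ρ s).trace = ι (-(Q v).coeff 1) := by
        have h4 := hTρ' v (fun h => hvT (Or.inr h)) s hs
        have h5 := congrArg (fun p : F[X] => p.coeff 1) h4
        simp only [Polynomial.coeff_map] at h5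
        rw [map_neg, ← h5, Matrix.charpoly_fin_two]
        simp [Polynomial.coeff_C]
      rw [h3]
      exact h2.map)

end Pool.Agent.RG
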