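import Mathlib
import Pool.Agent.helper67.RG.Top
import Pool.Agent.helper10.RG.AllB

/-!
# The core theorem without hypotheses
-/

namespace Pool.Agent.RG

universe u v w

theorem CORE_all : CORE_stmt.{u, v, w} := ALLB STRUCT

end Pool.Agent.RG
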