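import Mathlib
import Pool.Agent.helper67.RG.Core
import Pool.Agent.helper67.RG.Rows3

/-!
# Project rg (MP_2e0e07_nt): the final theorem
-/

namespace Pool.Agent.RG

open Matrix Polynomial Pool.Agent.GO Pool.Agent.AR MeasureTheory Kronecker

universe u v w x

section

variable {Γ : Type u} {Place : Type x} {E : Type w} [Group Γ] [TopologicalSpace Γ]
  [IsTopologicalGroup Γ] [CompactSpace Γ] [MeasurableSpace Γ] [BorelSpace Γ]
  (μ : Measure Γ) [μ.IsHaarMeasure] (frob : Place → Set Γ) [Field E]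
  {r : ℕ} {n : Fin r → ℕ} (P : Fin r → Place → E[X]) (Q : Place → E[X])

/-- Clause (0): the adjoint representation. -/
theorem clause0 (S : Set Place) (Φ : (MvPolynomial (Fin r × ℕ) E)[X]) (hS : NonNegl μ frob S)
    (hΦ : IsRelation P Q S Φ) {F : Type v} [Field F] [IsAlgClosed F] [CharZero F]
    [TopologicalSpace F] [IsTopologicalRing F] [T2Space F]
    (ι : E →+* F) (V : (i : Fin r) → Γ →* Matrix (Fin (n i)) (Fin (n i)) F)
    (ρ : Γ →* Matrix (Fin 2) (Fin 2) F) (hR : IsRealisation frob P Q ι V ρ) :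
    ∃ U : Subgroup Γ, IsOpen (U : Set Γ) ∧ ∃ a b : ℕ,
      AdSubquotient U ρ (tens (dirSum V) a b) := by
  obtain ⟨U, hU, hSI, hcoef⟩ := ad0_of_relation μ frob P Q S hS Φ hΦ ι V ρ hR
  exact ⟨U, hU, adSubquotient_of_coef (dirSum V) ρ U hSI hcoef⟩

/-- Clause (1): a relation is equivalent to geometric origin. -/
theorem clause1 [NumberField E] (q : Place → ℕ) (s : ℕ) (w : Fin r → ℕ) (O : Set Place)
    (hO : IsGoodSet μ frob n P Q q s w O) {F : Type v} [Field F] [IsAlgClosed F] [CharZero F]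
    [TopologicalSpace F] [IsTopologicalRing F] [T2Space F]
    (ι : E →+* F) (V : (i : Fin r) → Γ →* Matrix (Fin (n i)) (Fin (n i)) F)
    (ρ : Γ →* Matrix (Fin 2) (Fin 2) F) (hR : IsRealisation frob P Q ι V ρ) :
    (∃ (S : Set Place) (Φ : (MvPolynomial (Fin r × ℕ) E)[X]), NonNegl μ frob S ∧
      IsRelation P Q S Φ) ↔ Arises V ρ := by
  constructor
  · rintro ⟨S, Φ, hS, hΦ⟩
    obtain ⟨U, hU, _, hcoef⟩ := ad0_of_relation μ frob P Q S hS Φ hΦ ι V ρ hR
    exact Row3.IDP V ρ (TCORE CORE_all μ frob P Q q s w O hO.pos hO.wt hO.dense hO.good hO.weil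
      ι V ρ hR ⟨U, hU, hcoef⟩)
  · intro h
    obtain ⟨U, hU, i, hi⟩ := Row3.DSC V ρ hR.irr h
    exact Row3.CNV μ frob P Q ι V ρ O hO.dense hR.compV hR.comp ⟨U, hU, i, hi⟩

end

section padic

variable {Γ : Type} {Place : Type x} {E : Type w} [Group Γ] [TopologicalSpace Γ]
  [IsTopologicalGroup Γ] [CompactSpace Γ] [MeasurableSpace Γ] [BorelSpace Γ]
  (μ : Measure Γ) [μ.IsHaarMeasure] (frob : Place → Set Γ) [Field E]
  {r : ℕ} {n : Fin r → ℕ} (P : Fin r → Place → E[X]) (Q : Place → E[X])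

/-- Clause (2): infinite intersection of the fields is equivalent to geometric origin. -/
theorem clause2 [NumberField E] (q : Place → ℕ) (s : ℕ) (w : Fin r → ℕ) (O : Set Place)
    (hO : IsGoodSet μ frob n P Q q s w O) (p : ℕ) [Fact p.Prime] (F Ω : Type) [NormedField F]
    [NormedAlgebra ℚ_[p] F] [FiniteDimensional ℚ_[p] F] [Field Ω] [IsAlgClosed Ω] [Algebra F Ω]
    [TopologicalSpace Ω] [IsTopologicalRing Ω] [T2Space Ω]
    (ι : E →+* Ω) (V : (i : Fin r) → Γ →* Matrix (Fin (n i)) (Fin (n i)) ℚ_[p])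
    (ρ : Γ →* Matrix (Fin 2) (Fin 2) F) (hV : ∀ i, Continuous (V i)) (hρ : Continuous ρ)
    (hR : IsRealisation frob P Q ι
      (fun i => bc ((algebraMap F Ω).comp (algebraMap ℚ_[p] F)) (V i)) (bc (algebraMap F Ω) ρ)) :
    ¬ (meet V ρ).FiniteIndex ↔
      Arises (fun i => bc ((algebraMap F Ω).comp (algebraMap ℚ_[p] F)) (V i))
        (bc (algebraMap F Ω) ρ) := by
  have hSI : SI (bc (algebraMap F Ω) ρ) := SI_of_open _ hR.cont hR.irr
  have hchar : CharZero F := charZero_of_injective_algebraMap (algebraMap ℚ_[p] F).injective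
  have hcharΩ : CharZero Ω := charZero_of_injective_algebraMap (algebraMap F Ω).injective
  constructor
  · intro h
    obtain ⟨U, hU, hcoef⟩ := Row3.FAD p Γ F Ω V ρ hV hρ hSI h
    exact Row3.IDP _ _ (TCORE CORE_all μ frob P Q q s w O hO.pos hO.wt hO.dense hO.good hO.weil
      ι _ _ hR ⟨U, hU, hcoef⟩)
  · intro h
    obtain ⟨U, hU, i, hi⟩ := Row3.DSC _ _ hR.irr h
    have hfi : U.FiniteIndex := by
      have := Subgroup.quotient_finite_of_isOpen U hU
      exact Subgroup.finiteIndex_of_finite_quotient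
    exact Row3.MET (algebraMap F Ω) ((algebraMap F Ω).comp (algebraMap ℚ_[p] F)) V ρ hSI U hfi
      ⟨i, hi⟩

end padic

end Pool.Agent.RG
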