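import Pool.Agent.helper5.RG.MET

/-!
# MP_2e0e07_nt, AlgebraicRelation v2, row TM: `ad⁰ ρ` in a tensor construction of `V` gives an
infinite intersection of the fields
-/

set_option autoImplicit false

namespace Pool.Agent.RG.TM

open Matrix Polynomial Pool.Agent.GO Pool.Agent.AR Pool.Agent.RG Pool.Agent.RG.MET

/-- a `2 × 2` matrix commuting with the matrices of trace zero is scalar -/
theorem scal_of_comm {F : Type*} [Field F] (A : Matrix (Fin 2) (Fin 2) F)
    (h : ∀ Z : Matrix (Fin 2) (Fin 2) F, Z.trace = 0 → A * Z = Z * A) :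
    A = A 0 0 • (1 : Matrix (Fin 2) (Fin 2) F) := by
  have h1 := h !![0, 1; 0, 0] (by simp)
  have h2 := h !![0, 0; 1, 0] (by simp)
  have e1 := congrFun (congrFun h1 0) 1
  have e2 := congrFun (congrFun h1 0) 0
  have e3 := congrFun (congrFun h2 0) 0
  simp [Matrix.mul_apply, Fin.sum_univ_two] at e1 e2 e3
  ext i j
  fin_cases i <;> fin_cases j
  · simp
  · simpa using e3
  · simpa using e2.symm
  · simpa using e1.symm

/-- on `U` the kernel of the `V i` acts by scalars -/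
theorem triv_ad {Γ F F' Ω : Type*} [Group Γ] [Field F] [Field F'] [Field Ω] (j : F →+* Ω)
    (j' : F' →+* Ω) {r : ℕ} {n : Fin r → ℕ}
    (V : (i : Fin r) → Γ →* Matrix (Fin (n i)) (Fin (n i)) F')
    (ρ : Γ →* Matrix (Fin 2) (Fin 2) F) (U : Subgroup Γ) (a b : ℕ)
    (hs : AdSubquotient U (bc j ρ) (tens (dirSum fun i => bc j' (V i)) a b)) (h : Γ) (hU : h ∈ U)
    (hV : ∀ i, V i h = 1) : ρ h = ρ h 0 0 • (1 : Matrix (Fin 2) (Fin 2) F) := by
  classical
  obtain ⟨Q, hQ, π, hπ, heq⟩ := hs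
  have hds : ∀ g, (∀ i, V i g = 1) → dirSum (fun i => bc j' (V i)) g = 1 := by
    intro g hg
    show Matrix.blockDiagonal' (fun i => bc j' (V i) g) = 1
    have h1 : (fun i => bc j' (V i) g) = 1 := by
      funext i
      show (V i g).map j' = 1
      rw [hg i, Matrix.map_one j' (map_zero j') (map_one j')]
    rw [h1, Matrix.blockDiagonal'_one]
  have hVi : ∀ i, V i h⁻¹ = 1 := by
    intro i
    have h3 : V i h * V i h⁻¹ = 1 := by rw [← map_mul, mul_inv_cancel, map_one]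
    rwa [hV i, one_mul] at h3
  have hT : tens (dirSum fun i => bc j' (V i)) a b h = 1 := by
    ext p q
    rw [tens, Matrix.of_apply, hds h hV, hds h⁻¹ hVi]
    simp only [Matrix.one_apply]
    by_cases hpq : p = q
    · subst hpq
      simp
    · rw [if_neg hpq]
      by_cases h1 : p.1 = q.1
      · have h2 : p.2 ≠ q.2 := fun h2 => hpq (Prod.ext h1 h2)
        obtain ⟨k, hk⟩ := Function.ne_iff.1 h2
        rw [Finset.prod_eq_zero (Finset.mem_univ k) (if_neg fun h3 => hk h3.symm), mul_zero]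
      · obtain ⟨k, hk⟩ := Function.ne_iff.1 h1
        rw [Finset.prod_eq_zero (Finset.mem_univ k) (if_neg hk), zero_mul]
  have hinv : bc j ρ h⁻¹ * bc j ρ h = 1 := by rw [← map_mul, inv_mul_cancel, map_one]
  have hcomm : ∀ Z : Matrix (Fin 2) (Fin 2) Ω, Z.trace = 0 → bc j ρ h * Z = Z * bc j ρ h := by
    intro Z hZ
    obtain ⟨x, rfl⟩ := (hπ Z).2 hZ
    have h1 := heq h hU x
    have h2 : (⟨tens (dirSum fun i => bc j' (V i)) a b h *ᵥ x.1, hQ h hU x.1 x.2⟩ : Q) = x :=
      Subtype.ext (show tens (dirSum fun i => bc j' (V i)) a b h *ᵥ x.1 = x.1 by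
        rw [hT, Matrix.one_mulVec])
    rw [h2] at h1
    conv_rhs => rw [h1]
    rw [Matrix.mul_assoc _ _ (bc j ρ h), hinv, Matrix.mul_one]
  have h1 := scal_of_comm _ hcomm
  have h2 : (ρ h).map j = (ρ h 0 0 • (1 : Matrix (Fin 2) (Fin 2) F)).map j := by
    have h3 : (ρ h 0 0 • (1 : Matrix (Fin 2) (Fin 2) F)).map j =
        bc j ρ h 0 0 • (1 : Matrix (Fin 2) (Fin 2) Ω) := by
      ext a b
      show j (ρ h 0 0 * (1 : Matrix (Fin 2) (Fin 2) F) a b) =
        j (ρ h 0 0) * (1 : Matrix (Fin 2) (Fin 2) Ω) a b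
      rw [map_mul, Matrix.one_apply, Matrix.one_apply]
      split_ifs
      · rw [map_one]
      · rw [map_zero]
    rw [h3]
    exact h1
  exact Matrix.map_injective j.injective h2

/-- Row TM. -/
theorem TM {Γ F F' Ω : Type*} [Group Γ] [Field F] [Field F'] [Field Ω] (j : F →+* Ω)
    (j' : F' →+* Ω) {r : ℕ} {n : Fin r → ℕ}
    (V : (i : Fin r) → Γ →* Matrix (Fin (n i)) (Fin (n i)) F')
    (ρ : Γ →* Matrix (Fin 2) (Fin 2) F) (hSI : SI (bc j ρ)) (U : Subgroup Γ) (hU : U.FiniteIndex)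
    (a b : ℕ) (hs : AdSubquotient U (bc j ρ) (tens (dirSum fun i => bc j' (V i)) a b)) :
    ¬ (meet V ρ).FiniteIndex := by
  intro hM
  have hN := scalSub_normal ρ
  -- `K₀ ⊓ U ≤ H`
  have h1 : U ⊓ kerV V ≤ scalSub ρ ⊓ kerV V := by
    intro g hg
    exact ⟨⟨ρ g 0 0, triv_ad j j' V ρ U a b hs g hg.1 ((mem_kerV V g).1 hg.2)⟩, hg.2⟩
  have h2 : (scalSub ρ).relIndex (kerV V) ≠ 0 := by
    rw [← Subgroup.inf_relIndex_right]
    have h3 := Subgroup.relIndex_dvd_of_le_left (kerV V) h1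
    rw [Subgroup.inf_relIndex_right U] at h3
    have h4 : U.relIndex (kerV V) ≠ 0 := by
      have h5 : (U.subgroupOf (kerV V)).FiniteIndex := inferInstance
      exact h5.index_ne_zero
    exact ne_zero_of_dvd_ne_zero h4 h3
  have h3 : meet V ρ ≤ kerV V ⊔ scalSub ρ := by
    rintro g ⟨h, hV, c, hc⟩
    have e : g = g * h⁻¹ * h := by group
    rw [e]
    apply mul_mem
    · apply Subgroup.mem_sup_right
      refine ⟨c, ?_⟩
      rw [map_mul, hc, Matrix.smul_mul, ← map_mul, mul_inv_cancel, map_one]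
    · apply Subgroup.mem_sup_left
      exact (mem_kerV V h).2 hV
  have h4 : (kerV V ⊔ scalSub ρ).index ≠ 0 :=
    ne_zero_of_dvd_ne_zero hM.index_ne_zero (Subgroup.index_dvd_of_le h3)
  have h5 : (scalSub ρ).relIndex (kerV V ⊔ scalSub ρ) = (scalSub ρ).relIndex (kerV V) :=
    Subgroup.relIndex_sup_right _ _
  have h6 : (scalSub ρ).index ≠ 0 := by
    rw [← Subgroup.relIndex_mul_index (le_sup_right : scalSub ρ ≤ kerV V ⊔ scalSub ρ), h5]
    exact mul_ne_zero h2 h4
  have h7 := hSI (scalSub ρ) ⟨h6⟩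
  have h8 := h7.2 (Submodule.span Ω {(Pi.single 0 1 : Fin 2 → Ω)}) (by
    rintro ⟨g, c, hc⟩ u hu
    have e : bc j ρ g = j c • (1 : Matrix (Fin 2) (Fin 2) Ω) := by
      show (ρ g).map j = _
      rw [hc]
      ext a b
      rw [Matrix.map_apply, Matrix.smul_apply, Matrix.smul_apply, smul_eq_mul, smul_eq_mul, map_mul,
        Matrix.one_apply, Matrix.one_apply]
      split_ifs
      · rw [map_one]
      · rw [map_zero]
    show bc j ρ g *ᵥ u ∈ _
    rw [e, Matrix.smul_mulVec, Matrix.one_mulVec]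
    exact Submodule.smul_mem _ _ hu)
  rcases h8 with h8 | h8
  · have h9 : (Pi.single 0 1 : Fin 2 → Ω) ∈ Submodule.span Ω {(Pi.single 0 1 : Fin 2 → Ω)} :=
      Submodule.mem_span_singleton_self _
    rw [h8, Submodule.mem_bot] at h9
    have := congrFun h9 0
    simp at this
  · have h9 : (Pi.single 1 1 : Fin 2 → Ω) ∈ Submodule.span Ω {(Pi.single 0 1 : Fin 2 → Ω)} := by
      rw [h8]; trivial
    rw [Submodule.mem_span_singleton] at h9
    obtain ⟨a, ha⟩ := h9
    have := congrFun ha 1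
    simp at this

end Pool.Agent.RG.TM
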