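import Mathlib

/-!
# MP_2e0e07_nt, AlgebraicRelation v2, row TR: a relation from products of roots

If `x v` is a quotient of products of `a` and of `b` roots of the product of the polynomials `P i v` (`v ∈ S`) and
`t v ^ 2 = d v (x v + 2 + 1 / x v)` then `t v` satisfies one fixed algebraic relation with the coefficients of
the `P i v`, for all `v ∈ S`: in the ring of all functions on `S` an element `δ t` is integral over the ring of
polynomials in the coefficients.
-/

set_option autoImplicit false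

namespace Pool.Agent.RG

open Polynomial

/-- the generic monic polynomial of degree `n` -/
noncomputable def genP (E : Type*) [Field E] {r : ℕ} (i : Fin r) (n : ℕ) :
    (MvPolynomial (Fin r × ℕ) E)[X] :=
  X ^ n + ∑ k : Fin n, C (MvPolynomial.X (i, (k : ℕ))) * X ^ (k : ℕ)

theorem genP_monic (E : Type*) [Field E] {r : ℕ} (i : Fin r) (n : ℕ) : (genP E i n).Monic := by
  unfold genP
  refine monic_X_pow_add ?_
  refine (degree_sum_fin_lt fun k : Fin n => (MvPolynomial.X (i, (k : ℕ)) :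
    MvPolynomial (Fin r × ℕ) E))

theorem genP_map {E : Type*} [Field E] {r : ℕ} (i : Fin r) (n : ℕ) (p : Fin r → E[X])
    (hm : (p i).Monic) (hn : (p i).natDegree = n) :
    (genP E i n).map (MvPolynomial.eval fun k : Fin r × ℕ => (p k.1).coeff k.2) = p i := by
  unfold genP
  rw [Polynomial.map_add, Polynomial.map_pow, map_X, Polynomial.map_sum]
  have h1 : ∀ k : Fin n, ((C (MvPolynomial.X (i, (k : ℕ))) * X ^ (k : ℕ) :
      (MvPolynomial (Fin r × ℕ) E)[X]).map
        (MvPolynomial.eval fun k : Fin r × ℕ => (p k.1).coeff k.2)) =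
      C ((p i).coeff k) * X ^ (k : ℕ) := by
    intro k
    rw [Polynomial.map_mul, map_C, Polynomial.map_pow, map_X, MvPolynomial.eval_X]
  rw [Finset.sum_congr rfl fun k _ => h1 k]
  conv_rhs => rw [(p i).as_sum_range_C_mul_X_pow, hn, Finset.sum_range_succ, Finset.sum_range]
  have h2 : (p i).coeff n = 1 := by rw [← hn]; exact hm
  rw [h2, C_1, one_mul, add_comm]

/-- Row TR. -/
theorem TR {Place E F : Type*} [Field E] [Field F] {r : ℕ} {n : Fin r → ℕ}
    (P : Fin r → Place → E[X]) (ι : E →+* F) (S : Set Place)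
    (hmon : ∀ v ∈ S, ∀ i, (P i v).Monic ∧ (P i v).natDegree = n i)
    (h0 : ∀ v ∈ S, (∏ i, P i v).coeff 0 ≠ 0) (a b : ℕ) (t : Place → E)
    (d₀ : MvPolynomial (Fin r × ℕ) E)
    (hroot : ∀ v ∈ S, ∃ (γ : Fin a → F) (ε : Fin b → F) (x : F),
      (∀ k, ((∏ i, P i v).map ι).IsRoot (γ k)) ∧ (∀ k, ((∏ i, P i v).map ι).IsRoot (ε k)) ∧
      x ≠ 0 ∧ x * ∏ k, ε k = ∏ k, γ k ∧
      ι (t v) ^ 2 = ι (MvPolynomial.eval (fun k => (P k.1 v).coeff k.2) d₀) * (x + 2 + x⁻¹)) :
    ∃ Φ : (MvPolynomial (Fin r × ℕ) E)[X], ∀ v ∈ S,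
      Φ.map (MvPolynomial.eval fun k => (P k.1 v).coeff k.2) ≠ 0 ∧
      (Φ.map (MvPolynomial.eval fun k => (P k.1 v).coeff k.2)).IsRoot (t v) := by
  classical
  -- choices
  have hroot' : ∀ v : S, ∃ (γ : Fin a → F) (ε : Fin b → F) (x : F),
      (∀ k, ((∏ i, P i v.1).map ι).IsRoot (γ k)) ∧ (∀ k, ((∏ i, P i v.1).map ι).IsRoot (ε k)) ∧
      x ≠ 0 ∧ x * ∏ k, ε k = ∏ k, γ k ∧
      ι (t v.1) ^ 2 =
        ι (MvPolynomial.eval (fun k => (P k.1 v.1).coeff k.2) d₀) * (x + 2 + x⁻¹) :=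
    fun v => hroot v.1 v.2
  choose γ ε x hγ hε hx hxγ ht using hroot'
  -- the ring of functions on `S`
  let ev : Place → MvPolynomial (Fin r × ℕ) E →+* E := fun v =>
    MvPolynomial.eval fun k => (P k.1 v).coeff k.2
  let φ : MvPolynomial (Fin r × ℕ) E →+* (S → F) := Pi.ringHom fun v => ι.comp (ev v.1)
  have hφ : ∀ f v, φ f v = ι (ev v.1 f) := fun f v => rfl
  let _ : Algebra (MvPolynomial (Fin r × ℕ) E) (S → F) := φ.toAlgebra
  have halg : ∀ f, algebraMap (MvPolynomial (Fin r × ℕ) E) (S → F) f = φ f := fun f => rfl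
  -- evaluation of polynomials over the generic ring at functions
  have haev : ∀ (g : (MvPolynomial (Fin r × ℕ) E)[X]) (z : S → F) (v : S),
      (aeval z g) v = ((g.map (ev v.1)).map ι).eval (z v) := by
    intro g z v
    rw [Polynomial.map_map, Polynomial.eval_map]
    have h1 : (aeval z g) v = (Pi.evalRingHom (fun _ : S => F) v) (eval₂ φ z g) := rfl
    rw [h1, Polynomial.hom_eval₂]
    rfl
  let GP : (MvPolynomial (Fin r × ℕ) E)[X] := ∏ i, genP E i (n i)
  have hGPm : GP.Monic := monic_prod_of_monic _ _ fun i _ => genP_monic E i (n i)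
  have hGPmap : ∀ v ∈ S, GP.map (ev v) = ∏ i, P i v := by
    intro v hv
    rw [Polynomial.map_prod]
    exact Finset.prod_congr rfl fun i _ =>
      genP_map i (n i) (fun j => P j v) (hmon v hv i).1 (hmon v hv i).2
  have hrootint : ∀ z : S → F, (∀ v : S, ((∏ i, P i v.1).map ι).IsRoot (z v)) →
      aeval z GP = 0 := by
    intro z hz
    funext v
    rw [haev, hGPmap v.1 v.2]
    exact hz v
  have hint : ∀ z : S → F, (∀ v : S, ((∏ i, P i v.1).map ι).IsRoot (z v)) →
      IsIntegral (MvPolynomial (Fin r × ℕ) E) z := fun z hz => ⟨GP, hGPm, hrootint z hz⟩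
  let δ : MvPolynomial (Fin r × ℕ) E := GP.coeff 0
  have hδ : ∀ v ∈ S, ev v δ = (∏ i, P i v).coeff 0 := by
    intro v hv
    rw [← hGPmap v hv, Polynomial.coeff_map]
  -- the complementary elements
  have hcomp : ∀ z : S → F, (∀ v : S, ((∏ i, P i v.1).map ι).IsRoot (z v)) →
      ∃ z' : S → F, IsIntegral (MvPolynomial (Fin r × ℕ) E) z' ∧ z' * z = -φ δ := by
    intro z hz
    refine ⟨aeval z GP.divX, ?_, ?_⟩
    · rw [Polynomial.aeval_eq_sum_range]
      exact IsIntegral.sum _ fun k _ => ((hint z hz).pow k).smul _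
    · have h1 := hrootint z hz
      rw [← Polynomial.divX_mul_X_add GP, map_add, map_mul, aeval_X, aeval_C, halg] at h1
      exact eq_neg_of_add_eq_zero_left h1
  have hγ' : ∀ k, IsIntegral (MvPolynomial (Fin r × ℕ) E) (fun v : S => γ v k) :=
    fun k => hint _ fun v => hγ v k
  have hε' : ∀ k, IsIntegral (MvPolynomial (Fin r × ℕ) E) (fun v : S => ε v k) :=
    fun k => hint _ fun v => hε v k
  choose γc hγc hγc' using fun k => hcomp (fun v : S => γ v k) fun v => hγ v k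
  choose εc hεc hεc' using fun k => hcomp (fun v : S => ε v k) fun v => hε v k
  let X1 : S → F := ∏ k, fun v : S => γ v k
  let Y1 : S → F := ∏ k, fun v : S => ε v k
  let X2 : S → F := ∏ k, γc k
  let Y2 : S → F := ∏ k, εc k
  have iX1 : IsIntegral (MvPolynomial (Fin r × ℕ) E) X1 := IsIntegral.prod _ fun k _ => hγ' k
  have iY1 : IsIntegral (MvPolynomial (Fin r × ℕ) E) Y1 := IsIntegral.prod _ fun k _ => hε' k
  have iX2 : IsIntegral (MvPolynomial (Fin r × ℕ) E) X2 := IsIntegral.prod _ fun k _ => hγc k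
  have iY2 : IsIntegral (MvPolynomial (Fin r × ℕ) E) Y2 := IsIntegral.prod _ fun k _ => hεc k
  have hX : X2 * X1 = (-φ δ) ^ a := by
    show (∏ k, γc k) * (∏ k, fun v : S => γ v k) = _
    rw [← Finset.prod_mul_distrib, Finset.prod_congr rfl fun k _ => hγc' k, Finset.prod_const,
      Finset.card_univ, Fintype.card_fin]
  have hY : Y2 * Y1 = (-φ δ) ^ b := by
    show (∏ k, εc k) * (∏ k, fun v : S => ε v k) = _
    rw [← Finset.prod_mul_distrib, Finset.prod_congr rfl fun k _ => hεc' k, Finset.prod_const,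
      Finset.card_univ, Fintype.card_fin]
  have hxX : (fun v => x v) * Y1 = X1 := by
    funext v
    show x v * (∏ k, fun v : S => ε v k) v = (∏ k, fun v : S => γ v k) v
    rw [Finset.prod_apply, Finset.prod_apply]
    exact hxγ v
  -- `(-δ)^(a+b) t²` is integral
  let c : MvPolynomial (Fin r × ℕ) E := (-δ) ^ (a + b)
  have hc : φ c = (-φ δ) ^ a * (-φ δ) ^ b := by
    show φ ((-δ) ^ (a + b)) = _
    rw [map_pow, map_neg, pow_add]
  let tt : S → F := fun v => ι (t v.1)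
  have hδ0 : ∀ v : S, φ δ v ≠ 0 := by
    intro v
    rw [hφ, hδ v.1 v.2]
    exact (map_ne_zero ι).2 (h0 v.1 v.2)
  have hkey : φ c * tt ^ 2 =
      φ d₀ * (((-φ δ) ^ a * (X1 * Y2) + (-φ δ) ^ b * (Y1 * X2)) + 2 * φ c) := by
    funext v
    have e1 : X2 v * X1 v = (-φ δ v) ^ a := congrFun hX v
    have e2 : Y2 v * Y1 v = (-φ δ v) ^ b := congrFun hY v
    have e3 : x v * Y1 v = X1 v := congrFun hxX v
    have e4 : φ c v = (-φ δ v) ^ a * (-φ δ v) ^ b := congrFun hc v
    have e5 : tt v ^ 2 = φ d₀ v * (x v + 2 + (x v)⁻¹) := ht v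
    have e6 : (x v)⁻¹ * X1 v = Y1 v := by
      rw [← e3, ← mul_assoc, inv_mul_cancel₀ (hx v), one_mul]
    show φ c v * tt v ^ 2 = φ d₀ v * (((-φ δ v) ^ a * (X1 v * Y2 v) +
      (-φ δ v) ^ b * (Y1 v * X2 v)) + 2 * φ c v)
    rw [e5, e4, ← e1, ← e2, ← e3]
    have e7 : (x v)⁻¹ * (x v * Y1 v) = Y1 v := by rw [e3, e6]
    linear_combination (φ d₀ v * (X2 v * (x v * Y1 v)) * (Y2 v * Y1 v)) * 0 +
      (φ d₀ v * X2 v * (Y2 v * Y1 v)) * e7
  have ic : IsIntegral (MvPolynomial (Fin r × ℕ) E) (φ c) := isIntegral_algebraMap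
  have id₀ : IsIntegral (MvPolynomial (Fin r × ℕ) E) (φ d₀) := isIntegral_algebraMap
  have iδ : IsIntegral (MvPolynomial (Fin r × ℕ) E) (-φ δ) :=
    (isIntegral_algebraMap : IsIntegral (MvPolynomial (Fin r × ℕ) E) (φ δ)).neg
  have i2 : IsIntegral (MvPolynomial (Fin r × ℕ) E) (2 : S → F) := by
    have h1 : (2 : S → F) = φ 2 := by rw [map_ofNat]
    rw [h1]
    exact isIntegral_algebraMap
  have i1 : IsIntegral (MvPolynomial (Fin r × ℕ) E) (φ c * tt ^ 2) := by
    rw [hkey]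
    exact id₀.mul ((((iδ.pow a).mul (iX1.mul iY2)).add ((iδ.pow b).mul (iY1.mul iX2))).add
      (i2.mul ic))
  have i3 : IsIntegral (MvPolynomial (Fin r × ℕ) E) (φ c * tt) := by
    refine IsIntegral.of_pow (n := 2) (by norm_num) ?_
    have h1 : (φ c * tt) ^ 2 = φ c * (φ c * tt ^ 2) := by ring
    rw [h1]
    exact ic.mul i1
  obtain ⟨f, hf, hf0⟩ := i3
  refine ⟨f.comp (C c * X), fun v hv => ?_⟩
  have hcv : ev v c ≠ 0 := by
    intro h1
    have h2 := congrFun hc ⟨v, hv⟩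
    rw [hφ, h1, map_zero] at h2
    exact (mul_ne_zero (pow_ne_zero a (neg_ne_zero.2 (hδ0 ⟨v, hv⟩)))
      (pow_ne_zero b (neg_ne_zero.2 (hδ0 ⟨v, hv⟩)))) h2.symm
  have hmap : (f.comp (C c * X)).map (ev v) = (f.map (ev v)).comp (C (ev v c) * X) := by
    rw [Polynomial.map_comp, Polynomial.map_mul, map_C, map_X]
  show (f.comp (C c * X)).map (ev v) ≠ 0 ∧ ((f.comp (C c * X)).map (ev v)).IsRoot (t v)
  rw [hmap]
  refine ⟨fun h1 => ?_, ?_⟩
  · have h2 : ((f.map (ev v)).comp (C (ev v c) * X)).comp (C (ev v c)⁻¹ * X) = f.map (ev v) := by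
      rw [comp_assoc, mul_comp, C_comp, X_comp, ← mul_assoc, ← C_mul, mul_inv_cancel₀ hcv, C_1,
        one_mul, comp_X]
    rw [h1, zero_comp] at h2
    exact (hf.map (ev v)).ne_zero h2.symm
  · rw [Polynomial.IsRoot, eval_comp, eval_mul, eval_C, eval_X]
    have h1 := congrFun (show aeval (φ c * tt) f = 0 from hf0) ⟨v, hv⟩
    rw [haev, Polynomial.eval_map] at h1
    have h2 : (φ c * tt) ⟨v, hv⟩ = ι (ev v c * t v) := by
      rw [map_mul]
      rfl
    rw [h2, Polynomial.eval₂_at_apply] at h1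
    exact (map_eq_zero ι).1 h1

end Pool.Agent.RG
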