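import Pool.Agent.helper67.RG.TA
import Pool.Agent.helper67.RG.TR
import Pool.Agent.helper67.RG.TM
import Pool.Agent.helper21.FF.FF
import Pool.Agent.helper67.RG.Main

/-!
# MP_2e0e07_nt, AlgebraicRelation v2: the equivalences for all `ρ`
-/

set_option autoImplicit false

namespace Pool.Agent.RG

open Matrix Polynomial Pool.Agent.GO Pool.Agent.AR MeasureTheory Kronecker

universe u v w x

/-- The quotient of the eigenvalues of `ρ s` is a quotient of products of eigenvalues of `V s`. -/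
theorem ad_roots {Γ F : Type*} [Group Γ] [Field F] [IsAlgClosed F] {m : Type*} [Fintype m]
    [DecidableEq m] (W : Γ →* Matrix m m F) (ρ : Γ →* Matrix (Fin 2) (Fin 2) F) (U : Subgroup Γ)
    (a b : ℕ) (h : AdSubquotient U ρ (tens W a b)) (s : Γ) (hs : s ∈ U) :
    ∃ (α β : F) (γ : Fin a → F) (ε : Fin b → F), α ≠ 0 ∧ β ≠ 0 ∧ α + β = (ρ s).trace ∧
      α * β = (ρ s).det ∧ (∀ k, (W s).charpoly.IsRoot (γ k)) ∧
      (∀ k, (W s).charpoly.IsRoot (ε k)) ∧ (α / β) * ∏ k, ε k = ∏ k, γ k := by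
  obtain ⟨α, β, hα, hβ, hsum, hprod⟩ := eig_two (ρ s)
  have hinv : ρ s * ρ s⁻¹ = 1 := by rw [← map_mul, mul_inv_cancel, map_one]
  have hdet : (ρ s).det ≠ 0 := by
    intro h0
    have h1 := congrArg Matrix.det hinv
    rw [Matrix.det_mul, h0, zero_mul, Matrix.det_one] at h1
    exact zero_ne_one h1
  have hα0 : α ≠ 0 := fun h0 => hdet (by rw [← hprod, h0, zero_mul])
  have hβ0 : β ≠ 0 := fun h0 => hdet (by rw [← hprod, h0, mul_zero])
  obtain ⟨Z, hZ, htr, hZx⟩ := ad_vec (ρ s) (ρ s⁻¹) hinv α β hα hβ hsum hβ0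
  obtain ⟨γ, ε, hγ, hε, hx⟩ := eig_tens W a b s (α / β) (div_ne_zero hα0 hβ0)
    (eig_of_ad U ρ _ h s hs (α / β) Z hZ htr hZx)
  exact ⟨α, β, γ, ε, hα0, hβ0, hsum, hprod, fun k => (eig_iff_root _ _).1 (hγ k),
    fun k => (eig_iff_root _ _).1 (hε k), hx⟩

/-- `ad⁰ ρ` in a tensor construction of `V` gives an algebraic relation. -/
theorem rel_of_ad {Γ Place E F : Type*} [Group Γ] [TopologicalSpace Γ] [MeasurableSpace Γ]
    (μ : Measure Γ) (frob : Place → Set Γ) [Field E] [Field F] [IsAlgClosed F] {r : ℕ}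
    {n : Fin r → ℕ} (P : Fin r → Place → E[X]) (Q : Place → E[X]) (i₀ : Fin r)
    (hdet : ∀ v, P i₀ v = X - C ((Q v).coeff 0)) (hO : NonNeglOpen μ frob Set.univ)
    (ι : E →+* F) (V : (i : Fin r) → Γ →* Matrix (Fin (n i)) (Fin (n i)) F)
    (ρ : Γ →* Matrix (Fin 2) (Fin 2) F) (hV : ∀ i, Compatible frob ι (P i) (V i))
    (hρ : Compatible frob ι Q ρ) (U : Subgroup Γ) (hU : IsOpen (U : Set Γ)) (a b : ℕ)
    (h : AdSubquotient U ρ (tens (dirSum V) a b)) :
    ∃ (S : Set Place) (Φ : (MvPolynomial (Fin r × ℕ) E)[X]), NonNegl μ frob S ∧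
      IsRelation P Q S Φ := by
  choose TV hTV hTV' using hV
  obtain ⟨Tρ, hTρ, hTρ'⟩ := hρ
  set T : Set Place := (⋃ i, TV i) ∪ Tρ with hT
  have hTf : T.Finite := (Set.finite_iUnion hTV).union hTρ
  have hTi : ∀ v ∉ T, ∀ i, v ∉ TV i := fun v hv i h => hv (Or.inl (Set.mem_iUnion.2 ⟨i, h⟩))
  let S : Set Place := {v | v ∉ T ∧ ∃ s ∈ frob v, s ∈ U}
  have hchar : ∀ v ∈ S, ∀ s ∈ frob v, (dirSum V s).charpoly = (∏ i, P i v).map ι := by
    rintro v ⟨hvT, -⟩ s hs
    rw [charpoly_dirSum', Polynomial.map_prod]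
    exact Finset.prod_congr rfl fun i _ => hTV' i v (hTi v hvT i) s hs
  have hmon : ∀ v ∈ S, ∀ i, (P i v).Monic ∧ (P i v).natDegree = n i := by
    rintro v ⟨hvT, s, hs, hsU⟩ i
    have h1 := hTV' i v (hTi v hvT i) s hs
    refine ⟨?_, ?_⟩
    · refine Polynomial.monic_of_injective ι.injective ?_
      rw [← h1]
      exact Matrix.charpoly_monic _
    · rw [← Polynomial.natDegree_map ι, ← h1, Matrix.charpoly_natDegree_eq_dim, Fintype.card_fin]
  have h0 : ∀ v ∈ S, (∏ i, P i v).coeff 0 ≠ 0 := by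
    intro v hv h1
    obtain ⟨hvT, s, hs, hsU⟩ := hv
    have h2 := hchar v ⟨hvT, s, hs, hsU⟩ s hs
    have h3 := Matrix.det_eq_sign_charpoly_coeff (dirSum V s)
    rw [h2, Polynomial.coeff_map, h1, map_zero, mul_zero] at h3
    have h4 : dirSum V s * dirSum V s⁻¹ = 1 := by rw [← map_mul, mul_inv_cancel, map_one]
    have h5 := congrArg Matrix.det h4
    rw [Matrix.det_mul, h3, zero_mul, Matrix.det_one] at h5
    exact zero_ne_one h5
  obtain ⟨Φ, hΦ⟩ := TR (n := n) P ι S hmon h0 a b (fun v => -(Q v).coeff 1)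
    (-MvPolynomial.X (i₀, 0)) (by
      intro v hv
      have hv' := hv
      obtain ⟨hvT, s, hs, hsU⟩ := hv
      obtain ⟨α, β, γ, ε, hα0, hβ0, hsum, hprod, hγ, hε, hx⟩ :=
        ad_roots (dirSum V) ρ U a b h s hsU
      rw [hchar v hv' s hs] at hγ hε
      have h1 := hTρ' v (fun h => hvT (Or.inr h)) s hs
      rw [Matrix.charpoly_fin_two] at h1
      have e1 : (ρ s).trace = ι (-(Q v).coeff 1) := by
        have h2 := congrArg (fun p : F[X] => p.coeff 1) h1
        simp only [Polynomial.coeff_map] at h2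
        rw [map_neg, ← h2]
        simp [Polynomial.coeff_C]
      have e2 : (ρ s).det = ι ((Q v).coeff 0) := by
        have h2 := congrArg (fun p : F[X] => p.coeff 0) h1
        simp only [Polynomial.coeff_map] at h2
        rw [← h2]
        simp
      have e3 : MvPolynomial.eval (fun k : Fin r × ℕ => (P k.1 v).coeff k.2)
          (-MvPolynomial.X (i₀, 0)) = (Q v).coeff 0 := by
        rw [map_neg, MvPolynomial.eval_X]
        show -(P i₀ v).coeff 0 = _
        rw [hdet v]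
        simp
      refine ⟨γ, ε, α / β, hγ, hε, div_ne_zero hα0 hβ0, hx, ?_⟩
      rw [e3, ← e2, ← e1, ← hsum, ← hprod, inv_div]
      field_simp
      ring)
  refine ⟨S, Φ, ?_, hΦ⟩
  intro C T' hC hC0 hT'
  obtain ⟨v, -, hvT, s, hs, hsU, hsC⟩ := hO U hU C (T ∪ T') hC hC0 (hTf.union hT')
  rw [Set.mem_union, not_or] at hvT
  exact ⟨v, ⟨hvT.1, s, hs, hsU⟩, hvT.2, s, hs, hsC⟩

/-- `ad⁰ ρ` in a tensor construction of `V` gives the inclusion of the Frobenius fields, for the
places with `a_v ≠ 0`. -/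
theorem ff_of_ad {Γ Place E F : Type*} [Group Γ] [TopologicalSpace Γ] [Field E] [Field F]
    [IsAlgClosed F] (frob : Place → Set Γ) {r : ℕ} {n : Fin r → ℕ} (P : Fin r → Place → E[X])
    (Q : Place → E[X]) (ι : E →+* F) (V : (i : Fin r) → Γ →* Matrix (Fin (n i)) (Fin (n i)) F)
    (ρ : Γ →* Matrix (Fin 2) (Fin 2) F) (hd : DenseIn frob ⊤ Set.univ)
    (hV : ∀ i, Compatible frob ι (P i) (V i)) (hρ : Compatible frob ι Q ρ) (U : Subgroup Γ)
    (hU : IsOpen (U : Set Γ)) (htr : ∀ g ∈ U, (ρ g).trace ≠ 0) (a b : ℕ)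
    (h : AdSubquotient U ρ (tens (dirSum V) a b)) :
    ∃ S : Set Place, DenseIn frob U S ∧ FrobeniusFields P Q S := by
  choose TV hTV hTV' using hV
  obtain ⟨Tρ, hTρ, hTρ'⟩ := hρ
  set T : Set Place := (⋃ i, TV i) ∪ Tρ with hT
  have hTf : T.Finite := (Set.finite_iUnion hTV).union hTρ
  have hTi : ∀ v ∉ T, ∀ i, v ∉ TV i := fun v hv i h => hv (Or.inl (Set.mem_iUnion.2 ⟨i, h⟩))
  refine ⟨{v | v ∉ T ∧ ∃ s ∈ frob v, s ∈ U}, ?_, ?_⟩
  · rintro O T' hO ⟨g, hgO, hgU⟩ hT'
    obtain ⟨v, -, hvT, s, hs, -, hsO, hsU⟩ := hd (O ∩ U) (T ∪ T') (hO.inter hU)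
      ⟨g, ⟨hgO, hgU⟩, Subgroup.mem_top g⟩ (hTf.union hT')
    rw [Set.mem_union, not_or] at hvT
    exact ⟨v, ⟨hvT.1, s, hs, hsU⟩, hvT.2, s, hs, hsU, hsO⟩
  · rintro v ⟨hvT, s, hs, hsU⟩
    have hVs : (dirSum V s).charpoly = (∏ i, P i v).map ι := by
      rw [charpoly_dirSum', Polynomial.map_prod]
      exact Finset.prod_congr rfl fun i _ => hTV' i v (hTi v hvT i) s hs
    have hρs : (ρ s).charpoly = (Q v).map ι := hTρ' v (fun h => hvT (Or.inr h)) s hs
    have hP0 : (∏ i, P i v) ≠ 0 := by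
      intro h1
      rw [h1, Polynomial.map_zero] at hVs
      exact (Matrix.charpoly_monic _).ne_zero hVs
    let _ : Algebra E F := ι.toAlgebra
    let φ : (∏ i, P i v).SplittingField →ₐ[E] F := SplittingField.lift _ (IsAlgClosed.splits _)
    have hφ : (φ : (∏ i, P i v).SplittingField →+* F).comp
        (algebraMap E (∏ i, P i v).SplittingField) = ι := φ.comp_algebraMap
    -- the range of `φ`
    let K : Subfield F := (φ : (∏ i, P i v).SplittingField →+* F).fieldRange
    have hroot : ∀ y, (dirSum V s).charpoly.IsRoot y → y ∈ K := by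
      intro y hy
      rw [hVs] at hy
      have h3 : (∏ i, P i v).map ι = ((∏ i, P i v).map
          (algebraMap E (∏ i, P i v).SplittingField)).map
            (φ : (∏ i, P i v).SplittingField →+* F) := by
        rw [Polynomial.map_map, hφ]
      rw [h3] at hy
      have h0 : (∏ i, P i v).map (algebraMap E (∏ i, P i v).SplittingField) ≠ 0 :=
        map_ne_zero hP0
      rw [← mem_roots (map_ne_zero h0), (SplittingField.splits _).roots_map,
        Multiset.mem_map] at hy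
      obtain ⟨z, -, hz⟩ := hy
      exact ⟨z, hz⟩
    have hE : ∀ e : E, ι e ∈ K := by
      intro e
      refine ⟨algebraMap E (∏ i, P i v).SplittingField e, ?_⟩
      exact RingHom.congr_fun hφ e
    obtain ⟨α, β, γ, ε, hα0, hβ0, hsum, hprod, hγ, hε, hx⟩ :=
      ad_roots (dirSum V) ρ U a b h s hsU
    have h1 := hρs
    rw [Matrix.charpoly_fin_two] at h1
    have e1 : (ρ s).trace = ι (-(Q v).coeff 1) := by
      have h2 := congrArg (fun p : F[X] => p.coeff 1) h1
      simp only [Polynomial.coeff_map] at h2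
      rw [map_neg, ← h2]
      simp [Polynomial.coeff_C]
    have htK : (ρ s).trace ∈ K := by
      rw [e1]
      exact hE _
    have hε0 : ∏ k, ε k ≠ 0 := by
      intro h2
      have h3 := Matrix.det_eq_sign_charpoly_coeff (dirSum V s)
      obtain ⟨k, -, hk⟩ := Finset.prod_eq_zero_iff.1 h2
      have h4 := hε k
      rw [hk, Polynomial.IsRoot, ← Polynomial.coeff_zero_eq_eval_zero] at h4
      rw [h4, mul_zero] at h3
      have h5 : dirSum V s * dirSum V s⁻¹ = 1 := by rw [← map_mul, mul_inv_cancel, map_one]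
      have h6 := congrArg Matrix.det h5
      rw [Matrix.det_mul, h3, zero_mul, Matrix.det_one] at h6
      exact zero_ne_one h6
    have hxK : α / β ∈ K := by
      have h2 : α / β = (∏ k, γ k) / ∏ k, ε k := by rw [← hx, mul_div_cancel_right₀ _ hε0]
      rw [h2]
      exact K.div_mem (K.prod_mem fun k _ => hroot _ (hγ k)) (K.prod_mem fun k _ => hroot _ (hε k))
    have hαβ : α + β ≠ 0 := by
      rw [hsum]
      exact htr s hsU
    have hβK : β ∈ K := by
      have h2 : β = (ρ s).trace / (α / β + 1) := by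
        rw [← hsum]
        have h3 : α / β + 1 = (α + β) / β := by field_simp
        rw [h3, div_div_eq_mul_div, mul_comm, mul_div_assoc, div_self hαβ, mul_one]
      rw [h2]
      exact K.div_mem htK (K.add_mem hxK K.one_mem)
    have hαK : α ∈ K := by
      have h2 : α = (ρ s).trace - β := by rw [← hsum]; ring
      rw [h2]
      exact K.sub_mem htK hβK
    refine Splits.of_splits_map (φ : (∏ i, P i v).SplittingField →+* F)
      (IsAlgClosed.splits _) ?_
    intro y hy
    rw [Polynomial.map_map, hφ, ← hρs, mem_roots (Matrix.charpoly_monic _).ne_zero,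
      Matrix.charpoly_fin_two, ← hsum, ← hprod, Polynomial.IsRoot] at hy
    simp only [eval_add, eval_sub, eval_pow, eval_X, eval_mul, eval_C] at hy
    have h2 : (y - α) * (y - β) = 0 := by linear_combination hy
    rcases mul_eq_zero.1 h2 with h3 | h3
    · rw [sub_eq_zero.1 h3]
      exact hαK
    · rw [sub_eq_zero.1 h3]
      exact hβK

end Pool.Agent.RG
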