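import Pool.Agent.helper67.RG.TB

/-!
# MP_2e0e07_nt, AlgebraicRelation v2: the four equivalent conditions
-/

set_option autoImplicit false

namespace Pool.Agent.RG

open Matrix Polynomial Pool.Agent.GO Pool.Agent.AR MeasureTheory Kronecker Pool.Agent.FF

universe u v w x

theorem adSubquotient_mono {F Γ κ : Type*} [Field F] [Group Γ] [Fintype κ] {U U' : Subgroup Γ}
    (hUU : U' ≤ U) (ρ : Γ →* Matrix (Fin 2) (Fin 2) F) (T : Γ → Matrix κ κ F)
    (h : AdSubquotient U ρ T) : AdSubquotient U' ρ T := by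
  obtain ⟨Q, hQ, π, hπ, heq⟩ := h
  exact ⟨Q, fun u hu => hQ u (hUU hu), π, hπ, fun u hu => heq u (hUU hu)⟩

theorem nonNeglOpen_of_dense {Γ Place : Type*} [Group Γ] [TopologicalSpace Γ]
    [IsTopologicalGroup Γ] [MeasurableSpace Γ] [BorelSpace Γ] (μ : Measure Γ)
    [μ.IsOpenPosMeasure] (frob : Place → Set Γ) (hd : DenseIn frob ⊤ Set.univ) :
    NonNeglOpen μ frob Set.univ := by
  intro U hU C T hC hC0 hT
  have h1 : ∃ g ∈ (U : Set Γ) \ C, g ∈ (⊤ : Subgroup Γ) := by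
    by_contra hne
    push Not at hne
    have h2 : (U : Set Γ) ⊆ C := by
      intro g hg
      by_contra hgC
      exact hne g ⟨hg, hgC⟩ (Subgroup.mem_top g)
    have h3 : μ (U : Set Γ) = 0 := nonpos_iff_eq_zero.1 (hC0 ▸ measure_mono h2)
    exact (hU.measure_ne_zero μ ⟨1, U.one_mem⟩) h3
  obtain ⟨v, hv, hvT, s, hs, -, hsU, hsC⟩ := hd ((U : Set Γ) \ C) T (hU.sdiff hC) h1 hT
  exact ⟨v, hv, hvT, s, hs, hsU, hsC⟩

section

variable {Γ : Type u} {Place : Type x} {E : Type w} [Group Γ] [TopologicalSpace Γ]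
  [IsTopologicalGroup Γ] [CompactSpace Γ] [MeasurableSpace Γ] [BorelSpace Γ]
  (μ : Measure Γ) [μ.IsHaarMeasure] (frob : Place → Set Γ) (hd : DenseIn frob ⊤ Set.univ)
  [Field E] {r : ℕ} {n : Fin r → ℕ} (P : Fin r → Place → E[X]) (Q : Place → E[X]) (i₀ : Fin r)
  (hdet : ∀ v, P i₀ v = X - C ((Q v).coeff 0))

include hd hdet

/-- a relation is equivalent to: `ad⁰ ρ` is potentially in a tensor construction of `V` -/
theorem ar1 {F : Type v} [Field F] [IsAlgClosed F] [CharZero F]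
    [TopologicalSpace F] [IsTopologicalRing F] [T2Space F]
    (ι : E →+* F) (V : (i : Fin r) → Γ →* Matrix (Fin (n i)) (Fin (n i)) F)
    (ρ : Γ →* Matrix (Fin 2) (Fin 2) F) (hR : IsRealisation frob P Q ι V ρ) :
    (∃ (S : Set Place) (Φ : (MvPolynomial (Fin r × ℕ) E)[X]), NonNegl μ frob S ∧
      IsRelation P Q S Φ) ↔
    ∃ (U : Subgroup Γ) (a b : ℕ), IsOpen (U : Set Γ) ∧
      AdSubquotient U ρ (tens (dirSum V) a b) := by
  constructor
  · rintro ⟨S, Φ, hS, hΦ⟩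
    obtain ⟨U, hU, a, b, h⟩ := clause0 μ frob P Q S Φ hS hΦ ι V ρ hR
    exact ⟨U, a, b, hU, h⟩
  · rintro ⟨U, a, b, hU, h⟩
    exact rel_of_ad μ frob P Q i₀ hdet (nonNeglOpen_of_dense μ frob hd) ι V ρ hR.compV hR.comp
      U hU a b h

end

section

variable {Γ : Type} {Place : Type x} {E : Type} [Group Γ] [TopologicalSpace Γ]
  [IsTopologicalGroup Γ] [CompactSpace Γ] [MeasurableSpace Γ] [BorelSpace Γ]
  (μ : Measure Γ) [μ.IsHaarMeasure] (frob : Place → Set Γ) (hd : DenseIn frob ⊤ Set.univ)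
  [Field E] {r : ℕ} {n : Fin r → ℕ} (P : Fin r → Place → E[X]) (Q : Place → E[X])

/-- the intersection of the fields -/
theorem ar2 (p : ℕ) [Fact p.Prime] (F Ω : Type) [NormedField F]
    [NormedAlgebra ℚ_[p] F] [FiniteDimensional ℚ_[p] F] [Field Ω] [IsAlgClosed Ω] [Algebra F Ω]
    [TopologicalSpace Ω] [IsTopologicalRing Ω] [T2Space Ω]
    (ι : E →+* Ω) (V : (i : Fin r) → Γ →* Matrix (Fin (n i)) (Fin (n i)) ℚ_[p])
    (ρ : Γ →* Matrix (Fin 2) (Fin 2) F) (hV : ∀ i, Continuous (V i)) (hρ : Continuous ρ)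
    (hR : IsRealisation frob P Q ι
      (fun i => bc ((algebraMap F Ω).comp (algebraMap ℚ_[p] F)) (V i)) (bc (algebraMap F Ω) ρ)) :
    ¬ (meet V ρ).FiniteIndex ↔
      ∃ (U : Subgroup Γ) (a b : ℕ), IsOpen (U : Set Γ) ∧ AdSubquotient U (bc (algebraMap F Ω) ρ)
        (tens (dirSum fun i => bc ((algebraMap F Ω).comp (algebraMap ℚ_[p] F)) (V i)) a b) := by
  have hSI : SI (bc (algebraMap F Ω) ρ) := SI_of_open _ hR.cont hR.irr
  have hchar : CharZero F := charZero_of_injective_algebraMap (algebraMap ℚ_[p] F).injective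
  have hcharΩ : CharZero Ω := charZero_of_injective_algebraMap (algebraMap F Ω).injective
  have hfi : ∀ U : Subgroup Γ, IsOpen (U : Set Γ) → U.FiniteIndex := by
    intro U hU
    have := Subgroup.quotient_finite_of_isOpen U hU
    exact Subgroup.finiteIndex_of_finite_quotient
  constructor
  · intro h
    obtain ⟨U, hU, hcoef⟩ := Row3.FAD p Γ F Ω V ρ hV hρ hSI h
    obtain ⟨a, b, h⟩ := adSubquotient_of_coef _ (bc (algebraMap F Ω) ρ) U
      (hSI.restrict _ U (hfi U hU)) hcoef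
    exact ⟨U, a, b, hU, h⟩
  · rintro ⟨U, a, b, hU, h⟩
    exact TM.TM (algebraMap F Ω) ((algebraMap F Ω).comp (algebraMap ℚ_[p] F)) V ρ hSI U (hfi U hU)
      a b h

include hd

/-- Frobenius fields -/
theorem ar3 (i₀ : Fin r) (hdet : ∀ v, P i₀ v = X - C ((Q v).coeff 0))
    (hm : HasMembers frob n P Q) :
    (∃ (U : Subgroup Γ) (S : Set Place), IsOpen (U : Set Γ) ∧ DenseIn frob U S ∧
      FrobeniusFields P Q S) ↔
    ∃ (S : Set Place) (Φ : (MvPolynomial (Fin r × ℕ) E)[X]), NonNegl μ frob S ∧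
      IsRelation P Q S Φ := by
  constructor
  · rintro ⟨U₀, S, hU₀, hS, hFF⟩
    obtain ⟨p, hp, τ, V, ρ, hVc, hρc, hR, U, hU, hcoef⟩ := FF frob P Q S U₀ hU₀ hS hm hFF
    have hSI : SI (bc (algebraMap ℚ_[p] (PadicAlgCl p)) ρ) := SI_of_open _ hR.cont hR.irr
    have hfi : U.FiniteIndex := by
      have := Subgroup.quotient_finite_of_isOpen U hU
      exact Subgroup.finiteIndex_of_finite_quotient
    obtain ⟨a, b, h⟩ := adSubquotient_of_coef _ (bc (algebraMap ℚ_[p] (PadicAlgCl p)) ρ) U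
      (hSI.restrict _ U hfi) hcoef
    exact (ar1 μ frob hd P Q i₀ hdet _ _ _ hR).2 ⟨U, a, b, hU, h⟩
  · intro h
    obtain ⟨Tb, hTb, hm⟩ := hm
    obtain ⟨v, -, hv, -⟩ := hd Set.univ Tb isOpen_univ ⟨1, Set.mem_univ _, Subgroup.mem_top _⟩ hTb
    obtain ⟨p, hp, τ, V, ρ, hR, -⟩ := hm E v hv
    obtain ⟨U, a, b, hU, h⟩ := (ar1 μ frob hd P Q i₀ hdet _ _ _ hR).1 h
    have hρc : Continuous ρ := continuous_of_bc p ρ hR.cont
    obtain ⟨U₁, hU₁, hU₁'⟩ := small_subgroup p Γ _ ρ hρc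
    have hp1 : (1 : ℝ) < p := by exact_mod_cast hp.out.one_lt
    have htr : ∀ g ∈ U ⊓ U₁, (bc (algebraMap ℚ_[p] (PadicAlgCl p)) ρ g).trace ≠ 0 := by
      intro g hg h0
      have h1 : (bc (algebraMap ℚ_[p] (PadicAlgCl p)) ρ g).trace =
          algebraMap ℚ_[p] (PadicAlgCl p) (ρ g).trace := by
        rw [bc_apply]
        exact (AddMonoidHom.map_trace (algebraMap ℚ_[p] (PadicAlgCl p)).toAddMonoidHom (ρ g)).symm
      rw [h1] at h0
      have h2 : (ρ g).trace = 0 := (map_eq_zero _).1 h0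
      have h3 : (2 : ℚ_[p]) = -((ρ g - 1) 0 0 + (ρ g - 1) 1 1) := by
        rw [Matrix.trace_fin_two] at h2
        rw [Matrix.sub_apply, Matrix.sub_apply, Matrix.one_apply_eq, Matrix.one_apply_eq]
        linear_combination h2
      have h4 : ‖(2 : ℚ_[p])‖ ≤ ((p : ℝ) ^ 2)⁻¹ := by
        rw [h3, norm_neg]
        exact (Padic.nonarchimedean _ _).trans (max_le (hU₁' g hg.2 0 0) (hU₁' g hg.2 1 1))
      have h5 : (p : ℝ)⁻¹ ≤ ‖(2 : ℚ_[p])‖ := by
        by_cases hp2 : p = 2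
        · subst hp2
          have h6 := Padic.norm_p (p := 2)
          rw [Nat.cast_ofNat] at h6
          rw [h6]
        · have h6 : ‖((2 : ℤ) : ℚ_[p])‖ = 1 := by
            refine le_antisymm (Padic.norm_int_le_one 2) ?_
            by_contra hlt
            push Not at hlt
            have h7 := Padic.norm_intCast_lt_one_iff.1 hlt
            have h8 : p ∣ 2 := by exact_mod_cast h7
            exact hp2 ((Nat.prime_dvd_prime_iff_eq hp.out Nat.prime_two).1 h8)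
          have h7 : ‖(2 : ℚ_[p])‖ = 1 := by exact_mod_cast h6
          rw [h7]
          exact (inv_lt_one_of_one_lt₀ hp1).le
      have h6 : ((p : ℝ) ^ 2)⁻¹ < (p : ℝ)⁻¹ := by
        refine inv_strictAnti₀ (by linarith) ?_
        nlinarith
      linarith
    obtain ⟨S, hS, hFF⟩ := ff_of_ad frob P Q _ _ _ hd hR.compV hR.comp (U ⊓ U₁) (hU.inter hU₁)
      htr a b (adSubquotient_mono inf_le_left _ _ h)
    exact ⟨U ⊓ U₁, S, hU.inter hU₁, hS, hFF⟩

end

end Pool.Agent.RG
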