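import Mathlib
import Pool.Agent.helper67.RG.FDefs
import Pool.Agent.helper16.GK.Defs

/-!
# Definitions for the final statement over the absolute Galois group (MP_2e0e07_nt)
-/

namespace Pool.Agent.RG

open Matrix Polynomial Pool.Agent.GO Pool.Agent.AR Pool.Agent.GK MeasureTheory

/-- The places outside of `T` which have a Frobenius element in the set `U`. -/
def frobIn (K : Type) [Field K] [NumberField K] (U : Set (GalK K)) (T : Set (Pl K)) :
    Set (Pl K) :=
  {v | v ∉ T ∧ ∃ s ∈ frob K v, s ∈ U}

/-- The places of prime norm (degree one) outside of `T` which have a Frobenius element in the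
set `U`. -/
def frobIn1 (K : Type) [Field K] [NumberField K] (U : Set (GalK K)) (T : Set (Pl K)) :
    Set (Pl K) :=
  {v | v ∈ frobIn K U T ∧ (nv K v).Prime}

/-- Weight two: outside of a finite set of places `Q v = X² - a_v X + ε_v q_v` with `a_v` integral
and `ε_v` a root of unity, and the `P i v` with `n i ≥ 2` are monic, integral, with all conjugate
roots of absolute value `q_v ^ (w i / 2)`, `w i ≤ 1` (`q_v` is the norm of `v`). There is no
condition on `a_v`. -/
def IsWeightTwo (K : Type) [Field K] [NumberField K] {E : Type*} [Field E] {r : ℕ}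
    (n : Fin r → ℕ) (P : Fin r → Pl K → E[X]) (Q : Pl K → E[X]) (w : Fin r → ℕ) : Prop :=
  (∀ i, 2 ≤ n i → w i ≤ 1) ∧ ∃ T : Set (Pl K), T.Finite ∧ ∀ v ∉ T,
    IsHecke (nv K v) 1 (Q v) ∧ ∀ i, 2 ≤ n i → IsWeil (nv K v) (w i) (P i v)

/-- The field cut out by the representations `V i`: the fixed field of the intersection of their
kernels. -/
noncomputable def fieldV {K F : Type*} [Field K] [Field F] {r : ℕ} {n : Fin r → ℕ}
    (V : (i : Fin r) → Gal(AlgebraicClosure K/K) →* Matrix (Fin (n i)) (Fin (n i)) F) :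
    IntermediateField K (AlgebraicClosure K) :=
  IntermediateField.fixedField (⨅ i, (V i).ker)

/-- The kernel of `ad ρ`: the elements which act by scalars. -/
def adKer {Γ F : Type*} [Group Γ] [Field F] (ρ : Γ →* Matrix (Fin 2) (Fin 2) F) : Subgroup Γ where
  carrier := {g | ∃ c : F, ρ g = c • 1}
  one_mem' := ⟨1, by rw [map_one, one_smul]⟩
  mul_mem' := by
    rintro a b ⟨c, hc⟩ ⟨c', hc'⟩
    exact ⟨c * c', by rw [map_mul, hc, hc', Matrix.smul_mul, Matrix.one_mul, smul_smul]⟩
  inv_mem' := by
    rintro a ⟨c, hc⟩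
    have h1 : ρ a * ρ a⁻¹ = 1 := by rw [← map_mul, mul_inv_cancel, map_one]
    rw [hc, Matrix.smul_mul, Matrix.one_mul] at h1
    have hc0 : c ≠ 0 := by
      intro h0
      rw [h0, zero_smul] at h1
      exact zero_ne_one h1
    refine ⟨c⁻¹, ?_⟩
    rw [← h1, smul_smul, inv_mul_cancel₀ hc0, one_smul]

/-- The field cut out by `ad ρ`. -/
noncomputable def fieldAd {K F : Type*} [Field K] [Field F]
    (ρ : Gal(AlgebraicClosure K/K) →* Matrix (Fin 2) (Fin 2) F) :
    IntermediateField K (AlgebraicClosure K) :=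
  IntermediateField.fixedField (adKer ρ)

end Pool.Agent.RG
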