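import Mathlib
import Pool.Agent.helper67.RG.Main
import Pool.Agent.helper67.RG.RDefs
import Pool.Agent.helper18.RG.REL
import Pool.Agent.helper16.GK.All1

/-!
# Project rg (MP_2e0e07_nt): the criterion over the absolute Galois group of a number field
-/

namespace Pool.Agent.RG.Real

open Matrix Polynomial Pool.Agent.GO Pool.Agent.AR Pool.Agent.GK MeasureTheory Pool.Agent.RG

universe v

/-! ### The relation, from a potential subquotient -/

section

variable {Γ Place E F : Type*} [Group Γ] [TopologicalSpace Γ] (frob : Place → Set Γ) [Field E]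
  [Field F] [IsAlgClosed F] {r : ℕ} {n : Fin r → ℕ} (P : Fin r → Place → E[X]) (Q : Place → E[X])

/-- The proof of row CNV, with a larger set of places. -/
theorem rel_of_subquot (ι : E →+* F) (V : (i : Fin r) → Γ →* Matrix (Fin (n i)) (Fin (n i)) F)
    (ρ : Γ →* Matrix (Fin 2) (Fin 2) F) (hV : ∀ i, Compatible frob ι (P i) (V i))
    (hQ : Compatible frob ι Q ρ) (U : Subgroup Γ) (i : Fin r)
    (hs : IsSubquotient (fun u : U => ρ u) (fun u : U => V i u)) :
    ∃ (T : Set Place) (Φ : (MvPolynomial (Fin r × ℕ) E)[X]), T.Finite ∧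
      IsRelation P Q {v | v ∉ T ∧ ∃ s ∈ frob v, s ∈ (U : Set Γ)} Φ := by
  obtain ⟨T₁, hT₁, h₁⟩ := hV i
  obtain ⟨T₂, hT₂, h₂⟩ := hQ
  obtain ⟨Φ, hΦ, hrel⟩ := Pool.Agent.RG.REL.REL (E := E) i (n i)
  refine ⟨T₁ ∪ T₂, Φ, hT₁.union hT₂, ?_⟩
  rintro v ⟨hvT, s, hsf, hsU⟩
  have e₁ := h₁ v (fun h => hvT (Or.inl h)) s hsf
  have e₂ := h₂ v (fun h => hvT (Or.inr h)) s hsf
  refine ⟨(hΦ.map _).ne_zero, ?_⟩
  have hm : (P i v).Monic := by
    refine Polynomial.monic_of_injective ι.injective ?_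
    rw [← e₁]
    exact Matrix.charpoly_monic _
  have hdeg : (P i v).natDegree = n i := by
    rw [← Polynomial.natDegree_map ι, ← e₁, Matrix.charpoly_natDegree_eq_dim,
      Fintype.card_fin]
  obtain ⟨α, β, hα, hβ, hsum⟩ := Pool.Agent.RG.CNV.roots_two (ρ s)
  have k₁ : ((P i v).map ι).IsRoot α := by
    rw [← e₁]
    exact root_of_subquot (fun u : U => V i u) (fun u : U => ρ u) hs ⟨s, hsU⟩ α hα
  have k₂ : ((P i v).map ι).IsRoot β := by
    rw [← e₁]
    exact root_of_subquot (fun u : U => V i u) (fun u : U => ρ u) hs ⟨s, hsU⟩ β hβ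
  have k₃ := hrel (fun j => P j v) hm hdeg ι α β k₁ k₂
  have k₄ : α + β = ι (-(Q v).coeff 1) := by
    rw [hsum, e₂, Polynomial.coeff_map, map_neg]
  rw [k₄] at k₃
  have k₅ : ι (((Φ.map (MvPolynomial.eval fun k => (P k.1 v).coeff k.2))).eval
      (-(Q v).coeff 1)) = 0 := by
    rw [← Polynomial.eval₂_at_apply, ← Polynomial.eval_map]
    exact k₃
  exact (map_eq_zero ι).1 k₅

theorem rel_mono {S S' : Set Place} {Φ : (MvPolynomial (Fin r × ℕ) E)[X]} (h : S' ⊆ S)
    (hΦ : IsRelation P Q S Φ) : IsRelation P Q S' Φ := fun v hv => hΦ v (h hv)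

end

/-! ### Chebotarev's theorem -/

section

variable {K : Type} [Field K] [NumberField K] [MeasurableSpace (GalK K)] [BorelSpace (GalK K)]
  (μ : Measure (GalK K)) [μ.IsHaarMeasure]

theorem nonNegl_frobIn1 (hCHEB : Pool.Agent.CH.CHEB_stmt) (U : Set (GalK K)) (hU : IsOpen U)
    (hU0 : U.Nonempty) (T : Set (Pl K)) (hT : T.Finite) :
    NonNegl μ (frob K) (frobIn1 K U T) := by
  intro C T' hC hμ hT'
  have h1 : (U \ C).Nonempty := by
    by_contra h
    rw [Set.not_nonempty_iff_eq_empty, Set.diff_eq_empty] at h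
    have h2 := measure_mono (μ := μ) h
    rw [hμ] at h2
    have h3 := hU.measure_pos μ hU0
    exact absurd (lt_of_lt_of_le h3 h2) (lt_irrefl _)
  obtain ⟨v, hvT, hvp, s, hs, hsU⟩ := DEN_all hCHEB K (U \ C) (T ∪ T') (hU.sdiff hC) h1
    (hT.union hT')
  exact ⟨v, ⟨⟨fun h => hvT (Or.inl h), s, hs, hsU.1⟩, hvp⟩, fun h => hvT (Or.inr h), s, hs,
    hsU.2⟩

theorem exists_good (hCHEB : Pool.Agent.CH.CHEB_stmt) {E : Type} [Field E] [NumberField E] {r : ℕ}
    {n : Fin r → ℕ} (P : Fin r → Pl K → E[X]) (Q : Pl K → E[X]) (w : Fin r → ℕ)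
    (hO : IsWeightTwo K n P Q w ∨ ∃ (s : ℕ) (O : Set (Pl K)),
      IsGoodSet μ (frob K) n P Q (nv K) s w O) :
    ∃ (s : ℕ) (O : Set (Pl K)), IsGoodSet μ (frob K) n P Q (nv K) s w O := by
  rcases hO with ⟨hw, T, hT, h⟩ | h
  · obtain ⟨O, hO⟩ := GSW_all hCHEB K E μ r n P Q w T hT hw (fun v hv => (h v hv).1)
      (fun v hv => (h v hv).2)
    exact ⟨1, O, hO⟩
  · exact h

end

/-! ### Fields -/

section

variable {K : Type} [Field K] [NumberField K]

theorem fixedField_sup (H H' : Subgroup (GalK K)) :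
    IntermediateField.fixedField (H ⊔ H') =
      IntermediateField.fixedField H ⊓ IntermediateField.fixedField H' := by
  apply le_antisymm
  · apply le_inf
    · rw [IntermediateField.le_iff_le]
      exact le_trans le_sup_left ((IntermediateField.le_iff_le _ _).1 le_rfl)
    · rw [IntermediateField.le_iff_le]
      exact le_trans le_sup_right ((IntermediateField.le_iff_le _ _).1 le_rfl)
  · rw [IntermediateField.le_iff_le]
    apply sup_le
    · exact (IntermediateField.le_iff_le _ _).1 inf_le_left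
    · exact (IntermediateField.le_iff_le _ _).1 inf_le_right

theorem finiteIndex_iff (H : Subgroup (GalK K)) (hH : IsClosed (H : Set (GalK K))) :
    H.FiniteIndex ↔ FiniteDimensional K (IntermediateField.fixedField H) := by
  have h1 : (IntermediateField.fixedField H).fixingSubgroup = H :=
    InfiniteGalois.fixingSubgroup_fixedField (⟨H, hH⟩ : ClosedSubgroup (GalK K))
  have h2 := InfiniteGalois.isOpen_iff_finite (IntermediateField.fixedField H)
  rw [h1] at h2
  rw [← h2]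
  constructor
  · intro h
    exact Subgroup.isOpen_of_isClosed_of_finiteIndex H hH
  · intro h
    have := Subgroup.quotient_finite_of_isOpen H h
    exact Subgroup.finiteIndex_of_finite_quotient

theorem meet_eq {Γ F F' : Type*} [Group Γ] [Field F] [Field F'] {r : ℕ} {n : Fin r → ℕ}
    (V : (i : Fin r) → Γ →* Matrix (Fin (n i)) (Fin (n i)) F')
    (ρ : Γ →* Matrix (Fin 2) (Fin 2) F) : meet V ρ = adKer ρ ⊔ ⨅ i, (V i).ker := by
  apply le_antisymm
  · rintro g ⟨h, hV, c, hc⟩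
    have h1 : g * h⁻¹ ∈ adKer ρ := by
      refine ⟨c, ?_⟩
      rw [map_mul, hc, Matrix.smul_mul, ← map_mul, mul_inv_cancel, map_one]
    have h2 : h ∈ ⨅ i, (V i).ker := by
      rw [Subgroup.mem_iInf]
      exact fun i => hV i
    have h3 := mul_mem (Subgroup.mem_sup_left (T := ⨅ i, (V i).ker) h1)
      (Subgroup.mem_sup_right (S := adKer ρ) h2)
    rwa [inv_mul_cancel_right] at h3
  · apply sup_le
    · rintro g ⟨c, hc⟩
      exact ⟨1, fun i => map_one _, c, by rw [hc, map_one]⟩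
    · intro g hg
      rw [Subgroup.mem_iInf] at hg
      exact ⟨g, fun i => hg i, 1, by rw [one_smul]⟩

theorem meet_fields {F F' : Type*} [Field F] [TopologicalSpace F] [T2Space F] [Field F']
    [TopologicalSpace F'] [T2Space F'] {r : ℕ} {n : Fin r → ℕ}
    (V : (i : Fin r) → GalK K →* Matrix (Fin (n i)) (Fin (n i)) F')
    (ρ : GalK K →* Matrix (Fin 2) (Fin 2) F) (hV : ∀ i, Continuous (V i)) (hρ : Continuous ρ) :
    (meet V ρ).FiniteIndex ↔ FiniteDimensional K (fieldV V ⊓ fieldAd ρ : IntermediateField K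
      (AlgebraicClosure K)) := by
  have c1 : IsClosed ((⨅ i, (V i).ker : Subgroup (GalK K)) : Set (GalK K)) := by
    rw [Subgroup.coe_iInf]
    refine isClosed_iInter fun i => ?_
    exact isClosed_singleton.preimage (hV i)
  have c2 : IsClosed (adKer ρ : Set (GalK K)) := by
    have e : (adKer ρ : Set (GalK K)) = {g | ρ g 0 1 = 0} ∩ ({g | ρ g 1 0 = 0} ∩
        {g | ρ g 0 0 = ρ g 1 1}) := by
      ext g
      constructor
      · rintro ⟨c, hc⟩
        refine ⟨?_, ?_, ?_⟩ <;> show _ = _ <;> rw [hc] <;> simp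
      · rintro ⟨h1, h2, h3⟩
        refine ⟨ρ g 0 0, ?_⟩
        ext i j
        fin_cases i <;> fin_cases j
        · simp
        · simpa using h1
        · simpa using h2
        · simpa using h3.symm
    have hc : ∀ i j, Continuous (fun g => ρ g i j) := fun i j => hρ.matrix_elem i j
    rw [e]
    exact (isClosed_eq (hc 0 1) continuous_const).inter ((isClosed_eq (hc 1 0)
      continuous_const).inter (isClosed_eq (hc 0 0) (hc 1 1)))
  have c3 : IsClosed ((meet V ρ : Subgroup (GalK K)) : Set (GalK K)) := by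
    rw [meet_eq]
    haveI : (⨅ i, (V i).ker).Normal := Subgroup.normal_iInf_normal fun i => inferInstance
    rw [Subgroup.mul_normal]
    exact (c2.isCompact.mul c1.isCompact).isClosed
  rw [finiteIndex_iff _ c3, meet_eq, fixedField_sup, inf_comm]
  rfl

end

/-! ### The theorem -/

theorem main1 (hCHEB : Pool.Agent.CH.CHEB_stmt) {K E : Type} [Field K] [NumberField K] [Field E]
    [NumberField E] [MeasurableSpace (GalK K)] [BorelSpace (GalK K)] (μ : Measure (GalK K))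
    [μ.IsHaarMeasure] {r : ℕ} {n : Fin r → ℕ} (P : Fin r → Pl K → E[X]) (Q : Pl K → E[X])
    (w : Fin r → ℕ)
    (hO : IsWeightTwo K n P Q w ∨ ∃ (s : ℕ) (O : Set (Pl K)),
      IsGoodSet μ (frob K) n P Q (nv K) s w O)
    {F : Type v} [Field F] [IsAlgClosed F] [CharZero F] [TopologicalSpace F]
    [IsTopologicalRing F] [T2Space F] (ι : E →+* F)
    (V : (i : Fin r) → GalK K →* Matrix (Fin (n i)) (Fin (n i)) F)
    (ρ : GalK K →* Matrix (Fin 2) (Fin 2) F) (hR : IsRealisation (frob K) P Q ι V ρ) :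
    List.TFAE [Arises V ρ,
      ∃ (U : Subgroup (GalK K)) (T : Set (Pl K)) (Φ : (MvPolynomial (Fin r × ℕ) E)[X]),
        IsOpen (U : Set (GalK K)) ∧ T.Finite ∧ IsRelation P Q (frobIn K U T) Φ,
      ∃ (U : Set (GalK K)) (T : Set (Pl K)) (Φ : (MvPolynomial (Fin r × ℕ) E)[X]),
        IsOpen U ∧ U.Nonempty ∧ T.Finite ∧ IsRelation P Q (frobIn1 K U T) Φ,
      ∃ (S : Set (Pl K)) (Φ : (MvPolynomial (Fin r × ℕ) E)[X]), NonNegl μ (frob K) S ∧
        IsRelation P Q S Φ] := by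
  obtain ⟨s, O, hO⟩ := exists_good μ hCHEB P Q w hO
  tfae_have 1 → 2 := by
    intro h
    obtain ⟨U, hU, i, hi⟩ := Row3.DSC V ρ hR.irr h
    obtain ⟨T, Φ, hT, hΦ⟩ := rel_of_subquot (frob K) P Q ι V ρ hR.compV hR.comp U i hi
    exact ⟨U, T, Φ, hU, hT, hΦ⟩
  tfae_have 2 → 3 := by
    rintro ⟨U, T, Φ, hU, hT, hΦ⟩
    exact ⟨U, T, Φ, hU, ⟨1, U.one_mem⟩, hT, rel_mono P Q (fun v hv => hv.1) hΦ⟩
  tfae_have 3 → 4 := by
    rintro ⟨U, T, Φ, hU, hU0, hT, hΦ⟩
    exact ⟨_, Φ, nonNegl_frobIn1 μ hCHEB U hU hU0 T hT, hΦ⟩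
  tfae_have 4 → 1 := (clause1 μ (frob K) P Q (nv K) s w O hO ι V ρ hR).1
  tfae_finish

theorem main2 (hCHEB : Pool.Agent.CH.CHEB_stmt) {K E : Type} [Field K] [NumberField K] [Field E]
    [NumberField E] [MeasurableSpace (GalK K)] [BorelSpace (GalK K)] (μ : Measure (GalK K))
    [μ.IsHaarMeasure] {r : ℕ} {n : Fin r → ℕ} (P : Fin r → Pl K → E[X]) (Q : Pl K → E[X])
    (w : Fin r → ℕ)
    (hO : IsWeightTwo K n P Q w ∨ ∃ (s : ℕ) (O : Set (Pl K)),
      IsGoodSet μ (frob K) n P Q (nv K) s w O)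
    (p : ℕ) [Fact p.Prime] (F Ω : Type) [NormedField F] [NormedAlgebra ℚ_[p] F]
    [FiniteDimensional ℚ_[p] F] [Field Ω] [IsAlgClosed Ω] [Algebra F Ω] [TopologicalSpace Ω]
    [IsTopologicalRing Ω] [T2Space Ω] (ι : E →+* Ω)
    (V : (i : Fin r) → GalK K →* Matrix (Fin (n i)) (Fin (n i)) ℚ_[p])
    (ρ : GalK K →* Matrix (Fin 2) (Fin 2) F) (hV : ∀ i, Continuous (V i)) (hρ : Continuous ρ)
    (hR : IsRealisation (frob K) P Q ι
      (fun i => bc ((algebraMap F Ω).comp (algebraMap ℚ_[p] F)) (V i)) (bc (algebraMap F Ω) ρ)) :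
    Arises (fun i => bc ((algebraMap F Ω).comp (algebraMap ℚ_[p] F)) (V i))
        (bc (algebraMap F Ω) ρ) ↔
      ¬ FiniteDimensional K (fieldV V ⊓ fieldAd ρ : IntermediateField K (AlgebraicClosure K)) := by
  obtain ⟨s, O, hO⟩ := exists_good μ hCHEB P Q w hO
  rw [← meet_fields V ρ hV hρ]
  exact (clause2 μ (frob K) P Q (nv K) s w O hO p F Ω ι V ρ hV hρ hR).symm

end Pool.Agent.RG.Real
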