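import Pool.Agent.helper67.RG.Real
import Pool.Agent.helper1.GR.Defs
import Pool.Agent.helper1.CD.Spec2

/-!
# Project rg (MP_2e0e07_nt): the criterion over the absolute Galois group, with positive upper
densities (no measures in the statement)
-/

set_option autoImplicit false

namespace Pool.Agent.RG.RealD

open Matrix Polynomial Pool.Agent.GO Pool.Agent.AR Pool.Agent.GK MeasureTheory Pool.Agent.RG
  Pool.Agent.CD Pool.Agent.GR

universe v

theorem haar (K : Type) [Field K] [NumberField K] :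
    ∃ (m : MeasurableSpace (GalK K)) (_ : BorelSpace (GalK K)) (μ : @Measure (GalK K) m),
      @Measure.IsHaarMeasure (GalK K) _ _ m μ := by
  letI : MeasurableSpace (GalK K) := borel (GalK K)
  haveI : BorelSpace (GalK K) := ⟨rfl⟩
  exact ⟨inferInstance, inferInstance, Measure.haar, inferInstance⟩

theorem good_of (hGPD : GPD_stmt) {K E : Type} [Field K] [NumberField K] [Field E]
    [MeasurableSpace (GalK K)] [BorelSpace (GalK K)] (μ : Measure (GalK K)) [μ.IsHaarMeasure]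
    {r : ℕ} {n : Fin r → ℕ} (P : Fin r → Pl K → E[X]) (Q : Pl K → E[X]) (w : Fin r → ℕ)
    (hO : IsWeightTwo K n P Q w ∨ ∃ (s : ℕ) (O : Set (Pl K)), IsGoodSetK K n P Q s w O) :
    IsWeightTwo K n P Q w ∨ ∃ (s : ℕ) (O : Set (Pl K)),
      IsGoodSet μ (frob K) n P Q (nv K) s w O := by
  rcases hO with h | ⟨s, O, h⟩
  · exact Or.inl h
  · exact Or.inr ⟨s, O, h.pos, h.wt, hGPD K μ O h.dense, h.good, h.weil⟩

/-- The four conditions, with a set of positive upper density. -/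
theorem main1 (hCHEB : Pool.Agent.CH.CHEB_stmt) (hNNP : NNP_stmt) (hGPD : GPD_stmt)
    (hFIP : FIP_stmt) {K E : Type} [Field K] [NumberField K] [Field E] [NumberField E]
    {r : ℕ} {n : Fin r → ℕ} (P : Fin r → Pl K → E[X]) (Q : Pl K → E[X]) (w : Fin r → ℕ)
    (hO : IsWeightTwo K n P Q w ∨ ∃ (s : ℕ) (O : Set (Pl K)), IsGoodSetK K n P Q s w O)
    {F : Type v} [Field F] [IsAlgClosed F] [CharZero F] [TopologicalSpace F]
    [IsTopologicalRing F] [T2Space F] (ι : E →+* F)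
    (V : (i : Fin r) → GalK K →* Matrix (Fin (n i)) (Fin (n i)) F)
    (ρ : GalK K →* Matrix (Fin 2) (Fin 2) F) (hR : IsRealisation (frob K) P Q ι V ρ) :
    List.TFAE [Arises V ρ,
      ∃ (U : Subgroup (GalK K)) (T : Set (Pl K)) (Φ : (MvPolynomial (Fin r × ℕ) E)[X]),
        IsOpen (U : Set (GalK K)) ∧ T.Finite ∧ IsRelation P Q (frobIn K U T) Φ,
      ∃ (U : Set (GalK K)) (T : Set (Pl K)) (Φ : (MvPolynomial (Fin r × ℕ) E)[X]),
        IsOpen U ∧ U.Nonempty ∧ T.Finite ∧ IsRelation P Q (frobIn1 K U T) Φ,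
      ∃ (S : Set (Pl K)) (Φ : (MvPolynomial (Fin r × ℕ) E)[X]), PosUD K S ∧
        IsRelation P Q S Φ] := by
  obtain ⟨m, hm, μ, hμ⟩ := haar K
  have h := Real.main1 hCHEB μ P Q w (good_of hGPD μ P Q w hO) ι V ρ hR
  have h1 := h.out 0 1
  have h2 := h.out 0 2
  have h3 := h.out 3 0
  tfae_have 1 ↔ 2 := h1
  tfae_have 1 ↔ 3 := h2
  tfae_have 3 → 4 := by
    rintro ⟨U, T, Φ, hU, hU0, hT, hΦ⟩
    exact ⟨_, Φ, hFIP K U T hU hU0 hT, hΦ⟩
  tfae_have 4 → 1 := by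
    rintro ⟨S, Φ, hS, hΦ⟩
    exact h3.1 ⟨S, Φ, hNNP K μ S hS, hΦ⟩
  tfae_finish

/-- The fields. -/
theorem main2 (hCHEB : Pool.Agent.CH.CHEB_stmt) (hGPD : GPD_stmt) {K E : Type} [Field K]
    [NumberField K] [Field E] [NumberField E] {r : ℕ} {n : Fin r → ℕ}
    (P : Fin r → Pl K → E[X]) (Q : Pl K → E[X]) (w : Fin r → ℕ)
    (hO : IsWeightTwo K n P Q w ∨ ∃ (s : ℕ) (O : Set (Pl K)), IsGoodSetK K n P Q s w O)
    (p : ℕ) [Fact p.Prime] (F Ω : Type) [NormedField F] [NormedAlgebra ℚ_[p] F]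
    [FiniteDimensional ℚ_[p] F] [Field Ω] [IsAlgClosed Ω] [Algebra F Ω] [TopologicalSpace Ω]
    [IsTopologicalRing Ω] [T2Space Ω] (ι : E →+* Ω)
    (V : (i : Fin r) → GalK K →* Matrix (Fin (n i)) (Fin (n i)) ℚ_[p])
    (ρ : GalK K →* Matrix (Fin 2) (Fin 2) F) (hV : ∀ i, Continuous (V i)) (hρ : Continuous ρ)
    (hR : IsRealisation (frob K) P Q ι
      (fun i => bc ((algebraMap F Ω).comp (algebraMap ℚ_[p] F)) (V i)) (bc (algebraMap F Ω) ρ)) :
    Arises (fun i => bc ((algebraMap F Ω).comp (algebraMap ℚ_[p] F)) (V i))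
        (bc (algebraMap F Ω) ρ) ↔
      ¬ FiniteDimensional K (fieldV V ⊓ fieldAd ρ : IntermediateField K (AlgebraicClosure K)) := by
  obtain ⟨m, hm, μ, hμ⟩ := haar K
  exact Real.main2 hCHEB μ P Q w (good_of hGPD μ P Q w hO) p F Ω ι V ρ hV hρ hR

end Pool.Agent.RG.RealD
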