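import Mathlib
import Pool.Agent.helper67.RG.Main

/-!
# The adjoint representation in a tensor construction
-/

namespace Pool.Agent.RG

open Matrix Polynomial Pool.Agent.GO Pool.Agent.AR MeasureTheory Kronecker

theorem tens_mem {F Γ m : Type*} [Field F] [Group Γ] [Fintype m] [DecidableEq m]
    (V : Γ →* Matrix m m F) (a b : ℕ) (p q : (Fin a → m) × (Fin b → m)) :
    (fun g => tens V a b g p q) ∈ alg V := by
  have h1 : (fun g => tens V a b g p q) = (∏ k : Fin a, fun g => V g (p.1 k) (q.1 k)) *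
      ∏ k : Fin b, fun g => V g⁻¹ (q.2 k) (p.2 k) := by
    funext g
    rw [Pi.mul_apply, Finset.prod_apply, Finset.prod_apply]
    rfl
  rw [h1]
  exact Subalgebra.mul_mem _ (Subalgebra.prod_mem _ fun k _ => coef_mem V _ _)
    (Subalgebra.prod_mem _ fun k _ => coefInv_mem V _ _)

/-- the coefficients of `ad0 ρ` from `AdSubquotient` -/
theorem ad0_of_adSubquotient {F Γ m : Type*} [Field F] [Group Γ] [Fintype m] [DecidableEq m]
    (V : Γ →* Matrix m m F) (ρ : Γ →* Matrix (Fin 2) (Fin 2) F) (U : Subgroup Γ) (a b : ℕ)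
    (h : AdSubquotient U ρ (tens V a b)) (i j : Fin 3) :
    (fun u : U => ad0 (ρ.comp U.subtype) u i j) ∈ alg (V.comp U.subtype) := by
  classical
  obtain ⟨Q, hQ, π, hπ, heq⟩ := h
  obtain ⟨x, hx⟩ := (hπ (em (Pi.single j 1))).mpr (trace_em _)
  -- the functional
  let l₀ : Q →ₗ[F] F :=
    { toFun := fun y => co (π y) i
      map_add' := by
        intro y z
        rw [map_add]
        fin_cases i <;> rfl
      map_smul' := by
        intro c y
        rw [map_smul]
        fin_cases i <;> rfl }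
  obtain ⟨l, hl⟩ := LinearMap.exists_extend l₀
  have hl' : ∀ y : Q, l y.1 = co (π y) i := fun y => LinearMap.congr_fun hl y
  have hlin : ∀ y : ((Fin a → m) × (Fin b → m)) → F, l y = ∑ k, l (Pi.single k 1) * y k := by
    intro y
    conv_lhs => rw [← Finset.univ_sum_single y]
    rw [map_sum]
    apply Finset.sum_congr rfl
    intro k _
    have h1 : (Pi.single k (y k) : ((Fin a → m) × (Fin b → m)) → F) =
        y k • Pi.single k (1 : F) := by
      rw [← Pi.single_smul, smul_eq_mul, mul_one]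
    rw [h1, map_smul, smul_eq_mul, mul_comm]
  have hkey : ∀ u : U, ad0 (ρ.comp U.subtype) u i j =
      ∑ k, l (Pi.single k 1) * ∑ k', tens V a b u.1 k k' * x.1 k' := by
    intro u
    have h1 := heq u.1 u.2 x
    have h2 := hl' ⟨tens V a b u.1 *ᵥ x.1, hQ u.1 u.2 x.1 x.2⟩
    rw [h1, hx] at h2
    have h3 := em_ad0 (ρ.comp U.subtype) u (Pi.single j 1)
    have h4 : ρ.comp U.subtype u * em (Pi.single j 1) * ρ.comp U.subtype u⁻¹ =
        ρ u.1 * em (Pi.single j 1) * ρ u.1⁻¹ := rfl
    rw [h4] at h3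
    rw [← h3, co_em, Matrix.mulVec_single_one] at h2
    have h5 : ad0 (ρ.comp U.subtype) u i j = l (tens V a b u.1 *ᵥ x.1) := h2.symm
    rw [h5, hlin]
    rfl
  have hfun : (fun u : U => ad0 (ρ.comp U.subtype) u i j) =
      ∑ k, ∑ k', (l (Pi.single k 1) * x.1 k') • (fun u : U => tens V a b u.1 k k') := by
    funext u
    rw [hkey u, Finset.sum_apply]
    apply Finset.sum_congr rfl
    intro k _
    rw [Finset.sum_apply, Finset.mul_sum]
    apply Finset.sum_congr rfl
    intro k' _
    rw [Pi.smul_apply, smul_eq_mul]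
    ring
  rw [hfun]
  refine Subalgebra.sum_mem _ fun k _ => Subalgebra.sum_mem _ fun k' _ =>
    Subalgebra.smul_mem _ ?_ _
  exact tens_mem (V.comp U.subtype) a b k k'

end Pool.Agent.RG
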