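import Mathlib
import Pool.Agent.helper67.RG.AdCoef

/-!
# Project rg (MP_2e0e07_nt): the equivalences for one realisation
-/

namespace Pool.Agent.RG

open Matrix Polynomial Pool.Agent.GO Pool.Agent.AR MeasureTheory Kronecker

universe u v w x

section

variable {Γ : Type u} {Place : Type x} {E : Type w} [Group Γ] [TopologicalSpace Γ]
  [IsTopologicalGroup Γ] [CompactSpace Γ] [MeasurableSpace Γ] [BorelSpace Γ]
  (μ : Measure Γ) [μ.IsHaarMeasure] (frob : Place → Set Γ) [Field E]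
  {r : ℕ} {n : Fin r → ℕ} (P : Fin r → Place → E[X]) (Q : Place → E[X])

theorem clauseT [NumberField E] (q : Place → ℕ) (s : ℕ) (w : Fin r → ℕ) (O : Set Place)
    (hO : IsGoodSet μ frob n P Q q s w O) {F : Type v} [Field F] [IsAlgClosed F] [CharZero F]
    [TopologicalSpace F] [IsTopologicalRing F] [T2Space F]
    (ι : E →+* F) (V : (i : Fin r) → Γ →* Matrix (Fin (n i)) (Fin (n i)) F)
    (ρ : Γ →* Matrix (Fin 2) (Fin 2) F) (hR : IsRealisation frob P Q ι V ρ) :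
    [∃ (S : Set Place) (Φ : (MvPolynomial (Fin r × ℕ) E)[X]), NonNegl μ frob S ∧
      IsRelation P Q S Φ,
      ∃ (U : Subgroup Γ) (a b : ℕ), IsOpen (U : Set Γ) ∧ AdSubquotient U ρ (tens (dirSum V) a b),
      Arises V ρ].TFAE := by
  tfae_have 1 → 2 := by
    rintro ⟨S, Φ, hS, hΦ⟩
    obtain ⟨U, hU, a, b, h⟩ := clause0 μ frob P Q S Φ hS hΦ ι V ρ hR
    exact ⟨U, a, b, hU, h⟩
  tfae_have 2 → 3 := by
    rintro ⟨U, a, b, hU, h⟩
    exact Row3.IDP V ρ (TCORE CORE_all μ frob P Q q s w O hO.pos hO.wt hO.dense hO.good hO.weil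
      ι V ρ hR ⟨U, hU, ad0_of_adSubquotient (dirSum V) ρ U a b h⟩)
  tfae_have 3 → 1 := (clause1 μ frob P Q q s w O hO ι V ρ hR).mpr
  tfae_finish

end

end Pool.Agent.RG
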