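import Pool.Agent.helper67.RG.TE

/-!
# MP_2e0e07_nt, AlgebraicRelation v2: the eigenvalues of the adjoint representation
-/

set_option autoImplicit false

namespace Pool.Agent.RG

open Matrix Polynomial Pool.Agent.GO Pool.Agent.AR Kronecker

/-- the two eigenvalues of a `2 × 2` matrix -/
theorem eig_two {F : Type*} [Field F] [IsAlgClosed F] (A : Matrix (Fin 2) (Fin 2) F) :
    ∃ α β : F, Eig A α ∧ Eig A β ∧ α + β = A.trace ∧ α * β = A.det := by
  have hd : A.charpoly.degree ≠ 0 := by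
    rw [Matrix.charpoly_degree_eq_dim]
    simp
  obtain ⟨α, hα⟩ := IsAlgClosed.exists_root _ hd
  have h1 : A.charpoly = X ^ 2 - C A.trace * X + C A.det := Matrix.charpoly_fin_two A
  have h3 : ∀ x, A.charpoly.eval x = x ^ 2 - A.trace * x + A.det := by
    intro x
    rw [h1]
    simp
  have h4 : A.charpoly.eval α = 0 := hα
  rw [h3] at h4
  refine ⟨α, A.trace - α, (eig_iff_root _ _).2 hα, (eig_iff_root _ _).2 ?_, by ring, ?_⟩
  · show A.charpoly.eval (A.trace - α) = 0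
    rw [h3]
    linear_combination h4
  · linear_combination -h4

/-- an eigenvector of the adjoint action -/
theorem ad_vec {F : Type*} [Field F] (A A' : Matrix (Fin 2) (Fin 2) F) (hA : A * A' = 1)
    (α β : F) (hα : Eig A α) (hβ : Eig A β) (hs : α + β = A.trace) (hβ0 : β ≠ 0) :
    ∃ Z : Matrix (Fin 2) (Fin 2) F, Z ≠ 0 ∧ Z.trace = 0 ∧ A * Z * A' = (α / β) • Z := by
  by_cases hab : α = β
  · rw [hab, div_self hβ0]
    by_cases h1 : A = α • (1 : Matrix (Fin 2) (Fin 2) F)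
    · refine ⟨!![0, 1; 0, 0], ?_, by simp, ?_⟩
      · intro h0
        have := congrFun (congrFun h0 0) 1
        simp at this
      · have h2 : A * !![0, 1; 0, 0] = !![0, 1; 0, 0] * A := by
          rw [h1, Matrix.smul_mul, Matrix.mul_smul, Matrix.one_mul, Matrix.mul_one]
        rw [h2, Matrix.mul_assoc, hA, Matrix.mul_one, one_smul]
    · refine ⟨A - α • (1 : Matrix (Fin 2) (Fin 2) F), sub_ne_zero.2 h1, ?_, ?_⟩
      · rw [Matrix.trace_sub, Matrix.trace_smul, Matrix.trace_one, ← hs, ← hab]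
        simp only [Fintype.card_fin, Nat.cast_ofNat, smul_eq_mul]
        ring
      · have h2 : A * (A - α • (1 : Matrix (Fin 2) (Fin 2) F)) =
            (A - α • (1 : Matrix (Fin 2) (Fin 2) F)) * A := by
          rw [Matrix.mul_sub, Matrix.sub_mul, Matrix.smul_mul, Matrix.mul_smul, Matrix.one_mul,
            Matrix.mul_one]
        rw [h2, Matrix.mul_assoc, hA, Matrix.mul_one, one_smul]
  · obtain ⟨u, hu, hu'⟩ := hα
    obtain ⟨w, hw, hw'⟩ := (eig_transpose A β).2 hβ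
    have hw2 : w ᵥ* A = β • w := by rw [← Matrix.mulVec_transpose, hw']
    refine ⟨Matrix.vecMulVec u w, ?_, ?_, ?_⟩
    · obtain ⟨i, hi⟩ := Function.ne_iff.1 hu
      obtain ⟨j, hj⟩ := Function.ne_iff.1 hw
      intro h0
      have h1 := congrFun (congrFun h0 i) j
      rw [Matrix.vecMulVec_apply, Matrix.zero_apply] at h1
      exact (mul_ne_zero hi hj) h1
    · have h1 : w ⬝ᵥ (A *ᵥ u) = (w ᵥ* A) ⬝ᵥ u := Matrix.dotProduct_mulVec w A u
      rw [hu', hw2, dotProduct_smul, smul_dotProduct, smul_eq_mul, smul_eq_mul] at h1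
      have h2 : (α - β) * (w ⬝ᵥ u) = 0 := by linear_combination h1
      have h3 := (mul_eq_zero.1 h2).resolve_left (sub_ne_zero.2 hab)
      rw [Matrix.trace_vecMulVec, dotProduct_comm]
      exact h3
    · have h1 : w ᵥ* A' = β⁻¹ • w := by
        have h2 : (w ᵥ* A) ᵥ* A' = w := by
          rw [Matrix.vecMul_vecMul, hA, Matrix.vecMul_one]
        rw [hw2, Matrix.smul_vecMul] at h2
        have h3 : β⁻¹ • w = β⁻¹ • (β • w ᵥ* A') := by rw [h2]
        rw [h3, smul_smul, inv_mul_cancel₀ hβ0, one_smul]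
      rw [Matrix.mul_vecMulVec, hu', Matrix.vecMulVec_mul, h1]
      ext i j
      rw [Matrix.vecMulVec_apply, Matrix.smul_apply, Matrix.vecMulVec_apply, Pi.smul_apply,
        Pi.smul_apply, smul_eq_mul, smul_eq_mul, smul_eq_mul, div_eq_mul_inv]
      ring

/-- The eigenvalues of the adjoint action occur in `T`. -/
theorem eig_of_ad {F Γ κ : Type*} [Field F] [Group Γ] [Fintype κ] (U : Subgroup Γ)
    (ρ : Γ →* Matrix (Fin 2) (Fin 2) F) (T : Γ → Matrix κ κ F) (h : AdSubquotient U ρ T) (g : Γ)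
    (hg : g ∈ U) (x : F) (Z : Matrix (Fin 2) (Fin 2) F) (hZ : Z ≠ 0) (htr : Z.trace = 0)
    (hZx : ρ g * Z * ρ g⁻¹ = x • Z) : Eig (T g) x := by
  classical
  obtain ⟨Q, hQ, π, hπ, heq⟩ := h
  by_contra hne
  let f : Q →ₗ[F] Q := (T g).mulVecLin.restrict (hQ g hg) - x • LinearMap.id
  have hf : ∀ y : Q, f y = ⟨T g *ᵥ y.1, hQ g hg y.1 y.2⟩ - x • y := fun y => rfl
  have hfi : Function.Injective f := by
    rw [injective_iff_map_eq_zero]
    intro y hy
    by_contra hy0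
    apply hne
    refine ⟨y.1, fun h0 => hy0 (Subtype.ext h0), ?_⟩
    rw [hf, sub_eq_zero] at hy
    exact congrArg Subtype.val hy
  have hfs : Function.Surjective f := LinearMap.injective_iff_surjective.1 hfi
  let Ψ : Matrix (Fin 2) (Fin 2) F →ₗ[F] Matrix (Fin 2) (Fin 2) F :=
    (LinearMap.mulRight F (ρ g⁻¹)) ∘ₗ (LinearMap.mulLeft F (ρ g)) - x • LinearMap.id
  have hΨ : ∀ w, Ψ w = ρ g * w * ρ g⁻¹ - x • w := fun w => rfl
  have hmem : ∀ w, w ∈ LinearMap.range π ↔ w.trace = 0 := fun w => hπ w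
  have hR : ∀ w ∈ LinearMap.range π, Ψ w ∈ LinearMap.range π := by
    rintro _ ⟨y, rfl⟩
    rw [hΨ, ← heq g hg y]
    exact ⟨⟨T g *ᵥ y.1, hQ g hg y.1 y.2⟩ - x • y, by rw [map_sub, map_smul]⟩
  have hs : Function.Surjective (Ψ.restrict hR) := by
    rintro ⟨w, y, rfl⟩
    obtain ⟨y', rfl⟩ := hfs y
    refine ⟨⟨π y', ⟨y', rfl⟩⟩, Subtype.ext ?_⟩
    show Ψ (π y') = π (f y')
    rw [hΨ, hf, map_sub, map_smul, heq g hg y']
  have hi : Function.Injective (Ψ.restrict hR) := LinearMap.injective_iff_surjective.2 hs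
  have h1 : (Ψ.restrict hR) ⟨Z, (hmem Z).2 htr⟩ = (Ψ.restrict hR) 0 := by
    rw [map_zero]
    apply Subtype.ext
    show Ψ Z = 0
    rw [hΨ, hZx, sub_self]
  exact hZ (congrArg Subtype.val (hi h1))

end Pool.Agent.RG
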