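import Mathlib
import Pool.Agent.helper85.AR.Final
import Pool.Agent.helper6.GO.Main

/-!
# MP_2e0e07_nt, AlgebraicRelation v2, row TE: the eigenvalues of tensor constructions
-/

set_option autoImplicit false

namespace Pool.Agent.RG

open Matrix Polynomial Pool.Agent.GO Pool.Agent.AR Kronecker

/-- `x` is an eigenvalue of `A` -/
def Eig {F κ : Type*} [Field F] [Fintype κ] (A : Matrix κ κ F) (x : F) : Prop :=
  ∃ y : κ → F, y ≠ 0 ∧ A *ᵥ y = x • y

theorem eig_iff_root {F κ : Type*} [Field F] [Fintype κ] [DecidableEq κ] (A : Matrix κ κ F)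
    (x : F) : Eig A x ↔ A.charpoly.IsRoot x := by
  rw [Polynomial.IsRoot, Matrix.eval_charpoly, ← Matrix.exists_mulVec_eq_zero_iff]
  constructor
  · rintro ⟨y, hy, h⟩
    refine ⟨y, hy, ?_⟩
    rw [Matrix.sub_mulVec, h, Matrix.scalar_apply, sub_eq_zero]
    ext i
    rw [Matrix.mulVec_diagonal]
    rfl
  · rintro ⟨y, hy, h⟩
    refine ⟨y, hy, ?_⟩
    rw [Matrix.sub_mulVec, Matrix.scalar_apply, sub_eq_zero] at h
    rw [← h]
    ext i
    rw [Matrix.mulVec_diagonal]
    rfl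

theorem eig_transpose {F κ : Type*} [Field F] [Fintype κ] [DecidableEq κ] (A : Matrix κ κ F)
    (x : F) : Eig Aᵀ x ↔ Eig A x := by
  rw [eig_iff_root, eig_iff_root, Matrix.charpoly_transpose]

/-- The eigenvalues of a Kronecker product. -/
theorem eig_kron {F m κ : Type*} [Field F] [IsAlgClosed F] [Fintype m] [Fintype κ]
    (A : Matrix m m F) (B : Matrix κ κ F) (x : F) (hx : x ≠ 0) (M : Matrix (m × κ) (m × κ) F)
    (hM : ∀ p q, M p q = A p.1 q.1 * B p.2 q.2) (h : Eig M x) :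
    ∃ γ δ : F, Eig A γ ∧ Eig B δ ∧ x = γ * δ := by
  classical
  obtain ⟨y, hy, hxy⟩ := h
  -- the two factors as endomorphisms
  let f : (m × κ → F) →ₗ[F] (m × κ → F) :=
    { toFun := fun z p => ∑ j, A p.1 j * z (j, p.2)
      map_add' := by
        intro z z'
        funext p
        show ∑ j, A p.1 j * (z (j, p.2) + z' (j, p.2)) = _
        rw [Pi.add_apply, ← Finset.sum_add_distrib]
        exact Finset.sum_congr rfl fun j _ => by ring
      map_smul' := by
        intro c z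
        funext p
        show ∑ j, A p.1 j * (c * z (j, p.2)) = c * ∑ j, A p.1 j * z (j, p.2)
        rw [Finset.mul_sum]
        exact Finset.sum_congr rfl fun j _ => by ring }
  let g : (m × κ → F) →ₗ[F] (m × κ → F) :=
    { toFun := fun z p => ∑ l, B p.2 l * z (p.1, l)
      map_add' := by
        intro z z'
        funext p
        show ∑ l, B p.2 l * (z (p.1, l) + z' (p.1, l)) = _
        rw [Pi.add_apply, ← Finset.sum_add_distrib]
        exact Finset.sum_congr rfl fun j _ => by ring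
      map_smul' := by
        intro c z
        funext p
        show ∑ l, B p.2 l * (c * z (p.1, l)) = c * ∑ l, B p.2 l * z (p.1, l)
        rw [Finset.mul_sum]
        exact Finset.sum_congr rfl fun j _ => by ring }
  have hfg : ∀ z, f (g z) = M *ᵥ z := by
    intro z
    funext p
    show ∑ j, A p.1 j * ∑ l, B p.2 l * z (j, l) = ∑ q, M p q * z q
    rw [Fintype.sum_prod_type]
    refine Finset.sum_congr rfl fun j _ => ?_
    rw [Finset.mul_sum]
    refine Finset.sum_congr rfl fun l _ => ?_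
    rw [hM]
    ring
  have hgf : ∀ z, g (f z) = M *ᵥ z := by
    intro z
    funext p
    show ∑ l, B p.2 l * ∑ j, A p.1 j * z (j, l) = ∑ q, M p q * z q
    rw [Fintype.sum_prod_type_right]
    refine Finset.sum_congr rfl fun j _ => ?_
    rw [Finset.mul_sum]
    refine Finset.sum_congr rfl fun l _ => ?_
    rw [hM]
    ring
  let Y : Submodule F (m × κ → F) := LinearMap.ker (M.mulVecLin - x • LinearMap.id)
  have hYmem : ∀ z, z ∈ Y ↔ M *ᵥ z = x • z := by
    intro z
    rw [LinearMap.mem_ker, LinearMap.sub_apply, LinearMap.smul_apply, LinearMap.id_apply, Matrix.mulVecLin_apply,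
      sub_eq_zero]
  have hfY : ∀ z ∈ Y, f z ∈ Y := by
    intro z hz
    rw [hYmem] at hz ⊢
    rw [← hfg, hgf, hz, map_smul]
  have hne : Nontrivial Y := by
    refine ⟨⟨⟨y, (hYmem y).2 hxy⟩, 0, ?_⟩⟩
    intro h0
    exact hy (congrArg Subtype.val h0)
  obtain ⟨γ, hγ⟩ := Module.End.exists_eigenvalue (f.restrict hfY)
  obtain ⟨z, hz⟩ := hγ.exists_hasEigenvector
  have hz0 : z.1 ≠ 0 := by
    intro h0
    exact hz.2 (Subtype.ext h0)
  have hfz : f z.1 = γ • z.1 := congrArg Subtype.val hz.apply_eq_smul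
  have hMz : M *ᵥ z.1 = x • z.1 := (hYmem z.1).1 z.2
  have hgz : γ • g z.1 = x • z.1 := by
    rw [← map_smul, ← hfz, hgf, hMz]
  have hγ0 : γ ≠ 0 := by
    intro h0
    rw [h0, zero_smul] at hgz
    exact hz0 ((smul_eq_zero.1 hgz.symm).resolve_left hx)
  have hgz' : g z.1 = (x / γ) • z.1 := by
    rw [div_eq_inv_mul, mul_smul, ← hgz, smul_smul, inv_mul_cancel₀ hγ0, one_smul]
  obtain ⟨⟨i₀, k₀⟩, hik⟩ := Function.ne_iff.1 hz0
  refine ⟨γ, x / γ, ⟨fun i => z.1 (i, k₀), ?_, ?_⟩, ⟨fun k => z.1 (i₀, k), ?_, ?_⟩, ?_⟩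
  · intro h0
    exact hik (congrFun h0 i₀)
  · funext i
    exact congrFun hfz (i, k₀)
  · intro h0
    exact hik (congrFun h0 k₀)
  · funext k
    exact congrFun hgz' (i₀, k)
  · rw [mul_div_cancel₀ _ hγ0]

/-- The eigenvalues of an iterated Kronecker product. -/
theorem eig_pow {F m : Type*} [Field F] [IsAlgClosed F] [Fintype m] :
    ∀ (a : ℕ) (A : Fin a → Matrix m m F) (x : F), x ≠ 0 →
      ∀ M : Matrix (Fin a → m) (Fin a → m) F, (∀ p q, M p q = ∏ k, A k (p k) (q k)) → Eig M x →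
      ∃ γ : Fin a → F, (∀ k, Eig (A k) (γ k)) ∧ x = ∏ k, γ k := by
  intro a
  induction a with
  | zero =>
    intro A x hx M hM h
    refine ⟨Fin.elim0, fun k => k.elim0, ?_⟩
    obtain ⟨y, hy, hxy⟩ := h
    obtain ⟨p, hp⟩ := Function.ne_iff.1 hy
    have h1 := congrFun hxy p
    rw [Pi.smul_apply, smul_eq_mul] at h1
    have h2 : (M *ᵥ y) p = y p := by
      show ∑ q, M p q * y q = y p
      rw [Fintype.sum_eq_single p fun q hq => absurd (Subsingleton.elim q p) hq, hM]
      simp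
    rw [h2] at h1
    have h3 : (x - 1) * y p = 0 := by rw [sub_mul, one_mul, ← h1, sub_self]
    have h4 : x - 1 = 0 := (mul_eq_zero.1 h3).resolve_right hp
    rw [Finset.univ_eq_empty, Finset.prod_empty]
    linear_combination h4
  | succ a ih =>
    intro A x hx M hM h
    obtain ⟨y, hy, hxy⟩ := h
    let e : m × (Fin a → m) ≃ (Fin (a + 1) → m) := Fin.consEquiv fun _ => m
    have he : ∀ p, e p = Fin.cons p.1 p.2 := fun p => rfl
    let M1 : Matrix (Fin a → m) (Fin a → m) F := Matrix.of fun p q => ∏ k, A k.succ (p k) (q k)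
    obtain ⟨γ, δ, hγ, hδ, hx'⟩ := eig_kron (A 0) M1 x hx
      (Matrix.of fun p q => M (e p) (e q)) (by
        intro p q
        show M (e p) (e q) = A 0 p.1 q.1 * ∏ k, A k.succ (p.2 k) (q.2 k)
        rw [hM, Fin.prod_univ_succ, he, he]
        simp only [Fin.cons_zero, Fin.cons_succ]) (by
        refine ⟨fun p => y (e p), ?_, ?_⟩
        · intro h0
          apply hy
          funext p
          have h1 := congrFun h0 (e.symm p)
          simp only [Equiv.apply_symm_apply] at h1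
          exact h1
        · funext p
          show ∑ q, M (e p) (e q) * y (e q) = x * y (e p)
          rw [e.sum_comp fun q => M (e p) q * y q]
          exact congrFun hxy (e p))
    have hδ0 : δ ≠ 0 := by
      intro h0
      rw [h0, mul_zero] at hx'
      exact hx hx'
    obtain ⟨γ', hγ', hδ'⟩ := ih (fun k => A k.succ) δ hδ0 M1 (fun p q => rfl) hδ
    refine ⟨Fin.cons γ γ', fun k => ?_, ?_⟩
    · refine Fin.cases ?_ (fun k => ?_) k
      · rw [Fin.cons_zero]
        exact hγ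
      · rw [Fin.cons_succ]
        exact hγ' k
    · rw [Fin.prod_univ_succ, Fin.cons_zero]
      simp only [Fin.cons_succ]
      rw [← hδ', hx']

/-- Row TE: the eigenvalues of `tens`. -/
theorem eig_tens {F Γ m : Type*} [Field F] [IsAlgClosed F] [Group Γ] [Fintype m] [DecidableEq m]
    (V : Γ →* Matrix m m F) (a b : ℕ) (g : Γ) (x : F) (hx : x ≠ 0) (h : Eig (tens V a b g) x) :
    ∃ (γ : Fin a → F) (δ : Fin b → F), (∀ k, Eig (V g) (γ k)) ∧ (∀ k, Eig (V g) (δ k)) ∧
      x * ∏ k, δ k = ∏ k, γ k := by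
  obtain ⟨α, β, hα, hβ, hxαβ⟩ := eig_kron
    (Matrix.of fun p q : Fin a → m => ∏ k, V g (p k) (q k))
    (Matrix.of fun p q : Fin b → m => ∏ k, (V g⁻¹)ᵀ (p k) (q k)) x hx (tens V a b g)
    (fun p q => rfl) h
  have hα0 : α ≠ 0 := fun h0 => hx (by rw [hxαβ, h0, zero_mul])
  have hβ0 : β ≠ 0 := fun h0 => hx (by rw [hxαβ, h0, mul_zero])
  obtain ⟨γ, hγ, hαγ⟩ := eig_pow a (fun _ => V g) α hα0 _ (fun p q => rfl) hα
  obtain ⟨ε, hε, hβε⟩ := eig_pow b (fun _ => (V g⁻¹)ᵀ) β hβ0 _ (fun p q => rfl) hβ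
  have hε0 : ∀ k, ε k ≠ 0 := by
    intro k h0
    apply hβ0
    rw [hβε]
    exact Finset.prod_eq_zero (Finset.mem_univ k) h0
  refine ⟨γ, fun k => (ε k)⁻¹, hγ, ?_, ?_⟩
  · intro k
    obtain ⟨y, hy, hy'⟩ := (eig_transpose _ _).1 (hε k)
    refine ⟨y, hy, ?_⟩
    have h1 : V g *ᵥ (V g⁻¹ *ᵥ y) = y := by
      rw [Matrix.mulVec_mulVec, ← map_mul, mul_inv_cancel, map_one, Matrix.one_mulVec]
    rw [hy', Matrix.mulVec_smul] at h1
    have h2 : (ε k)⁻¹ • y = (ε k)⁻¹ • (ε k • V g *ᵥ y) := by rw [h1]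
    rw [h2, smul_smul, inv_mul_cancel₀ (hε0 k), one_smul]
  · rw [Finset.prod_inv_distrib, ← hαγ, ← hβε, hxαβ, mul_assoc, mul_inv_cancel₀ hβ0, mul_one]

end Pool.Agent.RG
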